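import Mathlib
import Pool.Agent.R528.RM.BHG
import Pool.Agent.H305R2.AE2
import Pool.Agent.H305R2.MertensE

set_option autoImplicit false
set_option linter.unusedSectionVars false

/-! # The law along the Mersenne numbers in adapted random sets (helper310) -/

open MeasureTheory Filter Topology

namespace Pool.Agent.U310.Mers

open Pool.Agent.R528.RM

/-- asymptotically equal nonnegative sequences with divergent sum -/
lemma sum_ratio {a b : ℕ → ℝ} (hb : ∀ n, 0 ≤ b n)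
    (hab : ∀ ε : ℝ, 0 < ε → ∀ᶠ n in atTop, |a n - b n| ≤ ε * b n)
    (hB : Tendsto (fun x => ∑ n ∈ Finset.range x, b n) atTop atTop) :
    Tendsto (fun x => (∑ n ∈ Finset.range x, a n) / ∑ n ∈ Finset.range x, b n) atTop (𝓝 1) := by
  have h1 : (fun n => a n - b n) =o[atTop] b := by
    rw [Asymptotics.isLittleO_iff]
    intro c hc
    filter_upwards [hab c hc] with n hn
    rwa [Real.norm_eq_abs, Real.norm_eq_abs, abs_of_nonneg (hb n)]
  have h2 := (h1.sum_range (fun n => hb n) hB).tendsto_div_nhds_zero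
  have h3 := h2.add_const 1
  rw [zero_add] at h3
  refine h3.congr' ?_
  filter_upwards [hB.eventually_gt_atTop 0] with x hx
  rw [Finset.sum_sub_distrib, sub_div, div_self hx.ne']
  ring

section
variable {Ω : Type} {m0 : MeasurableSpace Ω} {μ : Measure Ω} [IsProbabilityMeasure μ]
  {ℱ : Filtration ℕ m0} {A : ℕ → Set Ω}

/-- the convergence half of the conditional Borel-Cantelli lemma -/
theorem fin_law (hA : ∀ n, MeasurableSet[ℱ n] (A n)) (ρ : ℕ → ℝ) (hρ : ∀ n, 0 ≤ ρ n)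
    (hd : ∀ᵐ ω ∂μ, ∀ ε : ℝ, 0 < ε → ∀ᶠ n : ℕ in atTop, |dens μ ℱ A n ω - ρ (n + 1)| ≤ ε * ρ (n + 1))
    (T : Set ℕ) (C : ℝ) (hT : ∀ x : ℕ, ∑ n ∈ Finset.range x, T.indicator ρ (n + 1) ≤ C) :
    ∀ᵐ ω ∂μ, ∀ᶠ m : ℕ in atTop, m ∈ T → ω ∉ A m := by
  classical
  set B : ℕ → Set Ω := fun m => if m ∈ T then A m else ∅ with hBdef
  have hB : ∀ n, MeasurableSet[ℱ n] (B n) := by
    intro n
    simp only [hBdef]
    split_ifs
    · exact hA n
    · exact @MeasurableSet.empty _ (ℱ n)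
  have h1 := ae_mem_limsup_atTop_iff (ℱ := ℱ) μ hB
  have h2 : ∀ᵐ ω ∂μ, ∀ n : ℕ, (μ[(B (n + 1)).indicator (1 : Ω → ℝ) | ℱ n]) ω =
      T.indicator (fun _ => dens μ ℱ A n ω) (n + 1) := by
    rw [ae_all_iff]
    intro n
    by_cases h : n + 1 ∈ T
    · refine Eventually.of_forall fun ω => ?_
      rw [Set.indicator_of_mem h]
      simp only [hBdef, if_pos h]
      rfl
    · have h3 : μ[(B (n + 1)).indicator (1 : Ω → ℝ) | ℱ n] =ᵐ[μ] 0 := by
        simp only [hBdef, if_neg h, Set.indicator_empty]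
        rw [show (fun _ : Ω => (0 : ℝ)) = 0 from rfl, condExp_zero]
      filter_upwards [h3] with ω hω
      rw [hω, Set.indicator_of_notMem h]
      rfl
  filter_upwards [h1, h2, hd] with ω hω1 hω2 hω3
  have h4 : ω ∉ limsup B atTop := by
    rw [hω1]
    intro h5
    obtain ⟨n0, hn0⟩ := eventually_atTop.1 (hω3 1 one_pos)
    -- the sum is bounded
    have hle : ∀ n, (μ[(B (n + 1)).indicator (1 : Ω → ℝ) | ℱ n]) ω ≤
        2 * T.indicator ρ (n + 1) + (if n < n0 then |(μ[(B (n + 1)).indicator (1 : Ω → ℝ) | ℱ n]) ω| else 0) := by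
      intro n
      have hnn : 0 ≤ T.indicator ρ (n + 1) := Set.indicator_nonneg (fun m _ => hρ m) _
      split_ifs with h6
      · have := le_abs_self ((μ[(B (n + 1)).indicator (1 : Ω → ℝ) | ℱ n]) ω)
        linarith
      · rw [hω2 n, add_zero]
        by_cases h : n + 1 ∈ T
        · rw [Set.indicator_of_mem h, Set.indicator_of_mem h]
          have := (abs_le.1 (hn0 n (by omega))).2
          linarith
        · rw [Set.indicator_of_notMem h, Set.indicator_of_notMem h]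
          simp
    set D : ℝ := ∑ n ∈ Finset.range n0, |(μ[(B (n + 1)).indicator (1 : Ω → ℝ) | ℱ n]) ω| with hD
    have hbound : ∀ x : ℕ, ∑ n ∈ Finset.range x, (μ[(B (n + 1)).indicator (1 : Ω → ℝ) | ℱ n]) ω ≤ 2 * C + D := by
      intro x
      refine (Finset.sum_le_sum fun n _ => hle n).trans ?_
      rw [Finset.sum_add_distrib, ← Finset.mul_sum]
      have h6 := hT x
      have h7 : ∑ n ∈ Finset.range x, (if n < n0 then |(μ[(B (n + 1)).indicator (1 : Ω → ℝ) | ℱ n]) ω| else 0) ≤ D := by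
        rw [← Finset.sum_filter, hD]
        refine Finset.sum_le_sum_of_subset_of_nonneg ?_ fun _ _ _ => abs_nonneg _
        intro n hn
        rw [Finset.mem_filter] at hn
        exact Finset.mem_range.2 hn.2
      linarith
    obtain ⟨x, hx⟩ := (h5.eventually_gt_atTop (2 * C + D)).exists
    exact absurd (hbound x) (not_le.2 hx)
  rw [mem_limsup_iff_frequently_mem, not_frequently] at h4
  filter_upwards [h4] with m hm hmT hmA
  apply hm
  simp only [hBdef, if_pos hmT]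
  exact hmA

/-- the law of large numbers along the Mersenne numbers -/
theorem inf_law (hA : ∀ n, MeasurableSet[ℱ n] (A n)) (ρ : ℕ → ℝ) (hρ : ∀ n, 0 ≤ ρ n ∧ ρ n ≤ 1)
    (hd : ∀ᵐ ω ∂μ, ∀ ε : ℝ, 0 < ε → ∀ᶠ n : ℕ in atTop, |dens μ ℱ A n ω - ρ (n + 1)| ≤ ε * ρ (n + 1))
    (w : ℕ → ℝ) (hw0 : ∀ n, 0 ≤ w n) (hw1 : ∀ n, w n ≤ 1)
    (hU : Tendsto (fun x => ∑ n ∈ Finset.range x, w n * ρ (2 ^ (n + 1) - 1)) atTop atTop) :
    ∀ᵐ ω ∂μ, Tendsto (fun x => (∑ n ∈ Finset.range x, w n *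
      (A (2 ^ (n + 1) - 1)).indicator (fun _ => (1 : ℝ)) ω) /
      ∑ n ∈ Finset.range x, w n * ρ (2 ^ (n + 1) - 1)) atTop (𝓝 1) := by
  have h := bhg (μ := μ) (ℱ := ℱ) (A := A) (ι := Unit) hA ρ (fun n => (hρ n).1) (fun n => (hρ n).2) hd
    (fun _ n => 2 ^ (n + 1) - 1) 1 {()} rfl
    (fun _ _ => by
      intro a b hab
      have h1 : 2 ^ (a + 1) < 2 ^ (b + 1) := Nat.pow_lt_pow_right (by norm_num) (by omega)
      have h2 : 1 ≤ 2 ^ (a + 1) := Nat.one_le_two_pow
      show 2 ^ (a + 1) - 1 < 2 ^ (b + 1) - 1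
      omega)
    (fun _ _ n => by
      have h1 : 2 ^ 1 ≤ 2 ^ (n + 1) := Nat.pow_le_pow_right (by norm_num) (by omega)
      show 1 ≤ 2 ^ (n + 1) - 1
      omega)
    (fun i _ j _ hij => absurd (Subsingleton.elim i j) hij)
    w hw0 hw1 (by simpa using hU)
  simpa [YY] using h

end

/-- `m` has no prime factor at most `z m` -/
def Rough (z : ℕ → ℕ) (m : ℕ) : Prop := ∀ q, q.Prime → q ≤ z m → ¬ q ∣ m

/-- `∏_{q ≤ x} (1 - 1 / q)⁻¹` -/
noncomputable def W (x : ℕ) : ℝ := ∏ q ∈ (Finset.Icc 1 x).filter Nat.Prime, (1 - (q : ℝ)⁻¹)⁻¹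

lemma W_ge (x : ℕ) : 1 ≤ W x := by
  unfold W
  have : ∀ q ∈ (Finset.Icc 1 x).filter Nat.Prime, 1 ≤ (1 - (q : ℝ)⁻¹)⁻¹ := by
    intro q hq
    have hq2 : (1 : ℝ) < q := by exact_mod_cast (Finset.mem_filter.1 hq).2.one_lt
    have h1 : (q : ℝ)⁻¹ < 1 := inv_lt_one_of_one_lt₀ hq2
    have h2 : 0 < (q : ℝ)⁻¹ := by positivity
    rw [one_le_inv₀ (by linarith)]
    linarith
  calc (1 : ℝ) = ∏ q ∈ (Finset.Icc 1 x).filter Nat.Prime, (1 : ℝ) := by simp
    _ ≤ _ := Finset.prod_le_prod (fun _ _ => zero_le_one) this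

open Classical in
/-- the density, at most one -/
noncomputable def rho1 (z : ℕ → ℕ) (m : ℕ) : ℝ := if Rough z m then min 1 (W (z m) / Real.log m) else 0

lemma rho1_bounds (z : ℕ → ℕ) (n : ℕ) : 0 ≤ rho1 z n ∧ rho1 z n ≤ 1 := by
  unfold rho1
  have h1 : 0 ≤ W (z n) := zero_le_one.trans (W_ge _)
  have h2 := Real.log_natCast_nonneg n
  split_ifs
  · exact ⟨by positivity, min_le_left _ _⟩
  · exact ⟨le_rfl, zero_le_one⟩

lemma log_succ_ratio : Tendsto (fun n : ℕ => Real.log ((n + 1 : ℕ) : ℝ) / Real.log n) atTop (𝓝 1) := by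
  have h1 : Tendsto (fun n : ℕ => (Real.log ((n : ℝ) + 1) - Real.log n) / Real.log n) atTop (𝓝 0) :=
    Real.tendsto_log_nat_add_one_sub_log.div_atTop Pool.Agent.H305R2.log_nat_tendsto
  have h2 := h1.add_const 1
  rw [zero_add] at h2
  refine h2.congr' ?_
  filter_upwards [eventually_gt_atTop 1] with n hn
  have : 0 < Real.log (n : ℝ) := Real.log_pos (by exact_mod_cast hn)
  push_cast
  field_simp
  ring

section

variable {Ω : Type} {m0 : MeasurableSpace Ω} {μ : Measure Ω} [IsProbabilityMeasure μ]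
  {ℱ : Filtration ℕ m0} {A : ℕ → Set Ω}

/-- the densities follow the profile -/
lemma profile (z : ℕ → ℕ) (hV : ∀ᶠ n : ℕ in atTop, W (z n) / Real.log n < 1)
    (hcop : ∀ n, ¬ Rough z n → A n = ∅)
    (hd : ∀ᵐ ω ∂μ, Tendsto (fun n : ℕ => dens μ ℱ A n ω * Real.log n / W (z (n + 1)))
      (atTop ⊓ 𝓟 {n : ℕ | Rough z (n + 1)}) (𝓝 1)) :
    ∀ᵐ ω ∂μ, ∀ ε : ℝ, 0 < ε → ∀ᶠ n : ℕ in atTop,
      |dens μ ℱ A n ω - rho1 z (n + 1)| ≤ ε * rho1 z (n + 1) := by
  have hz' : ∀ᵐ ω ∂μ, ∀ n, ¬ Rough z (n + 1) → dens μ ℱ A n ω = 0 := by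
    rw [ae_all_iff]
    intro n
    by_cases h : Rough z (n + 1)
    · exact Eventually.of_forall fun ω h2 => absurd h h2
    · have h1 : dens μ ℱ A n =ᵐ[μ] 0 := by
        unfold dens
        rw [hcop _ h, Set.indicator_empty]
        rw [show (fun _ : Ω => (0 : ℝ)) = 0 from rfl, condExp_zero]
      filter_upwards [h1] with ω hω _
      exact hω
  filter_upwards [hz', hd] with ω hω1 hω2 ε hε
  have h1 : Tendsto (fun n : ℕ => dens μ ℱ A n ω * Real.log ((n + 1 : ℕ) : ℝ) / W (z (n + 1)))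
      (atTop ⊓ 𝓟 {n : ℕ | Rough z (n + 1)}) (𝓝 1) := by
    have h2 := hω2.mul (log_succ_ratio.mono_left (inf_le_left : atTop ⊓ 𝓟 {n : ℕ | Rough z (n + 1)} ≤ atTop))
    rw [mul_one] at h2
    refine h2.congr' ?_
    apply Filter.Eventually.filter_mono inf_le_left
    filter_upwards [eventually_gt_atTop 1] with n hn
    have hn' : (1 : ℝ) < n := by exact_mod_cast hn
    have hl : 0 < Real.log (n : ℝ) := Real.log_pos hn'
    field_simp
  have h2 := (Metric.tendsto_nhds.1 h1) ε hε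
  rw [eventually_inf_principal] at h2
  have h3 : ∀ᶠ n : ℕ in atTop, W (z (n + 1)) / Real.log ((n + 1 : ℕ) : ℝ) < 1 :=
    (tendsto_add_atTop_nat 1).eventually hV
  filter_upwards [h2, h3, eventually_gt_atTop 2] with n hn hn2 hn3
  by_cases hcp : Rough z (n + 1)
  · have h4 := hn hcp
    have hl : 0 < Real.log ((n + 1 : ℕ) : ℝ) := Real.log_pos (by
      push_cast
      have : (2 : ℝ) < n := by exact_mod_cast hn3
      linarith)
    have hV : 0 < W (z (n + 1)) := lt_of_lt_of_le one_pos (W_ge _)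
    have e1 : rho1 z (n + 1) = W (z (n + 1)) / Real.log ((n + 1 : ℕ) : ℝ) := by
      unfold rho1
      rw [if_pos hcp, min_eq_right hn2.le]
    rw [e1]
    rw [Real.dist_eq] at h4
    have e2 : dens μ ℱ A n ω - W (z (n + 1)) / Real.log ((n + 1 : ℕ) : ℝ) =
        (dens μ ℱ A n ω * Real.log ((n + 1 : ℕ) : ℝ) / W (z (n + 1)) - 1) *
          (W (z (n + 1)) / Real.log ((n + 1 : ℕ) : ℝ)) := by
      field_simp
    have h5 : 0 < W (z (n + 1)) / Real.log ((n + 1 : ℕ) : ℝ) := by positivity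
    rw [e2, abs_mul, abs_of_pos h5]
    exact mul_le_mul_of_nonneg_right h4.le h5.le
  · rw [hω1 n hcp]
    have e1 : rho1 z (n + 1) = 0 := by
      unfold rho1
      rw [if_neg hcp]
    rw [e1]
    simp

end

/-- `log (2 ^ p - 1) / (p log 2) → 1` -/
lemma log_mers : Tendsto (fun p : ℕ => Real.log ((2 ^ p - 1 : ℕ) : ℝ) / (p * Real.log 2)) atTop (𝓝 1) := by
  have hl2 : 0 < Real.log 2 := Real.log_pos (by norm_num)
  have h0 : Tendsto (fun p : ℕ => 1 - Real.log 2 / (p * Real.log 2)) atTop (𝓝 1) := by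
    have h1 : Tendsto (fun p : ℕ => Real.log 2 / ((p : ℝ) * Real.log 2)) atTop (𝓝 0) :=
      (tendsto_natCast_atTop_atTop.atTop_mul_const hl2).const_div_atTop _
    have h2 := h1.const_sub 1
    rwa [sub_zero] at h2
  refine tendsto_of_tendsto_of_tendsto_of_le_of_le' h0 tendsto_const_nhds ?_ ?_
  · filter_upwards [eventually_ge_atTop 1] with p hp
    have hp0 : (0 : ℝ) < p := by exact_mod_cast hp
    have h1 : 2 ^ (p - 1) ≤ 2 ^ p - 1 := by
      have h2 : 2 ^ p = 2 * 2 ^ (p - 1) := by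
        rw [← pow_succ', Nat.sub_add_cancel hp]
      have h3 : 1 ≤ 2 ^ (p - 1) := Nat.one_le_two_pow
      omega
    have h2 : Real.log ((2 ^ (p - 1) : ℕ) : ℝ) ≤ Real.log ((2 ^ p - 1 : ℕ) : ℝ) :=
      Real.log_le_log (by positivity) (by exact_mod_cast h1)
    push_cast at h2
    rw [Real.log_pow, Nat.cast_sub hp] at h2
    rw [le_div_iff₀ (by positivity), sub_mul, one_mul, div_mul_cancel₀ _ (by positivity)]
    push_cast at h2 ⊢
    linarith
  · filter_upwards [eventually_ge_atTop 1] with p hp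
    have hp0 : (0 : ℝ) < p := by exact_mod_cast hp
    rw [div_le_one (by positivity)]
    have h3 : 1 ≤ 2 ^ (p - 1) := Nat.one_le_two_pow
    have h4 : 2 ^ p = 2 * 2 ^ (p - 1) := by
      rw [← pow_succ', Nat.sub_add_cancel hp]
    have h2 : Real.log ((2 ^ p - 1 : ℕ) : ℝ) ≤ Real.log ((2 ^ p : ℕ) : ℝ) :=
      Real.log_le_log (by
        have : 0 < 2 ^ p - 1 := by omega
        exact_mod_cast this) (by exact_mod_cast Nat.sub_le _ _)
    push_cast at h2
    rwa [Real.log_pow] at h2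

lemma mers_tendsto : Tendsto (fun p : ℕ => 2 ^ p - 1) atTop atTop := by
  refine tendsto_atTop.2 fun b => ?_
  filter_upwards [eventually_ge_atTop b] with p hp
  have : p < 2 ^ p := Nat.lt_two_pow_self
  omega

/-- `log log (2 ^ p - 1) / log p → 1` -/
lemma loglog_mers : Tendsto (fun p : ℕ => Real.log (Real.log ((2 ^ p - 1 : ℕ) : ℝ)) / Real.log p) atTop (𝓝 1) := by
  have hl2 : 0 < Real.log 2 := Real.log_pos (by norm_num)
  have hlog := Pool.Agent.H305R2.log_nat_tendsto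
  have h1 : Tendsto (fun p : ℕ => Real.log (Real.log ((2 ^ p - 1 : ℕ) : ℝ) / (p * Real.log 2))) atTop (𝓝 0) := by
    have := (Real.continuousAt_log one_ne_zero).tendsto.comp log_mers
    rwa [Real.log_one] at this
  have h2 : Tendsto (fun p : ℕ => (Real.log (Real.log ((2 ^ p - 1 : ℕ) : ℝ) / (p * Real.log 2)) + Real.log (Real.log 2)) /
      Real.log p) atTop (𝓝 0) := (h1.add_const _).div_atTop hlog
  have h3 := h2.add_const 1
  rw [zero_add] at h3
  refine h3.congr' ?_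
  have hpos : ∀ᶠ p : ℕ in atTop, 0 < Real.log ((2 ^ p - 1 : ℕ) : ℝ) / (p * Real.log 2) :=
    log_mers.eventually (lt_mem_nhds one_pos)
  filter_upwards [hpos, eventually_ge_atTop 2] with p hp hp2
  have hp0 : (0 : ℝ) < p := by exact_mod_cast (by omega : 0 < p)
  have hL : 0 < Real.log p := Real.log_pos (by exact_mod_cast (by omega : 1 < p))
  have hM : 0 < Real.log ((2 ^ p - 1 : ℕ) : ℝ) := by
    rw [div_pos_iff_of_pos_right (by positivity)] at hp
    exact hp
  rw [Real.log_div hM.ne' (by positivity), Real.log_mul hp0.ne' hl2.ne']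
  field_simp
  ring

end Pool.Agent.U310.Mers
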