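import Mathlib
import Pool.Agent.Erdos456.Iface

set_option autoImplicit false

/-! # Small prime factors of the Mersenne numbers are rare (helper310) -/

namespace Pool.Agent.U310.Mers

open Finset Filter Topology
open Pool.Agent.Erdos456 (GG GG_nonneg GG_mul_le GG_sq_le sieve_two')

/-- `∑_{1 ≤ k ≤ K} (2 k / φ(2 k)) ^ 2 ≤ C K` -/
lemma sum_GG : ∃ C : ℝ, 0 < C ∧ ∀ K : ℕ, ∑ k ∈ Icc 1 K, GG (2 * k) ^ 2 ≤ C * K := by
  obtain ⟨C1, hC1, h⟩ := GG_sq_le
  have hsum : Summable (fun d : ℕ => 1 / (d : ℝ) ^ (3 / 2 : ℝ)) :=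
    Real.summable_one_div_nat_rpow.mpr (by norm_num)
  set Z : ℝ := ∑' d : ℕ, 1 / (d : ℝ) ^ (3 / 2 : ℝ) with hZ
  have hZ0 : 0 ≤ Z := tsum_nonneg (fun d => by positivity)
  refine ⟨4 * C1 * (Z + 1), by positivity, fun K => ?_⟩
  have hstep : ∀ k ∈ Icc 1 K, GG (2 * k) ^ 2 ≤
      4 * C1 * ∑ d ∈ Icc 1 K, if d ∣ k then (d : ℝ) ^ (-(1/2) : ℝ) else 0 := by
    intro k hk
    rw [mem_Icc] at hk
    have h1 : GG (2 * k) ≤ 2 * GG k := by
      have h3 := GG_mul_le 2 k
      have h2 : GG 2 = 2 := by unfold GG; rw [Nat.totient_two]; norm_num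
      rwa [h2] at h3
    have h2 : GG (2 * k) ^ 2 ≤ 4 * GG k ^ 2 := by
      have := GG_nonneg (2 * k)
      have := GG_nonneg k
      nlinarith
    refine h2.trans ?_
    rw [mul_assoc]
    refine mul_le_mul_of_nonneg_left ((h k).trans ?_) (by norm_num)
    refine mul_le_mul_of_nonneg_left ?_ hC1.le
    rw [← Finset.sum_filter]
    refine Finset.sum_le_sum_of_subset_of_nonneg ?_ fun _ _ _ => by positivity
    intro d hd
    rw [Nat.mem_divisors] at hd
    have := Nat.le_of_dvd (by omega) hd.1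
    have := Nat.pos_of_dvd_of_pos hd.1 (by omega)
    rw [mem_filter, mem_Icc]
    exact ⟨⟨by omega, by omega⟩, hd.1⟩
  refine (Finset.sum_le_sum hstep).trans ?_
  rw [← Finset.mul_sum, Finset.sum_comm, mul_assoc (4 * C1)]
  refine mul_le_mul_of_nonneg_left ?_ (by positivity)
  have hinner : ∀ d ∈ Icc 1 K, (∑ k ∈ Icc 1 K, if d ∣ k then (d : ℝ) ^ (-(1/2) : ℝ) else 0) ≤
      (1 / (d : ℝ) ^ (3 / 2 : ℝ)) * K := by
    intro d hd
    rw [mem_Icc] at hd
    have hd0 : (0 : ℝ) < d := by exact_mod_cast hd.1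
    rw [← Finset.sum_filter, Finset.sum_const, nsmul_eq_mul]
    have h0 : ((Icc 1 K).filter (fun k => d ∣ k)) = ((Ioc 0 K).filter (fun k => d ∣ k)) := by
      ext x
      simp only [mem_filter, mem_Icc, mem_Ioc]
      omega
    have h1 : (((Icc 1 K).filter (fun k => d ∣ k)).card : ℝ) ≤ (K : ℝ) / d := by
      rw [h0, Nat.Ioc_filter_dvd_card_eq_div]
      exact Nat.cast_div_le
    have h2 : (d : ℝ) ^ (3 / 2 : ℝ) = d * (d : ℝ) ^ (1 / 2 : ℝ) := by
      rw [show (3 / 2 : ℝ) = 1 + 1 / 2 by norm_num, Real.rpow_add hd0, Real.rpow_one]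
    have h3 : (0 : ℝ) < (d : ℝ) ^ (1 / 2 : ℝ) := Real.rpow_pos_of_pos hd0 _
    calc (((Icc 1 K).filter (fun k => d ∣ k)).card : ℝ) * (d : ℝ) ^ (-(1/2) : ℝ)
        ≤ (K : ℝ) / d * (d : ℝ) ^ (-(1/2) : ℝ) := by gcongr
      _ = (1 / (d : ℝ) ^ (3 / 2 : ℝ)) * K := by
        rw [h2, Real.rpow_neg hd0.le]
        field_simp
  refine (Finset.sum_le_sum hinner).trans ?_
  rw [← Finset.sum_mul]
  have h4 : ∑ d ∈ Icc 1 K, 1 / (d : ℝ) ^ (3 / 2 : ℝ) ≤ Z := hsum.sum_le_tsum _ (fun _ _ => by positivity)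
  refine mul_le_mul_of_nonneg_right (by linarith) (by positivity)

/-- the prime factors of `2 ^ p - 1` are `≡ 1` modulo `2 p` -/
lemma factor_form {p q : ℕ} (hp : p.Prime) (hp2 : p ≠ 2) (hq : q.Prime) (h : q ∣ 2 ^ p - 1) :
    ∃ k, 1 ≤ k ∧ q = 2 * k * p + 1 := by
  have : Fact q.Prime := ⟨hq⟩
  have : Fact p.Prime := ⟨hp⟩
  have hp1 : 1 ≤ 2 ^ p := Nat.one_le_two_pow
  have h1 : (2 : ZMod q) ^ p = 1 := by
    have h2 : ((2 ^ p - 1 : ℕ) : ZMod q) = 0 := (ZMod.natCast_eq_zero_iff _ _).2 h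
    rw [Nat.cast_sub hp1] at h2
    push_cast at h2
    exact sub_eq_zero.1 h2
  have h2 : (2 : ZMod q) ≠ 1 := by
    intro h3
    have h4 : (1 : ZMod q) = 0 := by linear_combination h3
    exact one_ne_zero h4
  have h3 : orderOf (2 : ZMod q) = p := orderOf_eq_prime h1 h2
  have h20 : (2 : ZMod q) ≠ 0 := by
    intro h4
    rw [h4, zero_pow hp.ne_zero] at h1
    exact zero_ne_one h1
  have h4 : p ∣ q - 1 := by
    rw [← h3]
    exact ZMod.orderOf_dvd_card_sub_one h20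
  have hq2 : q ≠ 2 := by
    intro h5
    apply h20
    have h6 := ZMod.natCast_self q
    rw [h5] at h6
    subst h5
    exact_mod_cast h6
  have hqo : Odd q := hq.odd_of_ne_two hq2
  have hpo : Odd p := hp.odd_of_ne_two hp2
  have h5 : 2 ∣ q - 1 := by
    obtain ⟨a, ha⟩ := hqo
    exact ⟨a, by omega⟩
  have h6 : 2 * p ∣ q - 1 := by
    apply Nat.Coprime.mul_dvd_of_dvd_of_dvd _ h5 h4
    exact (Nat.coprime_two_left).2 hpo
  obtain ⟨k, hk⟩ := h6
  have hq3 := hq.two_le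
  refine ⟨k, ?_, ?_⟩
  · rcases Nat.eq_zero_or_pos k with h7 | h7
    · subst h7
      omega
    · exact h7
  · have : 2 * k * p = 2 * p * k := by ring
    omega

/-- the odd primes `p ≤ N` for which `2 ^ p - 1` has a prime factor at most `δ p log p` -/
noncomputable def bad (δ : ℝ) (N : ℕ) : Finset ℕ :=
  open Classical in
  (Icc 1 N).filter (fun p => p.Prime ∧ p ≠ 2 ∧ ∃ q : ℕ, q.Prime ∧ q ∣ 2 ^ p - 1 ∧ (q : ℝ) ≤ δ * (p * Real.log p))

lemma bad_count : ∃ C : ℝ, 0 < C ∧ ∀ δ : ℝ, 0 < δ → ∀ N : ℕ, 2 ≤ N →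
    ((bad δ N).card : ℝ) ≤ C * δ * N / Real.log N := by
  classical
  obtain ⟨C1, hC1, h1⟩ := sum_GG
  obtain ⟨C2, hC2, h2⟩ := sieve_two'
  refine ⟨C2 * C1, by positivity, fun δ hδ N hN => ?_⟩
  have hN' : (2 : ℝ) ≤ N := by exact_mod_cast hN
  have hL : 0 < Real.log N := Real.log_pos (by linarith)
  set K := ⌊δ * Real.log N / 2⌋₊ with hK
  have hKle : (K : ℝ) ≤ δ * Real.log N / 2 := Nat.floor_le (by positivity)
  have hsub : bad δ N ⊆ (Icc 1 K).biUnion (fun k => (Icc 1 N).filter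
      (fun n => (1 * n + 0).Prime ∧ (2 * k * n + 1).Prime)) := by
    intro p hp
    unfold bad at hp
    obtain ⟨hpN, hpp, hp2, q, hq, hqd, hqle⟩ := mem_filter.1 hp
    rw [mem_Icc] at hpN
    obtain ⟨k, hk1, hk2⟩ := factor_form hpp hp2 hq hqd
    rw [mem_biUnion]
    refine ⟨k, ?_, ?_⟩
    · rw [mem_Icc]
      refine ⟨hk1, ?_⟩
      apply Nat.le_floor
      have hp0 : (0 : ℝ) < p := by exact_mod_cast hpp.pos
      have hlog : Real.log p ≤ Real.log N := Real.log_le_log hp0 (by exact_mod_cast hpN.2)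
      have h3 : 2 * (k : ℝ) * p ≤ q := by
        rw [hk2]; push_cast; linarith
      have h4 : 2 * (k : ℝ) * p ≤ δ * Real.log N * p := by
        calc 2 * (k : ℝ) * p ≤ δ * (p * Real.log p) := h3.trans hqle
          _ ≤ δ * (p * Real.log N) := by gcongr
          _ = _ := by ring
      have h5 := le_of_mul_le_mul_right h4 hp0
      linarith
    · rw [mem_filter, mem_Icc]
      refine ⟨hpN, by simpa using hpp, ?_⟩
      rw [← hk2]
      exact hq
  have hcard : ((bad δ N).card : ℝ) ≤ ∑ k ∈ Icc 1 K, C2 * GG (2 * k) ^ 2 * N / Real.log N ^ 2 := by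
    have h3 : ((bad δ N).card : ℝ) ≤ ∑ k ∈ Icc 1 K, ((((Icc 1 N).filter
        (fun n => (1 * n + 0).Prime ∧ (2 * k * n + 1).Prime)).card : ℕ) : ℝ) := by
      exact_mod_cast (card_le_card hsub).trans card_biUnion_le
    refine h3.trans (Finset.sum_le_sum fun k hk => ?_)
    rw [mem_Icc] at hk
    have h4 := h2 1 0 (2 * k) 1 N one_pos (by omega) (by simp) (by simp) (by omega) hN
    have h5 : 1 * (2 * k) * (((1 * 1 : ℕ) : ℤ) - ((2 * k * 0 : ℕ) : ℤ)).natAbs = 2 * k := by simp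
    rw [h5] at h4
    exact h4
  refine hcard.trans ?_
  have h6 : ∑ k ∈ Icc 1 K, C2 * GG (2 * k) ^ 2 * N / Real.log N ^ 2 =
      C2 * N / Real.log N ^ 2 * ∑ k ∈ Icc 1 K, GG (2 * k) ^ 2 := by
    rw [Finset.mul_sum]
    refine Finset.sum_congr rfl fun k _ => by ring
  rw [h6]
  calc C2 * N / Real.log N ^ 2 * ∑ k ∈ Icc 1 K, GG (2 * k) ^ 2
      ≤ C2 * N / Real.log N ^ 2 * (C1 * (δ * Real.log N / 2)) := by
        refine mul_le_mul_of_nonneg_left ((h1 K).trans ?_) (by positivity)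
        gcongr
    _ = C2 * C1 * δ * N / Real.log N / 2 := by field_simp
    _ ≤ C2 * C1 * δ * N / Real.log N := by
        have : 0 ≤ C2 * C1 * δ * N / Real.log N := by positivity
        linarith

/-- the logarithmic count of the bad primes -/
lemma bad_log : ∃ C : ℝ, 0 < C ∧ ∀ δ : ℝ, 0 < δ → ∀ n : ℕ, 2 ≤ n →
    ∑ p ∈ bad δ n, Real.log p / p ≤ C * δ * Real.log n := by
  classical
  obtain ⟨C, hC, h⟩ := bad_count
  have hl2 : 0 < Real.log 2 := Real.log_pos (by norm_num)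
  refine ⟨4 * C / Real.log 2, by positivity, fun δ hδ n hn => ?_⟩
  have hn' : (2 : ℝ) ≤ n := by exact_mod_cast hn
  set J := Nat.log 2 n with hJ
  have hJle : (J : ℝ) * Real.log 2 ≤ Real.log n := by
    have h1 : 2 ^ J ≤ n := Nat.pow_log_le_self 2 (by omega)
    have h2 : ((2 ^ J : ℕ) : ℝ) ≤ n := by exact_mod_cast h1
    have h3 := Real.log_le_log (by positivity) h2
    push_cast at h3
    rwa [Real.log_pow] at h3
  have hmaps : ∀ p ∈ bad δ n, Nat.log 2 p ∈ range (J + 1) := by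
    intro p hp
    unfold bad at hp
    obtain ⟨hpN, -⟩ := mem_filter.1 hp
    rw [mem_Icc] at hpN
    rw [mem_range]
    have := Nat.log_mono_right (b := 2) hpN.2
    omega
  rw [← Finset.sum_fiberwise_of_maps_to hmaps]
  have hterm : ∀ j ∈ range (J + 1), ∑ p ∈ (bad δ n).filter (fun p => Nat.log 2 p = j), Real.log p / p ≤
      2 * C * δ := by
    intro j _
    have hsub : (bad δ n).filter (fun p => Nat.log 2 p = j) ⊆ bad δ (2 ^ (j + 1)) := by
      intro p hp
      obtain ⟨hp1, hp2⟩ := mem_filter.1 hp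
      unfold bad at hp1 ⊢
      obtain ⟨hpN, hpp, hrest⟩ := mem_filter.1 hp1
      rw [mem_Icc] at hpN
      have hlt : p < 2 ^ (j + 1) := by
        have := Nat.lt_pow_succ_log_self (b := 2) (by norm_num) p
        rwa [hp2] at this
      rw [mem_filter, mem_Icc]
      exact ⟨⟨hpN.1, hlt.le⟩, hpp, hrest⟩
    have hle : ∀ p ∈ (bad δ n).filter (fun p => Nat.log 2 p = j),
        Real.log p / p ≤ ((j + 1 : ℕ) : ℝ) * Real.log 2 / 2 ^ j := by
      intro p hp
      obtain ⟨hp1, hp2⟩ := mem_filter.1 hp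
      unfold bad at hp1
      obtain ⟨hpN, hpp, -⟩ := mem_filter.1 hp1
      have hp0 : (0 : ℝ) < p := by exact_mod_cast hpp.pos
      have hlt : p < 2 ^ (j + 1) := by
        have := Nat.lt_pow_succ_log_self (b := 2) (by norm_num) p
        rwa [hp2] at this
      have hge : 2 ^ j ≤ p := by
        have := Nat.pow_log_le_self 2 (x := p) hpp.ne_zero
        rwa [hp2] at this
      have h1 : Real.log p ≤ ((j + 1 : ℕ) : ℝ) * Real.log 2 := by
        rw [← Real.log_pow]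
        exact Real.log_le_log hp0 (by exact_mod_cast hlt.le)
      have h2 : (2 : ℝ) ^ j ≤ p := by exact_mod_cast hge
      have h3 : 0 ≤ Real.log p := Real.log_natCast_nonneg p
      gcongr
    have hcnt := h δ hδ (2 ^ (j + 1)) (by
      calc 2 = 2 ^ 1 := by norm_num
        _ ≤ 2 ^ (j + 1) := Nat.pow_le_pow_right (by norm_num) (by omega))
    have hcard : ((((bad δ n).filter (fun p => Nat.log 2 p = j)).card : ℕ) : ℝ) ≤
        C * δ * ((2 ^ (j + 1) : ℕ) : ℝ) / Real.log ((2 ^ (j + 1) : ℕ) : ℝ) :=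
      le_trans (by exact_mod_cast card_le_card hsub) hcnt
    have hlog : Real.log ((2 ^ (j + 1) : ℕ) : ℝ) = ((j + 1 : ℕ) : ℝ) * Real.log 2 := by
      push_cast
      rw [Real.log_pow]
      push_cast
      ring
    rw [hlog] at hcard
    have hj0 : (0 : ℝ) < ((j + 1 : ℕ) : ℝ) := by positivity
    calc ∑ p ∈ (bad δ n).filter (fun p => Nat.log 2 p = j), Real.log p / p
        ≤ (((bad δ n).filter (fun p => Nat.log 2 p = j)).card : ℝ) * (((j + 1 : ℕ) : ℝ) * Real.log 2 / 2 ^ j) := by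
          have := Finset.sum_le_card_nsmul _ _ _ hle
          rwa [nsmul_eq_mul] at this
      _ ≤ (C * δ * ((2 ^ (j + 1) : ℕ) : ℝ) / (((j + 1 : ℕ) : ℝ) * Real.log 2)) *
          (((j + 1 : ℕ) : ℝ) * Real.log 2 / 2 ^ j) := by gcongr
      _ = 2 * C * δ := by
          push_cast
          have : (0 : ℝ) < 2 ^ j := by positivity
          field_simp
          ring
  calc ∑ j ∈ range (J + 1), ∑ p ∈ (bad δ n).filter (fun p => Nat.log 2 p = j), Real.log p / p
      ≤ ∑ j ∈ range (J + 1), 2 * C * δ := Finset.sum_le_sum hterm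
    _ = (J + 1) * (2 * C * δ) := by
        rw [Finset.sum_const, card_range, nsmul_eq_mul]
        push_cast
        ring
    _ ≤ (2 * (Real.log n / Real.log 2)) * (2 * C * δ) := by
        have h1 : (J : ℝ) ≤ Real.log n / Real.log 2 := by rwa [le_div_iff₀ hl2]
        have h2 : (1 : ℝ) ≤ Real.log n / Real.log 2 := by
          rw [le_div_iff₀ hl2, one_mul]
          exact Real.log_le_log (by norm_num) hn'
        gcongr
        linarith
    _ = 4 * C / Real.log 2 * δ * Real.log n := by ring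

end Pool.Agent.U310.Mers
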