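import Mathlib
import Pool.Agent.U310.Mers.Sieve
import Pool.Agent.U310.Mers.Law

set_option autoImplicit false
set_option linter.unusedSectionVars false

/-! # Assembly (helper310) -/

open MeasureTheory Filter Topology

namespace Pool.Agent.U310.Mers

open Pool.Agent.R528.RM

/-- the number of primes `p ≤ n` in `E` with `2 ^ p - 1 ∈ S` -/
noncomputable def M (S E : Set ℕ) (n : ℕ) : ℕ := {p | p ≤ n ∧ p.Prime ∧ p ∈ E ∧ 2 ^ p - 1 ∈ S}.ncard

open Classical in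
/-- `∑ log p / p` over the primes `p ≤ n` in `E` -/
noncomputable def L (E : Set ℕ) (n : ℕ) : ℝ :=
  ∑ p ∈ (Finset.Icc 1 n).filter (fun p => p.Prime ∧ p ∈ E), Real.log p / p

open Classical in
/-- the expected number -/
noncomputable def V (z : ℕ → ℕ) (E : Set ℕ) (n : ℕ) : ℝ :=
  ∑ p ∈ (Finset.Icc 1 n).filter (fun p => p.Prime ∧ p ∈ E ∧ Rough z (2 ^ p - 1)),
    W (z (2 ^ p - 1)) / (p * Real.log 2)

lemma sum_shift (P : ℕ → Prop) [DecidablePred P] (g : ℕ → ℝ) (n : ℕ) :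
    ∑ p ∈ (Finset.Icc 1 n).filter P, g p = ∑ m ∈ Finset.range n, if P (m + 1) then g (m + 1) else 0 := by
  induction n with
  | zero => simp
  | succ n ih =>
    rw [Finset.sum_range_succ, ← ih, Finset.sum_filter, Finset.sum_Icc_succ_top (by omega), ← Finset.sum_filter]

/-- the weight -/
noncomputable def w (E : Set ℕ) (m : ℕ) : ℝ :=
  open Classical in if (m + 1).Prime ∧ m + 1 ∈ E then 1 else 0

lemma w_nonneg (E : Set ℕ) (m : ℕ) : 0 ≤ w E m := by
  unfold w; split_ifs <;> norm_num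

lemma w_le (E : Set ℕ) (m : ℕ) : w E m ≤ 1 := by
  unfold w; split_ifs <;> norm_num

section
variable {Ω : Type} {A : ℕ → Set Ω}

lemma M_eq (E : Set ℕ) (ω : Ω) (n : ℕ) : (M {k : ℕ | ω ∈ A k} E n : ℝ) =
    ∑ m ∈ Finset.range n, w E m * (A (2 ^ (m + 1) - 1)).indicator (fun _ => (1 : ℝ)) ω := by
  classical
  have h0 : {p | p ≤ n ∧ p.Prime ∧ p ∈ E ∧ 2 ^ p - 1 ∈ {k : ℕ | ω ∈ A k}} =
      (((Finset.Icc 1 n).filter (fun p => p.Prime ∧ p ∈ E ∧ ω ∈ A (2 ^ p - 1)) : Finset ℕ) : Set ℕ) := by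
    ext p
    rw [Finset.mem_coe, Finset.mem_filter, Finset.mem_Icc]
    constructor
    · rintro ⟨h1, h2, h3, h4⟩
      exact ⟨⟨h2.one_lt.le, h1⟩, h2, h3, h4⟩
    · rintro ⟨⟨h0, h1⟩, h2, h3, h4⟩
      exact ⟨h1, h2, h3, h4⟩
  unfold M
  rw [h0, Set.ncard_coe_finset, Finset.card_eq_sum_ones]
  push_cast
  rw [sum_shift]
  refine Finset.sum_congr rfl fun m _ => ?_
  unfold w
  by_cases h1 : (m + 1).Prime ∧ m + 1 ∈ E
  · rw [if_pos h1, one_mul]
    by_cases h2 : ω ∈ A (2 ^ (m + 1) - 1)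
    · rw [if_pos ⟨h1.1, h1.2, h2⟩, Set.indicator_of_mem h2]
    · rw [if_neg (fun h => h2 h.2.2), Set.indicator_of_notMem h2]
  · rw [if_neg h1, if_neg (fun h => h1 ⟨h.1, h.2.1⟩), zero_mul]

end

/-- the terms of `V` -/
noncomputable def bt (z : ℕ → ℕ) (E : Set ℕ) (m : ℕ) : ℝ :=
  open Classical in
  if (m + 1).Prime ∧ m + 1 ∈ E ∧ Rough z (2 ^ (m + 1) - 1) then
    W (z (2 ^ (m + 1) - 1)) / (((m + 1 : ℕ) : ℝ) * Real.log 2) else 0

lemma V_eq (z : ℕ → ℕ) (E : Set ℕ) (n : ℕ) : V z E n = ∑ m ∈ Finset.range n, bt z E m := by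
  classical
  unfold V
  rw [sum_shift]
  rfl

/-- the terms of the logarithmic sum -/
noncomputable def gt (E : Set ℕ) (m : ℕ) : ℝ :=
  open Classical in
  if (m + 1).Prime ∧ m + 1 ∈ E then Real.log ((m + 1 : ℕ) : ℝ) / ((m + 1 : ℕ) : ℝ) else 0

lemma L_eq (E : Set ℕ) (n : ℕ) : L E n = ∑ m ∈ Finset.range n, gt E m := by
  classical
  unfold L
  rw [sum_shift]
  rfl

lemma bt_nonneg (z : ℕ → ℕ) (E : Set ℕ) (m : ℕ) : 0 ≤ bt z E m := by
  unfold bt
  have h1 : 0 ≤ W (z (2 ^ (m + 1) - 1)) := zero_le_one.trans (W_ge _)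
  have h2 : 0 ≤ Real.log 2 := Real.log_nonneg (by norm_num)
  split_ifs <;> positivity

lemma gt_nonneg (E : Set ℕ) (m : ℕ) : 0 ≤ gt E m := by
  unfold gt
  have h1 : 0 ≤ Real.log ((m + 1 : ℕ) : ℝ) := Real.log_natCast_nonneg _
  split_ifs <;> positivity

/-- the densities against the terms of `V` -/
lemma close_ab (z : ℕ → ℕ) (hV : ∀ᶠ n : ℕ in atTop, W (z n) / Real.log n < 1) (E : Set ℕ) :
    ∀ ε : ℝ, 0 < ε → ∀ᶠ m : ℕ in atTop,
      |w E m * rho1 z (2 ^ (m + 1) - 1) - bt z E m| ≤ ε * bt z E m := by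
  intro ε hε
  have h1 : Tendsto (fun p : ℕ => ((p : ℝ) * Real.log 2) / Real.log ((2 ^ p - 1 : ℕ) : ℝ)) atTop (𝓝 1) := by
    have h2 := log_mers.inv₀ one_ne_zero
    rw [inv_one] at h2
    refine h2.congr fun p => ?_
    rw [inv_div]
  have h2 := (Metric.tendsto_nhds.1 h1) ε hε
  have h3 := (tendsto_add_atTop_nat 1).eventually h2
  have h4 := (mers_tendsto.comp (tendsto_add_atTop_nat 1)).eventually hV
  filter_upwards [h3, h4, eventually_ge_atTop 2] with m hm1 hm2 hm3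
  simp only [Function.comp] at hm2
  unfold w bt rho1
  by_cases c1 : (m + 1).Prime ∧ m + 1 ∈ E
  · by_cases c2 : Rough z (2 ^ (m + 1) - 1)
    · rw [if_pos c1, if_pos c2, if_pos ⟨c1.1, c1.2, c2⟩, one_mul, min_eq_right hm2.le]
      have hW : 0 < W (z (2 ^ (m + 1) - 1)) := lt_of_lt_of_le one_pos (W_ge _)
      have hl2 : 0 < Real.log 2 := Real.log_pos (by norm_num)
      have hm0 : (0 : ℝ) < ((m + 1 : ℕ) : ℝ) := by positivity
      have hlog : 0 < Real.log ((2 ^ (m + 1) - 1 : ℕ) : ℝ) := by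
        apply Real.log_pos
        have : 2 ^ 3 ≤ 2 ^ (m + 1) := Nat.pow_le_pow_right (by norm_num) (by omega)
        have h5 : 1 < 2 ^ (m + 1) - 1 := by omega
        exact_mod_cast h5
      rw [Real.dist_eq] at hm1
      have e : W (z (2 ^ (m + 1) - 1)) / Real.log ((2 ^ (m + 1) - 1 : ℕ) : ℝ) -
          W (z (2 ^ (m + 1) - 1)) / (((m + 1 : ℕ) : ℝ) * Real.log 2) =
          ((((m + 1 : ℕ) : ℝ) * Real.log 2) / Real.log ((2 ^ (m + 1) - 1 : ℕ) : ℝ) - 1) *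
            (W (z (2 ^ (m + 1) - 1)) / (((m + 1 : ℕ) : ℝ) * Real.log 2)) := by
        field_simp
      rw [e, abs_mul, abs_of_pos (show 0 < W (z (2 ^ (m + 1) - 1)) / (((m + 1 : ℕ) : ℝ) * Real.log 2) by positivity)]
      exact mul_le_mul_of_nonneg_right hm1.le (by positivity)
    · have hn : ¬ ((m + 1).Prime ∧ m + 1 ∈ E ∧ Rough z (2 ^ (m + 1) - 1)) := fun h => c2 h.2.2
      rw [if_neg hn, if_neg c2]
      simp
  · have hn : ¬ ((m + 1).Prime ∧ m + 1 ∈ E ∧ Rough z (2 ^ (m + 1) - 1)) := fun h => c1 ⟨h.1, h.2.1⟩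
    rw [if_neg hn, if_neg c1]
    simp

section
variable {Ω : Type} {m0 : MeasurableSpace Ω} {μ : Measure Ω} [IsProbabilityMeasure μ]
  {ℱ : Filtration ℕ m0} {A : ℕ → Set Ω}

/-- the law when the expected number is unbounded -/
theorem law_inf (hA : ∀ n, MeasurableSet[ℱ n] (A n)) (z : ℕ → ℕ)
    (hV : ∀ᶠ n : ℕ in atTop, W (z n) / Real.log n < 1)
    (hd : ∀ᵐ ω ∂μ, ∀ ε : ℝ, 0 < ε → ∀ᶠ n : ℕ in atTop,
      |dens μ ℱ A n ω - rho1 z (n + 1)| ≤ ε * rho1 z (n + 1)) (E : Set ℕ)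
    (hE : Tendsto (V z E) atTop atTop) :
    ∀ᵐ ω ∂μ, Tendsto (fun n => (M {k : ℕ | ω ∈ A k} E n : ℝ) / V z E n) atTop (𝓝 1) := by
  have hB : Tendsto (fun x => ∑ m ∈ Finset.range x, bt z E m) atTop atTop := by
    refine hE.congr fun n => V_eq z E n
  have h1 := sum_ratio (bt_nonneg z E) (close_ab z hV E) hB
  have h2 : Tendsto (fun x => ∑ m ∈ Finset.range x, w E m * rho1 z (2 ^ (m + 1) - 1)) atTop atTop := by
    have h3 := h1.pos_mul_atTop one_pos hB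
    refine h3.congr' ?_
    filter_upwards [hB.eventually_gt_atTop 0] with x hx
    rw [div_mul_cancel₀ _ hx.ne']
  have h3 := inf_law (μ := μ) (ℱ := ℱ) hA (rho1 z) (rho1_bounds z) hd (w E) (w_nonneg E) (w_le E) h2
  filter_upwards [h3] with ω hω
  have h4 := hω.mul h1
  rw [mul_one] at h4
  refine h4.congr' ?_
  filter_upwards [h2.eventually_gt_atTop 0] with x hx
  rw [M_eq, V_eq]
  rw [div_mul_div_cancel₀ hx.ne']

/-- the law when the expected number is bounded -/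
theorem law_fin (hA : ∀ n, MeasurableSet[ℱ n] (A n)) (z : ℕ → ℕ)
    (hV : ∀ᶠ n : ℕ in atTop, W (z n) / Real.log n < 1)
    (hd : ∀ᵐ ω ∂μ, ∀ ε : ℝ, 0 < ε → ∀ᶠ n : ℕ in atTop,
      |dens μ ℱ A n ω - rho1 z (n + 1)| ≤ ε * rho1 z (n + 1)) (E : Set ℕ)
    (C : ℝ) (hE : ∀ n, V z E n ≤ C) :
    ∀ᵐ ω ∂μ, {p | p.Prime ∧ p ∈ E ∧ ω ∈ A (2 ^ p - 1)}.Finite := by
  classical
  obtain ⟨n0, hn0⟩ := eventually_atTop.1 (close_ab z hV E 1 one_pos)
  set a : ℕ → ℝ := fun m => w E m * rho1 z (2 ^ (m + 1) - 1) with ha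
  have ha0 : ∀ m, 0 ≤ a m := fun m => mul_nonneg (w_nonneg E m) (rho1_bounds z _).1
  set D : ℝ := ∑ m ∈ Finset.range n0, a m with hD
  have hsa : ∀ x : ℕ, ∑ m ∈ Finset.range x, a m ≤ 2 * C + D := by
    intro x
    have hle : ∀ m, a m ≤ 2 * bt z E m + (if m < n0 then a m else 0) := by
      intro m
      have := bt_nonneg z E m
      split_ifs with h
      · linarith
      · have := (abs_le.1 (hn0 m (by omega))).2
        simp only [ha]
        linarith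
    refine (Finset.sum_le_sum fun m _ => hle m).trans ?_
    rw [Finset.sum_add_distrib, ← Finset.mul_sum, ← V_eq]
    have h6 := hE x
    have h7 : ∑ m ∈ Finset.range x, (if m < n0 then a m else 0) ≤ D := by
      rw [← Finset.sum_filter, hD]
      refine Finset.sum_le_sum_of_subset_of_nonneg ?_ fun m _ _ => ha0 m
      intro m hm
      rw [Finset.mem_filter] at hm
      exact Finset.mem_range.2 hm.2
    linarith
  set T : Set ℕ := {k | ∃ p, p.Prime ∧ p ∈ E ∧ k = 2 ^ p - 1} with hT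
  have hsum : ∀ x : ℕ, ∑ n ∈ Finset.range x, T.indicator (rho1 z) (n + 1) ≤ 2 * C + D := by
    intro x
    refine le_trans ?_ (hsa x)
    have e1 : ∑ n ∈ Finset.range x, T.indicator (rho1 z) (n + 1) =
        ∑ k ∈ (Finset.Icc 1 x).filter (fun k => k ∈ T), rho1 z k := by
      rw [sum_shift]
      refine Finset.sum_congr rfl fun n _ => ?_
      by_cases h : n + 1 ∈ T
      · rw [Set.indicator_of_mem h, if_pos h]
      · rw [Set.indicator_of_notMem h, if_neg h]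
    have e2 : ∑ m ∈ Finset.range x, a m =
        ∑ p ∈ (Finset.Icc 1 x).filter (fun p => p.Prime ∧ p ∈ E), rho1 z (2 ^ p - 1) := by
      rw [sum_shift]
      refine Finset.sum_congr rfl fun n _ => ?_
      simp only [ha, w]
      split_ifs <;> simp
    rw [e1, e2]
    have hinj : ∀ p ∈ (Finset.Icc 1 x).filter (fun p => p.Prime ∧ p ∈ E),
        ∀ q ∈ (Finset.Icc 1 x).filter (fun p => p.Prime ∧ p ∈ E), 2 ^ p - 1 = 2 ^ q - 1 → p = q := by
      intro p _ q _ h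
      have h1 : 1 ≤ 2 ^ p := Nat.one_le_two_pow
      have h2 : 1 ≤ 2 ^ q := Nat.one_le_two_pow
      exact Nat.pow_right_injective (le_refl 2) (by
        show 2 ^ p = 2 ^ q
        omega)
    rw [← Finset.sum_image (f := rho1 z) (g := fun p => 2 ^ p - 1) (fun p hp q hq h => hinj p hp q hq h)]
    refine Finset.sum_le_sum_of_subset_of_nonneg ?_ fun m _ _ => (rho1_bounds z m).1
    intro k hk
    rw [Finset.mem_filter, Finset.mem_Icc] at hk
    obtain ⟨⟨hk1, hk2⟩, p, hp1, hp2, hp3⟩ := hk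
    rw [Finset.mem_image]
    refine ⟨p, ?_, hp3.symm⟩
    rw [Finset.mem_filter, Finset.mem_Icc]
    have h5 : p < 2 ^ p := Nat.lt_two_pow_self
    exact ⟨⟨hp1.one_lt.le, by omega⟩, hp1, hp2⟩
  have h := fin_law (μ := μ) (ℱ := ℱ) hA (rho1 z) (fun n => (rho1_bounds z n).1) hd T _ hsum
  filter_upwards [h] with ω hω
  obtain ⟨m1, hm1⟩ := eventually_atTop.1 hω
  refine (Set.finite_lt_nat (m1 + 1)).subset ?_
  rintro p ⟨hp1, hp2, hp3⟩
  by_contra hlt
  simp only [Set.mem_ofPred_eq, not_lt] at hlt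
  have h5 : p < 2 ^ p := Nat.lt_two_pow_self
  exact hm1 (2 ^ p - 1) (by omega) ⟨p, hp1, hp2, rfl⟩ hp3

end

end Pool.Agent.U310.Mers
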