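import Mathlib
import Pool.Agent.U310.Mers.Main

set_option autoImplicit false
set_option linter.unusedSectionVars false

/-! # The constant (helper310) -/

open MeasureTheory Filter Topology

namespace Pool.Agent.U310.Mers

open Pool.Agent.R528.RM

lemma logNat : Tendsto (fun n : ℕ => Real.log n) atTop atTop := Pool.Agent.H305R2.log_nat_tendsto

lemma loglogNat : Tendsto (fun n : ℕ => Real.log (Real.log n)) atTop atTop :=
  Real.tendsto_log_atTop.comp logNat

/-- `z → ∞` -/
lemma z_tendsto (z : ℕ → ℕ) (θ : ℝ) (hθ : 0 < θ)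
    (hz : Tendsto (fun m : ℕ => Real.log (z m) / Real.log (Real.log m)) atTop (𝓝 θ)) :
    Tendsto z atTop atTop := by
  have h1 : Tendsto (fun m : ℕ => Real.log (z m)) atTop atTop := by
    have h2 := hz.pos_mul_atTop hθ loglogNat
    refine h2.congr' ?_
    filter_upwards [loglogNat.eventually_gt_atTop 0] with m hm
    rw [div_mul_cancel₀ _ hm.ne']
  have h2 : Tendsto (fun m : ℕ => (z m : ℝ)) atTop atTop := by
    refine tendsto_atTop_mono (fun m => ?_) h1
    exact (Real.log_le_self (Nat.cast_nonneg _))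
  exact tendsto_natCast_atTop_iff.1 h2

/-- `W (z m) / log log m → θ e^γ` -/
lemma W_loglog (z : ℕ → ℕ) (θ : ℝ) (hθ : 0 < θ)
    (hz : Tendsto (fun m : ℕ => Real.log (z m) / Real.log (Real.log m)) atTop (𝓝 θ)) :
    Tendsto (fun m : ℕ => W (z m) / Real.log (Real.log m)) atTop
      (𝓝 (θ * Real.exp Real.eulerMascheroniConstant)) := by
  have h1 := Pool.Agent.H305R2.mertens_three.comp (z_tendsto z θ hθ hz)
  have h2 := hz.mul h1
  refine h2.congr' ?_
  have h3 : ∀ᶠ m : ℕ in atTop, 0 < Real.log (z m) := (logNat.comp (z_tendsto z θ hθ hz)).eventually_gt_atTop 0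
  filter_upwards [h3] with m hm
  show Real.log (z m) / Real.log (Real.log m) * (W (z m) / Real.log (z m)) = _
  field_simp

/-- the density tends to zero -/
lemma W_small (z : ℕ → ℕ) (θ : ℝ) (hθ : 0 < θ)
    (hz : Tendsto (fun m : ℕ => Real.log (z m) / Real.log (Real.log m)) atTop (𝓝 θ)) :
    ∀ᶠ n : ℕ in atTop, W (z n) / Real.log n < 1 := by
  have h1 := W_loglog z θ hθ hz
  have h2 : Tendsto (fun m : ℕ => Real.log (Real.log m) / Real.log m) atTop (𝓝 0) := by
    have h3 : Tendsto (fun x : ℝ => Real.log x / x) atTop (𝓝 0) :=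
      Real.isLittleO_log_id_atTop.tendsto_div_nhds_zero
    exact h3.comp logNat
  have h3 := h1.mul h2
  rw [mul_zero] at h3
  have h4 : ∀ᶠ m : ℕ in atTop, W (z m) / Real.log (Real.log m) * (Real.log (Real.log m) / Real.log m) < 1 :=
    h3.eventually (gt_mem_nhds one_pos)
  filter_upwards [h4, loglogNat.eventually_gt_atTop 0] with m hm hm2
  rwa [div_mul_div_cancel₀ hm2.ne'] at hm

/-- the terms of `V` against the terms of the logarithmic sum -/
lemma close_bg (z : ℕ → ℕ) (θ : ℝ) (hθ : 0 < θ)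
    (hz : Tendsto (fun m : ℕ => Real.log (z m) / Real.log (Real.log m)) atTop (𝓝 θ)) (E : Set ℕ) :
    ∀ ε : ℝ, 0 < ε → ∀ᶠ m : ℕ in atTop,
      |bt z E m - θ * Real.exp Real.eulerMascheroniConstant / Real.log 2 *
        gt (E ∩ {p | Rough z (2 ^ p - 1)}) m| ≤
      ε * (θ * Real.exp Real.eulerMascheroniConstant / Real.log 2 *
        gt (E ∩ {p | Rough z (2 ^ p - 1)}) m) := by
  intro ε hε
  set κ : ℝ := θ * Real.exp Real.eulerMascheroniConstant with hκ
  have hκ0 : 0 < κ := by positivity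
  have h1 : Tendsto (fun p : ℕ => W (z (2 ^ p - 1)) / Real.log p) atTop (𝓝 κ) := by
    have h2 := (W_loglog z θ hθ hz).comp mers_tendsto
    have h3 := h2.mul loglog_mers
    rw [mul_one] at h3
    refine h3.congr' ?_
    have h4 : ∀ᶠ p : ℕ in atTop, 0 < Real.log (Real.log ((2 ^ p - 1 : ℕ) : ℝ)) :=
      (loglogNat.comp mers_tendsto).eventually_gt_atTop 0
    filter_upwards [h4] with p hp
    show W (z (2 ^ p - 1)) / Real.log (Real.log ((2 ^ p - 1 : ℕ) : ℝ)) *
      (Real.log (Real.log ((2 ^ p - 1 : ℕ) : ℝ)) / Real.log p) = _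
    rw [div_mul_div_cancel₀ hp.ne']
  have h2 : Tendsto (fun p : ℕ => W (z (2 ^ p - 1)) / Real.log p / κ) atTop (𝓝 1) := by
    have := h1.div_const κ
    rwa [div_self hκ0.ne'] at this
  have h3 := (Metric.tendsto_nhds.1 h2) ε hε
  filter_upwards [(tendsto_add_atTop_nat 1).eventually h3, eventually_ge_atTop 2] with m hm hm2
  unfold bt gt
  by_cases c : (m + 1).Prime ∧ m + 1 ∈ E ∧ Rough z (2 ^ (m + 1) - 1)
  · have c' : (m + 1).Prime ∧ m + 1 ∈ E ∩ {p | Rough z (2 ^ p - 1)} := ⟨c.1, c.2.1, c.2.2⟩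
    rw [if_pos c, if_pos c']
    rw [Real.dist_eq] at hm
    have hl2 : 0 < Real.log 2 := Real.log_pos (by norm_num)
    have hm0 : (0 : ℝ) < ((m + 1 : ℕ) : ℝ) := by positivity
    have hlog : 0 < Real.log ((m + 1 : ℕ) : ℝ) := Real.log_pos (by exact_mod_cast (by omega : 1 < m + 1))
    have e : W (z (2 ^ (m + 1) - 1)) / (((m + 1 : ℕ) : ℝ) * Real.log 2) -
        κ / Real.log 2 * (Real.log ((m + 1 : ℕ) : ℝ) / ((m + 1 : ℕ) : ℝ)) =
        (W (z (2 ^ (m + 1) - 1)) / Real.log ((m + 1 : ℕ) : ℝ) / κ - 1) *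
          (κ / Real.log 2 * (Real.log ((m + 1 : ℕ) : ℝ) / ((m + 1 : ℕ) : ℝ))) := by
      field_simp
    rw [e, abs_mul, abs_of_pos (show 0 < κ / Real.log 2 * (Real.log ((m + 1 : ℕ) : ℝ) / ((m + 1 : ℕ) : ℝ)) by positivity)]
    exact mul_le_mul_of_nonneg_right hm.le (by positivity)
  · have c' : ¬ ((m + 1).Prime ∧ m + 1 ∈ E ∩ {p | Rough z (2 ^ p - 1)}) := fun h => c ⟨h.1, h.2.1, h.2.2⟩
    rw [if_neg c, if_neg c']
    simp

lemma L_mono (E : Set ℕ) : Monotone (L E) := by
  refine monotone_nat_of_le_succ fun n => ?_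
  rw [L_eq, L_eq, Finset.sum_range_succ]
  linarith [gt_nonneg E n]

section
variable {Ω : Type} {m0 : MeasurableSpace Ω} {μ : Measure Ω} [IsProbabilityMeasure μ]
  {ℱ : Filtration ℕ m0} {A : ℕ → Set Ω}

/-- **the transfer principle** -/
theorem transfer (hA : ∀ n, MeasurableSet[ℱ n] (A n)) (z : ℕ → ℕ) (θ : ℝ) (hθ : 0 < θ)
    (hz : Tendsto (fun m : ℕ => Real.log (z m) / Real.log (Real.log m)) atTop (𝓝 θ))
    (hd : ∀ᵐ ω ∂μ, ∀ ε : ℝ, 0 < ε → ∀ᶠ n : ℕ in atTop,
      |dens μ ℱ A n ω - rho1 z (n + 1)| ≤ ε * rho1 z (n + 1)) (E : Set ℕ) :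
    ∀ᵐ ω ∂μ, ∀ ℓ : ℝ, Tendsto (fun n => L (E ∩ {p | Rough z (2 ^ p - 1)}) n / Real.log n) atTop (𝓝 ℓ) ↔
      Tendsto (fun n => (M {k : ℕ | ω ∈ A k} E n : ℝ) / Real.log n) atTop
        (𝓝 (θ * Real.exp Real.eulerMascheroniConstant / Real.log 2 * ℓ)) := by
  have hl2 : 0 < Real.log 2 := Real.log_pos (by norm_num)
  set κ : ℝ := θ * Real.exp Real.eulerMascheroniConstant / Real.log 2 with hκ
  have hκ0 : 0 < κ := by positivity
  set R : Set ℕ := E ∩ {p | Rough z (2 ^ p - 1)} with hR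
  have hW := W_small z θ hθ hz
  have hcl := close_bg z θ hθ hz E
  have hLs : ∀ x, ∑ m ∈ Finset.range x, κ * gt R m = κ * L R x := by
    intro x
    rw [L_eq, Finset.mul_sum]
  rcases tendsto_of_monotone (L_mono R) with hinf | ⟨l, hl⟩
  · -- unbounded
    have hB : Tendsto (fun x => ∑ m ∈ Finset.range x, κ * gt R m) atTop atTop := by
      refine (hinf.const_mul_atTop hκ0).congr fun x => (hLs x).symm
    have h1 := sum_ratio (a := bt z E) (b := fun m => κ * gt R m)
      (fun m => mul_nonneg hκ0.le (gt_nonneg R m)) hcl hB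
    have hVinf : Tendsto (V z E) atTop atTop := by
      have h3 := h1.pos_mul_atTop one_pos hB
      refine h3.congr' ?_
      filter_upwards [hB.eventually_gt_atTop 0] with x hx
      rw [div_mul_cancel₀ _ hx.ne', V_eq]
    have h2 := law_inf (μ := μ) (ℱ := ℱ) hA z hW hd E hVinf
    filter_upwards [h2] with ω hω
    have h3 : Tendsto (fun n => (M {k : ℕ | ω ∈ A k} E n : ℝ) / (κ * L R n)) atTop (𝓝 1) := by
      have h4 := hω.mul h1
      rw [mul_one] at h4
      refine h4.congr' ?_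
      filter_upwards [hVinf.eventually_gt_atTop 0] with x hx
      rw [hLs, ← V_eq, div_mul_div_cancel₀ hx.ne']
    intro ℓ
    constructor
    · intro h5
      have h6 := h3.mul (h5.const_mul κ)
      rw [one_mul] at h6
      refine h6.congr' ?_
      filter_upwards [hinf.eventually_gt_atTop 0] with x hx
      field_simp
    · intro h5
      have h7 : Tendsto (fun n => ((M {k : ℕ | ω ∈ A k} E n : ℝ) / (κ * L R n))⁻¹) atTop (𝓝 1) := by
        have := h3.inv₀ one_ne_zero
        rwa [inv_one] at this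
      have h6 := (h7.mul h5).const_mul κ⁻¹
      rw [one_mul, inv_mul_cancel_left₀ hκ0.ne'] at h6
      refine h6.congr' ?_
      have h8 : ∀ᶠ n : ℕ in atTop, 0 < (M {k : ℕ | ω ∈ A k} E n : ℝ) / (κ * L R n) :=
        h3.eventually (lt_mem_nhds one_pos)
      filter_upwards [hinf.eventually_gt_atTop 0, h8] with x hx hx2
      have h9 : 0 < (M {k : ℕ | ω ∈ A k} E x : ℝ) := by
        rw [div_pos_iff_of_pos_right (by positivity)] at hx2
        exact hx2
      field_simp
  · -- bounded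
    have hLb : ∀ x, L R x ≤ l := fun x => (L_mono R).ge_of_tendsto hl x
    obtain ⟨n0, hn0⟩ := eventually_atTop.1 (hcl 1 one_pos)
    set D : ℝ := ∑ m ∈ Finset.range n0, bt z E m with hD
    have hVb : ∀ x, V z E x ≤ 2 * (κ * l) + D := by
      intro x
      rw [V_eq]
      have hle : ∀ m, bt z E m ≤ 2 * (κ * gt R m) + (if m < n0 then bt z E m else 0) := by
        intro m
        have := mul_nonneg hκ0.le (gt_nonneg R m)
        split_ifs with h
        · linarith
        · have := (abs_le.1 (hn0 m (by omega))).2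
          linarith
      refine (Finset.sum_le_sum fun m _ => hle m).trans ?_
      rw [Finset.sum_add_distrib, ← Finset.mul_sum, hLs]
      have h6 := mul_le_mul_of_nonneg_left (hLb x) hκ0.le
      have h7 : ∑ m ∈ Finset.range x, (if m < n0 then bt z E m else 0) ≤ D := by
        rw [← Finset.sum_filter, hD]
        refine Finset.sum_le_sum_of_subset_of_nonneg ?_ fun m _ _ => bt_nonneg z E m
        intro m hm
        rw [Finset.mem_filter] at hm
        exact Finset.mem_range.2 hm.2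
      linarith
    have h2 := law_fin (μ := μ) (ℱ := ℱ) hA z hW hd E _ hVb
    filter_upwards [h2] with ω hω
    have hM : ∀ n, (M {k : ℕ | ω ∈ A k} E n : ℝ) ≤ {p | p.Prime ∧ p ∈ E ∧ ω ∈ A (2 ^ p - 1)}.ncard := by
      intro n
      unfold M
      have : {p | p ≤ n ∧ p.Prime ∧ p ∈ E ∧ 2 ^ p - 1 ∈ {k : ℕ | ω ∈ A k}}.ncard ≤
          {p | p.Prime ∧ p ∈ E ∧ ω ∈ A (2 ^ p - 1)}.ncard :=
        Set.ncard_le_ncard (fun p hp => hp.2) hω
      exact_mod_cast this
    have h3 : Tendsto (fun n => (M {k : ℕ | ω ∈ A k} E n : ℝ) / Real.log n) atTop (𝓝 0) := by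
      have h4 : Tendsto (fun n : ℕ => ({p | p.Prime ∧ p ∈ E ∧ ω ∈ A (2 ^ p - 1)}.ncard : ℝ) / Real.log n) atTop (𝓝 0) :=
        logNat.const_div_atTop _
      refine squeeze_zero (fun n => div_nonneg (Nat.cast_nonneg _) (Real.log_natCast_nonneg n)) (fun n => ?_) h4
      exact div_le_div_of_nonneg_right (hM n) (Real.log_natCast_nonneg n)
    have h4 : Tendsto (fun n => L R n / Real.log n) atTop (𝓝 0) := hl.div_atTop logNat
    intro ℓ
    constructor
    · intro h5
      have := tendsto_nhds_unique h4 h5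
      rw [← this, mul_zero]
      exact h3
    · intro h5
      have h6 := tendsto_nhds_unique h3 h5
      have h7 : ℓ = 0 := by
        rcases mul_eq_zero.1 h6.symm with h8 | h8
        · exact absurd h8 hκ0.ne'
        · exact h8
      rw [h7]
      exact h4

end

/-- the rough Mersenne numbers have full logarithmic density -/
lemma rough_full (z : ℕ → ℕ)
    (hz0 : Tendsto (fun m : ℕ => (z m : ℝ) / (Real.log m * Real.log (Real.log m))) atTop (𝓝 0))
    (E : Set ℕ) (d : ℝ) (hE : Tendsto (fun n => L E n / Real.log n) atTop (𝓝 d)) :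
    Tendsto (fun n => L (E ∩ {p | Rough z (2 ^ p - 1)}) n / Real.log n) atTop (𝓝 d) := by
  classical
  obtain ⟨C, hC, hbad⟩ := bad_log
  have hdiff : Tendsto (fun n => (L E n - L (E ∩ {p | Rough z (2 ^ p - 1)}) n) / Real.log n) atTop (𝓝 0) := by
    rw [Metric.tendsto_nhds]
    intro ε hε
    set δ : ℝ := ε / (2 * C) with hδ
    have hδ0 : 0 < δ := by positivity
    have h1 : ∀ᶠ m : ℕ in atTop, (z m : ℝ) / (Real.log m * Real.log (Real.log m)) < δ :=
      hz0.eventually (gt_mem_nhds hδ0)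
    have h2 : ∀ᶠ p : ℕ in atTop, (z (2 ^ p - 1) : ℝ) ≤ δ * (p * Real.log p) := by
      filter_upwards [mers_tendsto.eventually h1,
        (loglogNat.comp mers_tendsto).eventually_gt_atTop 0, (logNat.comp mers_tendsto).eventually_gt_atTop 0,
        eventually_ge_atTop 2] with p hp1 hp2 hp3 hp4
      simp only [Function.comp] at hp2 hp3
      have hp0 : (0 : ℝ) < p := by exact_mod_cast (by omega : 0 < p)
      rw [div_lt_iff₀ (by positivity)] at hp1
      have hup : Real.log ((2 ^ p - 1 : ℕ) : ℝ) ≤ p := by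
        have h6 : (0 : ℝ) < ((2 ^ p - 1 : ℕ) : ℝ) := by
          by_contra hneg
          have h8 : ((2 ^ p - 1 : ℕ) : ℝ) = 0 := le_antisymm (not_lt.1 hneg) (Nat.cast_nonneg _)
          rw [h8, Real.log_zero] at hp3
          exact lt_irrefl _ hp3
        have h5 : Real.log ((2 ^ p - 1 : ℕ) : ℝ) ≤ Real.log ((2 ^ p : ℕ) : ℝ) :=
          Real.log_le_log h6 (by exact_mod_cast Nat.sub_le _ _)
        push_cast at h5
        rw [Real.log_pow] at h5
        have h7 : Real.log 2 ≤ 1 := by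
          have := Real.log_two_lt_d9
          linarith
        nlinarith
      have hup2 : Real.log (Real.log ((2 ^ p - 1 : ℕ) : ℝ)) ≤ Real.log p := Real.log_le_log hp3 hup
      calc (z (2 ^ p - 1) : ℝ) ≤ δ * (Real.log ((2 ^ p - 1 : ℕ) : ℝ) * Real.log (Real.log ((2 ^ p - 1 : ℕ) : ℝ))) := hp1.le
        _ ≤ δ * (p * Real.log p) := by gcongr
    obtain ⟨p0, hp0⟩ := eventually_atTop.1 h2
    set D : ℝ := ∑ p ∈ Finset.Icc 1 (p0 + 2), Real.log p / p with hD
    have hDn : Tendsto (fun n : ℕ => D / Real.log n) atTop (𝓝 0) := logNat.const_div_atTop _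
    have h3 : ∀ᶠ n : ℕ in atTop, D / Real.log n < ε / 2 := hDn.eventually (gt_mem_nhds (by positivity))
    filter_upwards [h3, eventually_ge_atTop 3] with n hn hn2
    have hLn : 0 < Real.log (n : ℝ) := Real.log_pos (by exact_mod_cast (by omega : 1 < n))
    set X := (Finset.Icc 1 n).filter (fun p => p.Prime ∧ p ∈ E) with hX
    set Y := (Finset.Icc 1 n).filter (fun p => p.Prime ∧ p ∈ E ∩ {p | Rough z (2 ^ p - 1)}) with hY
    have hYX : Y ⊆ X := by
      intro p hp
      rw [hY, Finset.mem_filter] at hp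
      rw [hX, Finset.mem_filter]
      exact ⟨hp.1, hp.2.1, hp.2.2.1⟩
    have e1 : L E n - L (E ∩ {p | Rough z (2 ^ p - 1)}) n = ∑ p ∈ X \ Y, Real.log p / p := by
      have hLX : L E n = ∑ p ∈ X, Real.log p / p := by
        unfold L
        refine Finset.sum_congr ?_ fun _ _ => rfl
        ext p
        simp only [hX, Finset.mem_filter]
      have hLY : L (E ∩ {p | Rough z (2 ^ p - 1)}) n = ∑ p ∈ Y, Real.log p / p := by
        unfold L
        refine Finset.sum_congr ?_ fun _ _ => rfl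
        ext p
        simp only [hY, Finset.mem_filter]
      rw [hLX, hLY, ← Finset.sum_sdiff hYX]
      ring
    have hterm0 : ∀ p : ℕ, 0 ≤ Real.log p / p := fun p => div_nonneg (Real.log_natCast_nonneg p) (Nat.cast_nonneg _)
    have hsub : X \ Y ⊆ bad δ n ∪ Finset.Icc 1 (p0 + 2) := by
      intro p hp
      rw [Finset.mem_sdiff, hX, hY, Finset.mem_filter, Finset.mem_filter] at hp
      obtain ⟨⟨hp1, hp2, hp3⟩, hp4⟩ := hp
      rw [Finset.mem_union]
      by_cases hple : p ≤ p0 + 2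
      · right
        rw [Finset.mem_Icc] at hp1 ⊢
        exact ⟨hp1.1, hple⟩
      · left
        have hnr : ¬ Rough z (2 ^ p - 1) := fun h => hp4 ⟨hp1, hp2, hp3, h⟩
        unfold Rough at hnr
        push Not at hnr
        obtain ⟨q, hq1, hq2, hq3⟩ := hnr
        unfold bad
        rw [Finset.mem_filter]
        refine ⟨hp1, hp2, by omega, q, hq1, hq3, ?_⟩
        have := hp0 p (by omega)
        have h6 : (q : ℝ) ≤ z (2 ^ p - 1) := by exact_mod_cast hq2
        linarith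
    have e2 : ∑ p ∈ X \ Y, Real.log p / p ≤ C * δ * Real.log n + D := by
      calc ∑ p ∈ X \ Y, Real.log p / p ≤ ∑ p ∈ bad δ n ∪ Finset.Icc 1 (p0 + 2), Real.log p / p :=
            Finset.sum_le_sum_of_subset_of_nonneg hsub fun p _ _ => hterm0 p
        _ ≤ ∑ p ∈ bad δ n, Real.log p / p + D := by
            rw [← Finset.sum_union_inter]
            have : 0 ≤ ∑ p ∈ bad δ n ∩ Finset.Icc 1 (p0 + 2), Real.log p / p :=
              Finset.sum_nonneg fun p _ => hterm0 p
            linarith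
        _ ≤ C * δ * Real.log n + D := by
            have := hbad δ hδ0 n (by omega)
            linarith
    have e3 : 0 ≤ ∑ p ∈ X \ Y, Real.log p / p := Finset.sum_nonneg fun p _ => hterm0 p
    rw [Real.dist_eq, sub_zero, e1, abs_of_nonneg (div_nonneg e3 hLn.le)]
    calc (∑ p ∈ X \ Y, Real.log p / p) / Real.log n ≤ (C * δ * Real.log n + D) / Real.log n := by gcongr
      _ = C * δ + D / Real.log n := by field_simp
      _ = ε / 2 + D / Real.log n := by rw [hδ]; field_simp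
      _ < ε := by linarith
  have h5 := hE.sub hdiff
  rw [sub_zero] at h5
  refine h5.congr fun n => ?_
  ring

/-- all primes -/
lemma L_univ : Tendsto (fun n => L Set.univ n / Real.log n) atTop (𝓝 1) := by
  classical
  refine Pool.Agent.H305R2.mertens_ratio.congr fun n => ?_
  unfold L
  congr 1
  refine Finset.sum_congr ?_ fun _ _ => rfl
  ext p
  simp

/-- almost all Mersenne numbers have no small prime factor -/
theorem almost_all (g : ℕ → ℝ) (hg : Tendsto g atTop (𝓝 0)) :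
    Tendsto (fun n : ℕ => ({p : ℕ | p ≤ n ∧ p.Prime ∧ ∃ q : ℕ, q.Prime ∧ q ∣ 2 ^ p - 1 ∧
      (q : ℝ) ≤ g p * (p * Real.log p)}.ncard : ℝ) / (n / Real.log n)) atTop (𝓝 0) := by
  classical
  obtain ⟨C, hC, hbad⟩ := bad_count
  rw [Metric.tendsto_nhds]
  intro ε hε
  set δ : ℝ := ε / (2 * C) with hδ
  have hδ0 : 0 < δ := by positivity
  have h1 : ∀ᶠ p : ℕ in atTop, g p < δ := hg.eventually (gt_mem_nhds hδ0)
  obtain ⟨p0, hp0⟩ := eventually_atTop.1 h1
  have h2 : Tendsto (fun n : ℕ => ((p0 + 2 : ℕ) : ℝ) * (Real.log n / n)) atTop (𝓝 0) := by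
    have h3 : Tendsto (fun x : ℝ => Real.log x / x) atTop (𝓝 0) :=
      Real.isLittleO_log_id_atTop.tendsto_div_nhds_zero
    have h4 := (h3.comp tendsto_natCast_atTop_atTop).const_mul ((p0 + 2 : ℕ) : ℝ)
    rwa [mul_zero] at h4
  have h3 : ∀ᶠ n : ℕ in atTop, ((p0 + 2 : ℕ) : ℝ) * (Real.log n / n) < ε / 2 :=
    h2.eventually (gt_mem_nhds (by positivity))
  filter_upwards [h3, eventually_ge_atTop 3] with n hn hn2
  have hn0 : (0 : ℝ) < n := by exact_mod_cast (by omega : 0 < n)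
  have hLn : 0 < Real.log (n : ℝ) := Real.log_pos (by exact_mod_cast (by omega : 1 < n))
  have hsub : {p : ℕ | p ≤ n ∧ p.Prime ∧ ∃ q : ℕ, q.Prime ∧ q ∣ 2 ^ p - 1 ∧
      (q : ℝ) ≤ g p * (p * Real.log p)} ⊆ ((bad δ n ∪ Finset.Icc 1 (p0 + 2) : Finset ℕ) : Set ℕ) := by
    rintro p ⟨hp1, hp2, q, hq1, hq2, hq3⟩
    rw [Finset.mem_coe, Finset.mem_union]
    by_cases hple : p ≤ p0 + 2
    · right
      rw [Finset.mem_Icc]
      exact ⟨hp2.one_lt.le, hple⟩
    · left
      unfold bad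
      rw [Finset.mem_filter, Finset.mem_Icc]
      refine ⟨⟨hp2.one_lt.le, hp1⟩, hp2, by omega, q, hq1, hq2, hq3.trans ?_⟩
      have := (hp0 p (by omega)).le
      have h5 : 0 ≤ (p : ℝ) * Real.log p := mul_nonneg (Nat.cast_nonneg _) (Real.log_natCast_nonneg p)
      exact mul_le_mul_of_nonneg_right this h5
  have hcard : (({p : ℕ | p ≤ n ∧ p.Prime ∧ ∃ q : ℕ, q.Prime ∧ q ∣ 2 ^ p - 1 ∧
      (q : ℝ) ≤ g p * (p * Real.log p)}.ncard : ℕ) : ℝ) ≤ C * δ * n / Real.log n + ((p0 + 2 : ℕ) : ℝ) := by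
    have h4 := (Set.ncard_le_ncard hsub (Finset.finite_toSet _))
    rw [Set.ncard_coe_finset] at h4
    have h5 := h4.trans (Finset.card_union_le _ _)
    rw [Nat.card_Icc] at h5
    have h6 := hbad δ hδ0 n (by omega)
    have h7 : (({p : ℕ | p ≤ n ∧ p.Prime ∧ ∃ q : ℕ, q.Prime ∧ q ∣ 2 ^ p - 1 ∧
      (q : ℝ) ≤ g p * (p * Real.log p)}.ncard : ℕ) : ℝ) ≤ ((bad δ n).card : ℝ) + ((p0 + 2 : ℕ) : ℝ) := by
      exact_mod_cast (by simpa using h5)
    linarith
  rw [Real.dist_eq, sub_zero, abs_of_nonneg (by positivity)]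
  calc (({p : ℕ | p ≤ n ∧ p.Prime ∧ ∃ q : ℕ, q.Prime ∧ q ∣ 2 ^ p - 1 ∧
      (q : ℝ) ≤ g p * (p * Real.log p)}.ncard : ℕ) : ℝ) / (n / Real.log n)
      ≤ (C * δ * n / Real.log n + ((p0 + 2 : ℕ) : ℝ)) / (n / Real.log n) := by gcongr
    _ = C * δ + ((p0 + 2 : ℕ) : ℝ) * (Real.log n / n) := by field_simp
    _ = ε / 2 + ((p0 + 2 : ℕ) : ℝ) * (Real.log n / n) := by rw [hδ]; field_simp
    _ < ε := by linarith

end Pool.Agent.U310.Mers
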