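import Mathlib
import Pool.Agent.U310.Mers.Sieve

set_option autoImplicit false

/-! # Primes `p` with a prime `2 k p ± 1`, `k = o(log p)`, are rare (helper310) -/

namespace Pool.Agent.U310.Mers

open Finset Filter Topology
open Pool.Agent.Erdos456 (GG GG_nonneg GG_mul_le GG_sq_le sieve_two')

/-- the primes `p ≤ N` for which there is a prime `2 k p ± 1`, `k ≥ 1`, `2 k p - 1 ≤ δ p log p` -/
noncomputable def pbad (δ : ℝ) (N : ℕ) : Finset ℕ :=
  open Classical in
  (Icc 1 N).filter (fun p => p.Prime ∧ ∃ k : ℕ, 1 ≤ k ∧ ((2 * k * p + 1).Prime ∨ (2 * k * p - 1).Prime) ∧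
    (2 * (k : ℝ) * p - 1) ≤ δ * (p * Real.log p))

lemma pbad_count : ∃ C : ℝ, 0 < C ∧ ∀ δ : ℝ, 0 < δ → ∀ N : ℕ, 2 ≤ N →
    ((pbad δ N).card : ℝ) ≤ C * δ * N / Real.log N := by
  classical
  obtain ⟨C1, hC1, h1⟩ := sum_GG
  obtain ⟨C2, hC2, h2⟩ := sieve_two'
  refine ⟨2 * C2 * C1, by positivity, fun δ hδ N hN => ?_⟩
  have hN' : (2 : ℝ) ≤ N := by exact_mod_cast hN
  have hL : 0 < Real.log N := Real.log_pos (by linarith)
  set K := ⌊δ * Real.log N⌋₊ with hK
  have hKle : (K : ℝ) ≤ δ * Real.log N := Nat.floor_le (by positivity)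
  have hsub : pbad δ N ⊆ (Icc 1 K).biUnion (fun k => ((Icc 1 N).filter
      (fun n => (1 * n + 0).Prime ∧ (2 * k * n + 1).Prime)) ∪
      ((Icc 1 N).filter (fun n => (1 * n + 1).Prime ∧ (2 * k * n + (2 * k - 1)).Prime)).image (fun n => n + 1)) := by
    intro p hp
    unfold pbad at hp
    obtain ⟨hpN, hpp, k, hk1, hk2, hk3⟩ := mem_filter.1 hp
    rw [mem_Icc] at hpN
    rw [mem_biUnion]
    have hp2 := hpp.two_le
    refine ⟨k, ?_, ?_⟩
    · rw [mem_Icc]
      refine ⟨hk1, ?_⟩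
      apply Nat.le_floor
      have hp0 : (0 : ℝ) < p := by exact_mod_cast hpp.pos
      have hlog : Real.log p ≤ Real.log N := Real.log_le_log hp0 (by exact_mod_cast hpN.2)
      have hkp : (1 : ℝ) ≤ (k : ℝ) * p := by exact_mod_cast Nat.mul_pos (by omega) hpp.pos
      have h4 : (k : ℝ) * p ≤ δ * Real.log N * p := by
        calc (k : ℝ) * p ≤ 2 * (k : ℝ) * p - 1 := by linarith
          _ ≤ δ * (p * Real.log p) := hk3
          _ ≤ δ * (p * Real.log N) := by gcongr
          _ = _ := by ring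
      exact le_of_mul_le_mul_right h4 hp0
    · rw [mem_union]
      rcases hk2 with hk2 | hk2
      · left
        rw [mem_filter, mem_Icc]
        exact ⟨hpN, by simpa using hpp, hk2⟩
      · right
        rw [mem_image]
        refine ⟨p - 1, ?_, by omega⟩
        rw [mem_filter, mem_Icc]
        refine ⟨⟨by omega, by omega⟩, ?_, ?_⟩
        · rw [show 1 * (p - 1) + 1 = p by omega]
          exact hpp
        · have h5 : 2 * k * (p - 1) + (2 * k - 1) = 2 * k * p - 1 := by
            obtain ⟨a, rfl⟩ : ∃ a, p = a + 1 := ⟨p - 1, by omega⟩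
            have : 2 * k * (a + 1) = 2 * k * a + 2 * k := by ring
            rw [this]
            simp only [Nat.add_sub_cancel]
            omega
          rw [h5]
          exact hk2
  have hcard : ((pbad δ N).card : ℝ) ≤ ∑ k ∈ Icc 1 K, 2 * (C2 * GG (2 * k) ^ 2 * N / Real.log N ^ 2) := by
    have h3 : ((pbad δ N).card : ℝ) ≤ ∑ k ∈ Icc 1 K, (((((Icc 1 N).filter
        (fun n => (1 * n + 0).Prime ∧ (2 * k * n + 1).Prime)) ∪
        ((Icc 1 N).filter (fun n => (1 * n + 1).Prime ∧ (2 * k * n + (2 * k - 1)).Prime)).image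
          (fun n => n + 1)).card : ℕ) : ℝ) := by
      exact_mod_cast (card_le_card hsub).trans card_biUnion_le
    refine h3.trans (Finset.sum_le_sum fun k hk => ?_)
    rw [mem_Icc] at hk
    have h4 := h2 1 0 (2 * k) 1 N one_pos (by omega) (by simp) (by simp) (by omega) hN
    have h5 : 1 * (2 * k) * (((1 * 1 : ℕ) : ℤ) - ((2 * k * 0 : ℕ) : ℤ)).natAbs = 2 * k := by simp
    rw [h5] at h4
    have hcop : Nat.Coprime (2 * k) (2 * k - 1) := by
      have : Nat.Coprime (2 * k - 1 + 1) (2 * k - 1) := by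
        rw [Nat.coprime_self_add_left]
        exact Nat.coprime_one_left _
      rwa [show 2 * k - 1 + 1 = 2 * k by omega] at this
    have h6 := h2 1 1 (2 * k) (2 * k - 1) N one_pos (by omega) (by simp) hcop (by omega) hN
    have h7 : 1 * (2 * k) * (((1 * (2 * k - 1) : ℕ) : ℤ) - ((2 * k * 1 : ℕ) : ℤ)).natAbs = 2 * k := by
      have : (((1 * (2 * k - 1) : ℕ) : ℤ) - ((2 * k * 1 : ℕ) : ℤ)).natAbs = 1 := by omega
      rw [this]
      ring
    rw [h7] at h6
    have h8 := card_union_le ((Icc 1 N).filter (fun n => (1 * n + 0).Prime ∧ (2 * k * n + 1).Prime))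
      (((Icc 1 N).filter (fun n => (1 * n + 1).Prime ∧ (2 * k * n + (2 * k - 1)).Prime)).image (fun n => n + 1))
    have h9 : (((Icc 1 N).filter (fun n => (1 * n + 1).Prime ∧ (2 * k * n + (2 * k - 1)).Prime)).image
        (fun n => n + 1)).card ≤ _ := card_image_le
    have h10 : (((((Icc 1 N).filter (fun n => (1 * n + 0).Prime ∧ (2 * k * n + 1).Prime)) ∪
        ((Icc 1 N).filter (fun n => (1 * n + 1).Prime ∧ (2 * k * n + (2 * k - 1)).Prime)).image
          (fun n => n + 1)).card : ℕ) : ℝ) ≤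
        (((Icc 1 N).filter (fun n => (1 * n + 0).Prime ∧ (2 * k * n + 1).Prime)).card : ℝ) +
        (((Icc 1 N).filter (fun n => (1 * n + 1).Prime ∧ (2 * k * n + (2 * k - 1)).Prime)).card : ℝ) := by
      exact_mod_cast h8.trans (Nat.add_le_add_left h9 _)
    linarith
  refine hcard.trans ?_
  have h6 : ∑ k ∈ Icc 1 K, 2 * (C2 * GG (2 * k) ^ 2 * N / Real.log N ^ 2) =
      2 * C2 * N / Real.log N ^ 2 * ∑ k ∈ Icc 1 K, GG (2 * k) ^ 2 := by
    rw [Finset.mul_sum]
    refine Finset.sum_congr rfl fun k _ => by ring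
  rw [h6]
  calc 2 * C2 * N / Real.log N ^ 2 * ∑ k ∈ Icc 1 K, GG (2 * k) ^ 2
      ≤ 2 * C2 * N / Real.log N ^ 2 * (C1 * (δ * Real.log N)) := by
        refine mul_le_mul_of_nonneg_left ((h1 K).trans ?_) (by positivity)
        gcongr
    _ = 2 * C2 * C1 * δ * N / Real.log N := by field_simp

/-- the logarithmic count of these primes -/
lemma pbad_log : ∃ C : ℝ, 0 < C ∧ ∀ δ : ℝ, 0 < δ → ∀ n : ℕ, 2 ≤ n →
    ∑ p ∈ pbad δ n, Real.log p / p ≤ C * δ * Real.log n := by
  classical
  obtain ⟨C, hC, h⟩ := pbad_count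
  have hl2 : 0 < Real.log 2 := Real.log_pos (by norm_num)
  refine ⟨4 * C / Real.log 2, by positivity, fun δ hδ n hn => ?_⟩
  have hn' : (2 : ℝ) ≤ n := by exact_mod_cast hn
  set J := Nat.log 2 n with hJ
  have hJle : (J : ℝ) * Real.log 2 ≤ Real.log n := by
    have h1 : 2 ^ J ≤ n := Nat.pow_log_le_self 2 (by omega)
    have h2 : ((2 ^ J : ℕ) : ℝ) ≤ n := by exact_mod_cast h1
    have h3 := Real.log_le_log (by positivity) h2
    push_cast at h3
    rwa [Real.log_pow] at h3
  have hmaps : ∀ p ∈ pbad δ n, Nat.log 2 p ∈ range (J + 1) := by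
    intro p hp
    unfold pbad at hp
    obtain ⟨hpN, -⟩ := mem_filter.1 hp
    rw [mem_Icc] at hpN
    rw [mem_range]
    have := Nat.log_mono_right (b := 2) hpN.2
    omega
  rw [← Finset.sum_fiberwise_of_maps_to hmaps]
  have hterm : ∀ j ∈ range (J + 1), ∑ p ∈ (pbad δ n).filter (fun p => Nat.log 2 p = j), Real.log p / p ≤
      2 * C * δ := by
    intro j _
    have hsub : (pbad δ n).filter (fun p => Nat.log 2 p = j) ⊆ pbad δ (2 ^ (j + 1)) := by
      intro p hp
      obtain ⟨hp1, hp2⟩ := mem_filter.1 hp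
      unfold pbad at hp1 ⊢
      obtain ⟨hpN, hpp, hrest⟩ := mem_filter.1 hp1
      rw [mem_Icc] at hpN
      have hlt : p < 2 ^ (j + 1) := by
        have := Nat.lt_pow_succ_log_self (b := 2) (by norm_num) p
        rwa [hp2] at this
      rw [mem_filter, mem_Icc]
      exact ⟨⟨hpN.1, hlt.le⟩, hpp, hrest⟩
    have hle : ∀ p ∈ (pbad δ n).filter (fun p => Nat.log 2 p = j),
        Real.log p / p ≤ ((j + 1 : ℕ) : ℝ) * Real.log 2 / 2 ^ j := by
      intro p hp
      obtain ⟨hp1, hp2⟩ := mem_filter.1 hp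
      unfold pbad at hp1
      obtain ⟨hpN, hpp, -⟩ := mem_filter.1 hp1
      have hp0 : (0 : ℝ) < p := by exact_mod_cast hpp.pos
      have hlt : p < 2 ^ (j + 1) := by
        have := Nat.lt_pow_succ_log_self (b := 2) (by norm_num) p
        rwa [hp2] at this
      have hge : 2 ^ j ≤ p := by
        have := Nat.pow_log_le_self 2 (x := p) hpp.ne_zero
        rwa [hp2] at this
      have h1 : Real.log p ≤ ((j + 1 : ℕ) : ℝ) * Real.log 2 := by
        rw [← Real.log_pow]
        exact Real.log_le_log hp0 (by exact_mod_cast hlt.le)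
      have h2 : (2 : ℝ) ^ j ≤ p := by exact_mod_cast hge
      have h3 : 0 ≤ Real.log p := Real.log_natCast_nonneg p
      gcongr
    have hcnt := h δ hδ (2 ^ (j + 1)) (by
      calc 2 = 2 ^ 1 := by norm_num
        _ ≤ 2 ^ (j + 1) := Nat.pow_le_pow_right (by norm_num) (by omega))
    have hcard : ((((pbad δ n).filter (fun p => Nat.log 2 p = j)).card : ℕ) : ℝ) ≤
        C * δ * ((2 ^ (j + 1) : ℕ) : ℝ) / Real.log ((2 ^ (j + 1) : ℕ) : ℝ) :=
      le_trans (by exact_mod_cast card_le_card hsub) hcnt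
    have hlog : Real.log ((2 ^ (j + 1) : ℕ) : ℝ) = ((j + 1 : ℕ) : ℝ) * Real.log 2 := by
      push_cast
      rw [Real.log_pow]
      push_cast
      ring
    rw [hlog] at hcard
    have hj0 : (0 : ℝ) < ((j + 1 : ℕ) : ℝ) := by positivity
    calc ∑ p ∈ (pbad δ n).filter (fun p => Nat.log 2 p = j), Real.log p / p
        ≤ (((pbad δ n).filter (fun p => Nat.log 2 p = j)).card : ℝ) * (((j + 1 : ℕ) : ℝ) * Real.log 2 / 2 ^ j) := by
          have := Finset.sum_le_card_nsmul _ _ _ hle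
          rwa [nsmul_eq_mul] at this
      _ ≤ (C * δ * ((2 ^ (j + 1) : ℕ) : ℝ) / (((j + 1 : ℕ) : ℝ) * Real.log 2)) *
          (((j + 1 : ℕ) : ℝ) * Real.log 2 / 2 ^ j) := by gcongr
      _ = 2 * C * δ := by
          push_cast
          have : (0 : ℝ) < 2 ^ j := by positivity
          field_simp
          ring
  calc ∑ j ∈ range (J + 1), ∑ p ∈ (pbad δ n).filter (fun p => Nat.log 2 p = j), Real.log p / p
      ≤ ∑ j ∈ range (J + 1), 2 * C * δ := Finset.sum_le_sum hterm
    _ = (J + 1) * (2 * C * δ) := by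
        rw [Finset.sum_const, card_range, nsmul_eq_mul]
        push_cast
        ring
    _ ≤ (2 * (Real.log n / Real.log 2)) * (2 * C * δ) := by
        have h1 : (J : ℝ) ≤ Real.log n / Real.log 2 := by rwa [le_div_iff₀ hl2]
        have h2 : (1 : ℝ) ≤ Real.log n / Real.log 2 := by
          rw [le_div_iff₀ hl2, one_mul]
          exact Real.log_le_log (by norm_num) hn'
        gcongr
        linarith
    _ = 4 * C / Real.log 2 * δ * Real.log n := by ring

end Pool.Agent.U310.Mers
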