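import Mathlib
import Pool.Agent.U310.Mers.PBad
import Pool.Agent.U310.Mers.Law
import Pool.Agent.U310.Mers.Main2

set_option autoImplicit false
set_option linter.unusedSectionVars false

/-! # The law along exponential sequences in adapted random sets (helper310) -/

open MeasureTheory Filter Topology

namespace Pool.Agent.U310.Mers

open Pool.Agent.R528.RM

/-- exponential sequences whose terms with large prime index `p` have only prime factors `≡ ± 1` mod `2 p` -/
structure Expo (D : ℕ → ℕ) (c : ℝ) : Prop where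
  pos : 0 < c
  one : 1 ≤ D 2
  mono : StrictMono (fun n => D (n + 2))
  lim : Tendsto (fun p : ℕ => Real.log (D p) / p) atTop (𝓝 c)
  fac : ∃ p0 : ℕ, ∀ p : ℕ, p0 ≤ p → p.Prime → ∀ q : ℕ, q.Prime → q ∣ D p →
    ∃ k : ℕ, 1 ≤ k ∧ (q = 2 * k * p + 1 ∨ q = 2 * k * p - 1)

/-- the number of primes `p ≤ n` in `E` with `D p ∈ S` -/
noncomputable def MD (D : ℕ → ℕ) (S E : Set ℕ) (n : ℕ) : ℕ := {p | p ≤ n ∧ p.Prime ∧ p ∈ E ∧ D p ∈ S}.ncard

/-- the rough indices -/
def RD (z : ℕ → ℕ) (D : ℕ → ℕ) : Set ℕ := {p | Rough z (D p)}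

/-- the expected number -/
noncomputable def dt (z : ℕ → ℕ) (D : ℕ → ℕ) (E : Set ℕ) (m : ℕ) : ℝ := w E m * rho1 z (D (m + 1))

lemma dt_nonneg (z : ℕ → ℕ) (D : ℕ → ℕ) (E : Set ℕ) (m : ℕ) : 0 ≤ dt z D E m :=
  mul_nonneg (w_nonneg E m) (rho1_bounds z _).1

lemma w_zero (E : Set ℕ) : w E 0 = 0 := by
  unfold w
  rw [if_neg]
  rintro ⟨h, -⟩
  exact Nat.not_prime_one h

section
variable {D : ℕ → ℕ} {c : ℝ}

lemma Expo.ge (h : Expo D c) (p : ℕ) (hp : 2 ≤ p) : p ≤ D p + 1 := by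
  obtain ⟨m, rfl⟩ : ∃ m, p = m + 2 := ⟨p - 2, by omega⟩
  have h1 : m + D 2 ≤ D (m + 2) := by
    induction m with
    | zero => simp
    | succ m ih =>
      have h2 := h.mono (Nat.lt_succ_self m)
      simp only at h2
      have := ih (by omega)
      have h3 : D (m.succ + 2) = D (m + 1 + 2) := rfl
      omega
  have := h.one
  omega

lemma Expo.tendsto (h : Expo D c) : Tendsto D atTop atTop := by
  refine tendsto_atTop.2 fun b => ?_
  filter_upwards [eventually_ge_atTop (b + 2)] with p hp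
  have := h.ge p (by omega)
  omega

lemma Expo.inj (h : Expo D c) (p q : ℕ) (hp : 2 ≤ p) (hq : 2 ≤ q) (hpq : D p = D q) : p = q := by
  obtain ⟨a, rfl⟩ : ∃ a, p = a + 2 := ⟨p - 2, by omega⟩
  obtain ⟨b, rfl⟩ : ∃ b, q = b + 2 := ⟨q - 2, by omega⟩
  have := h.mono.injective (a₁ := a) (a₂ := b) hpq
  omega

lemma Expo.log_tendsto (h : Expo D c) : Tendsto (fun p : ℕ => Real.log (D p)) atTop atTop := logNat.comp h.tendsto

lemma Expo.loglog (h : Expo D c) :
    Tendsto (fun p : ℕ => Real.log (Real.log (D p)) / Real.log p) atTop (𝓝 1) := by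
  have h1 : Tendsto (fun p : ℕ => Real.log (Real.log (D p) / p)) atTop (𝓝 (Real.log c)) :=
    (Real.continuousAt_log h.pos.ne').tendsto.comp h.lim
  have h2 : Tendsto (fun p : ℕ => Real.log (Real.log (D p) / p) / Real.log p) atTop (𝓝 0) := h1.div_atTop logNat
  have h3 := h2.add_const 1
  rw [zero_add] at h3
  refine h3.congr' ?_
  filter_upwards [h.log_tendsto.eventually_gt_atTop 0, eventually_ge_atTop 2] with p hp hp2
  have hp0 : (0 : ℝ) < p := by exact_mod_cast (by omega : 0 < p)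
  have hL : 0 < Real.log p := Real.log_pos (by exact_mod_cast (by omega : 1 < p))
  rw [Real.log_div hp.ne' hp0.ne']
  field_simp
  ring

end

section
variable {Ω : Type} {A : ℕ → Set Ω}

lemma MD_eq (D : ℕ → ℕ) (E : Set ℕ) (ω : Ω) (n : ℕ) : (MD D {k : ℕ | ω ∈ A k} E n : ℝ) =
    ∑ m ∈ Finset.range n, w E m * (A (D (m + 1))).indicator (fun _ => (1 : ℝ)) ω := by
  classical
  have h0 : {p | p ≤ n ∧ p.Prime ∧ p ∈ E ∧ D p ∈ {k : ℕ | ω ∈ A k}} =
      (((Finset.Icc 1 n).filter (fun p => p.Prime ∧ p ∈ E ∧ ω ∈ A (D p)) : Finset ℕ) : Set ℕ) := by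
    ext p
    rw [Finset.mem_coe, Finset.mem_filter, Finset.mem_Icc]
    constructor
    · rintro ⟨h1, h2, h3, h4⟩
      exact ⟨⟨h2.one_lt.le, h1⟩, h2, h3, h4⟩
    · rintro ⟨⟨h0, h1⟩, h2, h3, h4⟩
      exact ⟨h1, h2, h3, h4⟩
  unfold MD
  rw [h0, Set.ncard_coe_finset, Finset.card_eq_sum_ones]
  push_cast
  rw [sum_shift]
  refine Finset.sum_congr rfl fun m _ => ?_
  unfold w
  by_cases h1 : (m + 1).Prime ∧ m + 1 ∈ E
  · rw [if_pos h1, one_mul]
    by_cases h2 : ω ∈ A (D (m + 1))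
    · rw [if_pos ⟨h1.1, h1.2, h2⟩, Set.indicator_of_mem h2]
    · rw [if_neg (fun h => h2 h.2.2), Set.indicator_of_notMem h2]
  · rw [if_neg h1, if_neg (fun h => h1 ⟨h.1, h.2.1⟩), zero_mul]

end

section
variable {Ω : Type} {m0 : MeasurableSpace Ω} {μ : Measure Ω} [IsProbabilityMeasure μ]
  {ℱ : Filtration ℕ m0} {A : ℕ → Set Ω} {D : ℕ → ℕ} {c : ℝ}

/-- the law when the expected number is unbounded -/
theorem ginf (hA : ∀ n, MeasurableSet[ℱ n] (A n)) (h : Expo D c) (z : ℕ → ℕ)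
    (hd : ∀ᵐ ω ∂μ, ∀ ε : ℝ, 0 < ε → ∀ᶠ n : ℕ in atTop,
      |dens μ ℱ A n ω - rho1 z (n + 1)| ≤ ε * rho1 z (n + 1)) (E : Set ℕ)
    (hE : Tendsto (fun n => ∑ m ∈ Finset.range n, dt z D E m) atTop atTop) :
    ∀ᵐ ω ∂μ, Tendsto (fun n => (MD D {k : ℕ | ω ∈ A k} E n : ℝ) / ∑ m ∈ Finset.range n, dt z D E m)
      atTop (𝓝 1) := by
  have hs1 : ∀ n, ∑ m ∈ Finset.range (n + 1), dt z D E m =
      ∑ m ∈ Finset.range n, w E (m + 1) * rho1 z (D (m + 2)) := by
    intro n
    rw [Finset.sum_range_succ']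
    have : dt z D E 0 = 0 := by
      unfold dt
      rw [w_zero, zero_mul]
    rw [this, add_zero]
    rfl
  have h2 : Tendsto (fun x => ∑ m ∈ Finset.range x, w E (m + 1) * rho1 z (D (m + 2))) atTop atTop := by
    have := hE.comp (tendsto_add_atTop_nat 1)
    exact this.congr fun n => hs1 n
  have h3 := bhg (μ := μ) (ℱ := ℱ) (A := A) (ι := Unit) hA (rho1 z) (fun n => (rho1_bounds z n).1)
    (fun n => (rho1_bounds z n).2) hd
    (fun _ n => D (n + 2)) 1 {()} rfl
    (fun _ _ => h.mono)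
    (fun _ _ n => by
      have h4 := h.ge (n + 2) (by omega)
      omega)
    (fun i _ j _ hij => absurd (Subsingleton.elim i j) hij)
    (fun m => w E (m + 1)) (fun m => w_nonneg E _) (fun m => w_le E _) (by simpa using h2)
  filter_upwards [h3] with ω hω
  rw [← tendsto_add_atTop_iff_nat 1]
  refine hω.congr fun n => ?_
  rw [hs1, MD_eq, Finset.sum_range_succ' (fun m => w E m * (A (D (m + 1))).indicator (fun _ => (1 : ℝ)) ω)]
  rw [w_zero, zero_mul, add_zero]
  simp [YY]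

/-- the law when the expected number is bounded -/
theorem gfin (hA : ∀ n, MeasurableSet[ℱ n] (A n)) (h : Expo D c) (z : ℕ → ℕ)
    (hd : ∀ᵐ ω ∂μ, ∀ ε : ℝ, 0 < ε → ∀ᶠ n : ℕ in atTop,
      |dens μ ℱ A n ω - rho1 z (n + 1)| ≤ ε * rho1 z (n + 1)) (E : Set ℕ)
    (C : ℝ) (hE : ∀ n, ∑ m ∈ Finset.range n, dt z D E m ≤ C) :
    ∀ᵐ ω ∂μ, {p | p.Prime ∧ p ∈ E ∧ ω ∈ A (D p)}.Finite := by
  classical
  set T : Set ℕ := {k | ∃ p, p.Prime ∧ p ∈ E ∧ k = D p} with hT
  have hsum : ∀ x : ℕ, ∑ n ∈ Finset.range x, T.indicator (rho1 z) (n + 1) ≤ C := by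
    intro x
    refine le_trans ?_ (hE (x + 1))
    have e1 : ∑ n ∈ Finset.range x, T.indicator (rho1 z) (n + 1) =
        ∑ k ∈ (Finset.Icc 1 x).filter (fun k => k ∈ T), rho1 z k := by
      rw [sum_shift]
      refine Finset.sum_congr rfl fun n _ => ?_
      by_cases h : n + 1 ∈ T
      · rw [Set.indicator_of_mem h, if_pos h]
      · rw [Set.indicator_of_notMem h, if_neg h]
    have e2 : ∑ m ∈ Finset.range (x + 1), dt z D E m =
        ∑ p ∈ (Finset.Icc 1 (x + 1)).filter (fun p => p.Prime ∧ p ∈ E), rho1 z (D p) := by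
      rw [sum_shift]
      refine Finset.sum_congr rfl fun n _ => ?_
      simp only [dt, w]
      split_ifs <;> simp
    rw [e1, e2]
    have hinj : ∀ p ∈ (Finset.Icc 1 (x + 1)).filter (fun p => p.Prime ∧ p ∈ E),
        ∀ q ∈ (Finset.Icc 1 (x + 1)).filter (fun p => p.Prime ∧ p ∈ E), D p = D q → p = q := by
      intro p hp q hq hpq
      exact h.inj p q (Finset.mem_filter.1 hp).2.1.two_le (Finset.mem_filter.1 hq).2.1.two_le hpq
    rw [← Finset.sum_image (f := rho1 z) (g := D) (fun p hp q hq h => hinj p hp q hq h)]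
    refine Finset.sum_le_sum_of_subset_of_nonneg ?_ fun m _ _ => (rho1_bounds z m).1
    intro k hk
    rw [Finset.mem_filter, Finset.mem_Icc] at hk
    obtain ⟨⟨hk1, hk2⟩, p, hp1, hp2, hp3⟩ := hk
    rw [Finset.mem_image]
    refine ⟨p, ?_, hp3.symm⟩
    rw [Finset.mem_filter, Finset.mem_Icc]
    have h5 := h.ge p hp1.two_le
    exact ⟨⟨hp1.one_lt.le, by omega⟩, hp1, hp2⟩
  have h1 := fin_law (μ := μ) (ℱ := ℱ) hA (rho1 z) (fun n => (rho1_bounds z n).1) hd T _ hsum
  filter_upwards [h1] with ω hω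
  obtain ⟨m1, hm1⟩ := eventually_atTop.1 hω
  refine (Set.finite_lt_nat (m1 + 2)).subset ?_
  rintro p ⟨hp1, hp2, hp3⟩
  by_contra hlt
  simp only [Set.mem_ofPred_eq, not_lt] at hlt
  have h5 := h.ge p hp1.two_le
  exact hm1 (D p) (by omega) ⟨p, hp1, hp2, rfl⟩ hp3

end

/-- the expected number against the logarithmic sum -/
lemma close_dg {D : ℕ → ℕ} {c : ℝ} (h : Expo D c) (z : ℕ → ℕ) (θ : ℝ) (hθ : 0 < θ)
    (hz : Tendsto (fun m : ℕ => Real.log (z m) / Real.log (Real.log m)) atTop (𝓝 θ)) (E : Set ℕ) :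
    ∀ ε : ℝ, 0 < ε → ∀ᶠ m : ℕ in atTop,
      |dt z D E m - θ * Real.exp Real.eulerMascheroniConstant / c * gt (E ∩ RD z D) m| ≤
      ε * (θ * Real.exp Real.eulerMascheroniConstant / c * gt (E ∩ RD z D) m) := by
  intro ε hε
  have hc := h.pos
  set κ : ℝ := θ * Real.exp Real.eulerMascheroniConstant / c with hκ
  have hκ0 : 0 < κ := by positivity
  have h1 : Tendsto (fun p : ℕ => (W (z (D p)) / Real.log (D p)) / (κ * (Real.log p / p))) atTop (𝓝 1) := by
    have h2 := (W_loglog z θ hθ hz).comp h.tendsto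
    have h3 := h2.mul h.loglog
    rw [mul_one] at h3
    have h4 := (h3.mul (h.lim.inv₀ hc.ne')).div_const κ
    have e : θ * Real.exp Real.eulerMascheroniConstant * c⁻¹ / κ = 1 := by
      rw [hκ]
      field_simp
    rw [e] at h4
    refine h4.congr' ?_
    filter_upwards [(loglogNat.comp h.tendsto).eventually_gt_atTop 0, h.log_tendsto.eventually_gt_atTop 0,
      eventually_ge_atTop 2] with p hp hp1 hp2
    have hp0 : (0 : ℝ) < p := by exact_mod_cast (by omega : 0 < p)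
    have hL : 0 < Real.log p := Real.log_pos (by exact_mod_cast (by omega : 1 < p))
    simp only [Function.comp] at hp ⊢
    field_simp
  have h3 := (Metric.tendsto_nhds.1 h1) ε hε
  have hW := h.tendsto.eventually (W_small z θ hθ hz)
  filter_upwards [(tendsto_add_atTop_nat 1).eventually h3, (tendsto_add_atTop_nat 1).eventually hW,
    (h.log_tendsto.comp (tendsto_add_atTop_nat 1)).eventually_gt_atTop 0, eventually_ge_atTop 2] with m hm hm1 hm3 hm2
  simp only [Function.comp] at hm3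
  unfold dt w rho1 gt RD
  by_cases c1 : (m + 1).Prime ∧ m + 1 ∈ E
  · by_cases c2 : Rough z (D (m + 1))
    · have c' : (m + 1).Prime ∧ m + 1 ∈ E ∩ {p | Rough z (D p)} := ⟨c1.1, c1.2, c2⟩
      rw [if_pos c1, if_pos c2, if_pos c', one_mul, min_eq_right hm1.le]
      rw [Real.dist_eq] at hm
      have hm0 : (0 : ℝ) < ((m + 1 : ℕ) : ℝ) := by positivity
      have hlog : 0 < Real.log ((m + 1 : ℕ) : ℝ) := Real.log_pos (by exact_mod_cast (by omega : 1 < m + 1))
      have e : W (z (D (m + 1))) / Real.log (D (m + 1)) -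
          κ * (Real.log ((m + 1 : ℕ) : ℝ) / ((m + 1 : ℕ) : ℝ)) =
          ((W (z (D (m + 1))) / Real.log (D (m + 1))) / (κ * (Real.log ((m + 1 : ℕ) : ℝ) / ((m + 1 : ℕ) : ℝ))) - 1) *
            (κ * (Real.log ((m + 1 : ℕ) : ℝ) / ((m + 1 : ℕ) : ℝ))) := by
        field_simp
      rw [e, abs_mul, abs_of_pos (show 0 < κ * (Real.log ((m + 1 : ℕ) : ℝ) / ((m + 1 : ℕ) : ℝ)) by positivity)]
      exact mul_le_mul_of_nonneg_right hm.le (by positivity)
    · have c' : ¬ ((m + 1).Prime ∧ m + 1 ∈ E ∩ {p | Rough z (D p)}) := fun h => c2 h.2.2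
      rw [if_neg c2, if_neg c']
      simp
  · have c' : ¬ ((m + 1).Prime ∧ m + 1 ∈ E ∩ {p | Rough z (D p)}) := fun h => c1 ⟨h.1, h.2.1⟩
    rw [if_neg c1, if_neg c']
    simp

section
variable {Ω : Type} {m0 : MeasurableSpace Ω} {μ : Measure Ω} [IsProbabilityMeasure μ]
  {ℱ : Filtration ℕ m0} {A : ℕ → Set Ω} {D : ℕ → ℕ} {c : ℝ}

/-- **the general law**: unbounded case -/
theorem glaw_inf (hA : ∀ n, MeasurableSet[ℱ n] (A n)) (h : Expo D c) (z : ℕ → ℕ) (θ : ℝ) (hθ : 0 < θ)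
    (hz : Tendsto (fun m : ℕ => Real.log (z m) / Real.log (Real.log m)) atTop (𝓝 θ))
    (hd : ∀ᵐ ω ∂μ, ∀ ε : ℝ, 0 < ε → ∀ᶠ n : ℕ in atTop,
      |dens μ ℱ A n ω - rho1 z (n + 1)| ≤ ε * rho1 z (n + 1)) (E : Set ℕ)
    (hinf : Tendsto (L (E ∩ RD z D)) atTop atTop) :
    ∀ᵐ ω ∂μ, Tendsto (fun n => (MD D {k : ℕ | ω ∈ A k} E n : ℝ) /
      (θ * Real.exp Real.eulerMascheroniConstant / c * L (E ∩ RD z D) n)) atTop (𝓝 1) := by
  have hc := h.pos
  set κ : ℝ := θ * Real.exp Real.eulerMascheroniConstant / c with hκ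
  have hκ0 : 0 < κ := by positivity
  set R : Set ℕ := E ∩ RD z D with hR
  have hcl := close_dg h z θ hθ hz E
  have hLs : ∀ x, ∑ m ∈ Finset.range x, κ * gt R m = κ * L R x := by
    intro x
    rw [L_eq, Finset.mul_sum]
  have hB : Tendsto (fun x => ∑ m ∈ Finset.range x, κ * gt R m) atTop atTop := by
    refine (hinf.const_mul_atTop hκ0).congr fun x => (hLs x).symm
  have h1 := sum_ratio (a := dt z D E) (b := fun m => κ * gt R m)
    (fun m => mul_nonneg hκ0.le (gt_nonneg R m)) hcl hB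
  have hVinf : Tendsto (fun n => ∑ m ∈ Finset.range n, dt z D E m) atTop atTop := by
    have h3 := h1.pos_mul_atTop one_pos hB
    refine h3.congr' ?_
    filter_upwards [hB.eventually_gt_atTop 0] with x hx
    rw [div_mul_cancel₀ _ hx.ne']
  have h2 := ginf (μ := μ) (ℱ := ℱ) hA h z hd E hVinf
  filter_upwards [h2] with ω hω
  have h4 := hω.mul h1
  rw [mul_one] at h4
  refine h4.congr' ?_
  filter_upwards [hVinf.eventually_gt_atTop 0] with x hx
  rw [hLs, div_mul_div_cancel₀ hx.ne']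

/-- **the general law**: bounded case -/
theorem glaw_fin (hA : ∀ n, MeasurableSet[ℱ n] (A n)) (h : Expo D c) (z : ℕ → ℕ) (θ : ℝ) (hθ : 0 < θ)
    (hz : Tendsto (fun m : ℕ => Real.log (z m) / Real.log (Real.log m)) atTop (𝓝 θ))
    (hd : ∀ᵐ ω ∂μ, ∀ ε : ℝ, 0 < ε → ∀ᶠ n : ℕ in atTop,
      |dens μ ℱ A n ω - rho1 z (n + 1)| ≤ ε * rho1 z (n + 1)) (E : Set ℕ)
    (l : ℝ) (hLb : ∀ x, L (E ∩ RD z D) x ≤ l) :
    ∀ᵐ ω ∂μ, {p | p.Prime ∧ p ∈ E ∧ ω ∈ A (D p)}.Finite := by
  have hc := h.pos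
  set κ : ℝ := θ * Real.exp Real.eulerMascheroniConstant / c with hκ
  have hκ0 : 0 < κ := by positivity
  set R : Set ℕ := E ∩ RD z D with hR
  have hcl := close_dg h z θ hθ hz E
  have hLs : ∀ x, ∑ m ∈ Finset.range x, κ * gt R m = κ * L R x := by
    intro x
    rw [L_eq, Finset.mul_sum]
  obtain ⟨n0, hn0⟩ := eventually_atTop.1 (hcl 1 one_pos)
  set D0 : ℝ := ∑ m ∈ Finset.range n0, dt z D E m with hD
  have hVb : ∀ x, ∑ m ∈ Finset.range x, dt z D E m ≤ 2 * (κ * l) + D0 := by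
    intro x
    have hle : ∀ m, dt z D E m ≤ 2 * (κ * gt R m) + (if m < n0 then dt z D E m else 0) := by
      intro m
      have := mul_nonneg hκ0.le (gt_nonneg R m)
      split_ifs with h
      · linarith
      · have := (abs_le.1 (hn0 m (by omega))).2
        linarith
    refine (Finset.sum_le_sum fun m _ => hle m).trans ?_
    rw [Finset.sum_add_distrib, ← Finset.mul_sum, hLs]
    have h6 := mul_le_mul_of_nonneg_left (hLb x) hκ0.le
    have h7 : ∑ m ∈ Finset.range x, (if m < n0 then dt z D E m else 0) ≤ D0 := by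
      rw [← Finset.sum_filter, hD]
      refine Finset.sum_le_sum_of_subset_of_nonneg ?_ fun m _ _ => dt_nonneg z D E m
      intro m hm
      rw [Finset.mem_filter] at hm
      exact Finset.mem_range.2 hm.2
    linarith
  exact gfin (μ := μ) (ℱ := ℱ) hA h z hd E _ hVb

end

/-- comparing two sets of primes -/
lemma L_diff_le (E R : Set ℕ) (n : ℕ) (B : Finset ℕ) (hB : ∀ p, p ≤ n → p.Prime → p ∈ E → p ∉ R → p ∈ B) :
    L E n - L (E ∩ R) n ≤ ∑ p ∈ B, Real.log p / p := by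
  classical
  set X := (Finset.Icc 1 n).filter (fun p => p.Prime ∧ p ∈ E) with hX
  set Y := (Finset.Icc 1 n).filter (fun p => p.Prime ∧ p ∈ E ∩ R) with hY
  have hYX : Y ⊆ X := by
    intro p hp
    rw [hY, Finset.mem_filter] at hp
    rw [hX, Finset.mem_filter]
    exact ⟨hp.1, hp.2.1, hp.2.2.1⟩
  have hLX : L E n = ∑ p ∈ X, Real.log p / p := by
    unfold L
    refine Finset.sum_congr ?_ fun _ _ => rfl
    ext p
    simp only [hX, Finset.mem_filter]
  have hLY : L (E ∩ R) n = ∑ p ∈ Y, Real.log p / p := by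
    unfold L
    refine Finset.sum_congr ?_ fun _ _ => rfl
    ext p
    simp only [hY, Finset.mem_filter]
  have e1 : L E n - L (E ∩ R) n = ∑ p ∈ X \ Y, Real.log p / p := by
    rw [hLX, hLY, ← Finset.sum_sdiff hYX]
    ring
  rw [e1]
  refine Finset.sum_le_sum_of_subset_of_nonneg ?_ fun p _ _ =>
    div_nonneg (Real.log_natCast_nonneg p) (Nat.cast_nonneg _)
  intro p hp
  rw [Finset.mem_sdiff, hX, hY, Finset.mem_filter, Finset.mem_filter, Finset.mem_Icc] at hp
  obtain ⟨⟨hp1, hp2, hp3⟩, hp4⟩ := hp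
  refine hB p hp1.2 hp2 hp3 fun h => hp4 ⟨hp1, hp2, hp3, h⟩

lemma L_le (E R : Set ℕ) (n : ℕ) : L (E ∩ R) n ≤ L E n := by
  classical
  unfold L
  refine Finset.sum_le_sum_of_subset_of_nonneg ?_ fun p _ _ =>
    div_nonneg (Real.log_natCast_nonneg p) (Nat.cast_nonneg _)
  intro p hp
  simp only [Finset.mem_filter] at hp ⊢
  exact ⟨hp.1, hp.2.1, hp.2.2.1⟩

/-- the indices with small prime factors have relative logarithmic density zero -/
lemma gfull {D : ℕ → ℕ} {c : ℝ} (h : Expo D c) (z : ℕ → ℕ)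
    (hz0 : Tendsto (fun m : ℕ => (z m : ℝ) / (Real.log m * Real.log (Real.log m))) atTop (𝓝 0))
    (E : Set ℕ) (d : ℝ) (hE : Tendsto (fun n => L E n / Real.log n) atTop (𝓝 d)) :
    Tendsto (fun n => L (E ∩ RD z D) n / Real.log n) atTop (𝓝 d) := by
  classical
  obtain ⟨C, hC, hbad⟩ := pbad_log
  have hc := h.pos
  have hdiff : Tendsto (fun n => (L E n - L (E ∩ RD z D) n) / Real.log n) atTop (𝓝 0) := by
    rw [Metric.tendsto_nhds]
    intro ε hε
    set δ : ℝ := ε / (2 * C) with hδ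
    have hδ0 : 0 < δ := by positivity
    have h1 : ∀ᶠ m : ℕ in atTop, (z m : ℝ) / (Real.log m * Real.log (Real.log m)) < δ / (4 * c) :=
      hz0.eventually (gt_mem_nhds (by positivity))
    have h2 : ∀ᶠ p : ℕ in atTop, (z (D p) : ℝ) ≤ δ * (p * Real.log p) := by
      have g1 : ∀ᶠ p : ℕ in atTop, Real.log (D p) / p < 2 * c := h.lim.eventually (gt_mem_nhds (by linarith))
      have g2 : ∀ᶠ p : ℕ in atTop, Real.log (Real.log (D p)) / Real.log p < 2 :=
        h.loglog.eventually (gt_mem_nhds (by norm_num))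
      filter_upwards [h.tendsto.eventually h1, g1, g2,
        (loglogNat.comp h.tendsto).eventually_gt_atTop 0, h.log_tendsto.eventually_gt_atTop 0,
        eventually_ge_atTop 2] with p hp1 hg1 hg2 hp2 hp3 hp4
      simp only [Function.comp] at hp2
      have hp0 : (0 : ℝ) < p := by exact_mod_cast (by omega : 0 < p)
      have hL : 0 < Real.log p := Real.log_pos (by exact_mod_cast (by omega : 1 < p))
      rw [div_lt_iff₀ (by positivity)] at hp1
      rw [div_lt_iff₀ hp0] at hg1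
      rw [div_lt_iff₀ hL] at hg2
      calc (z (D p) : ℝ) ≤ δ / (4 * c) * (Real.log (D p) * Real.log (Real.log (D p))) := hp1.le
        _ ≤ δ / (4 * c) * ((2 * c * p) * (2 * Real.log p)) := by gcongr
        _ = δ * (p * Real.log p) := by field_simp; ring
    obtain ⟨p0, hp0⟩ := eventually_atTop.1 h2
    obtain ⟨p1, hp1⟩ := h.fac
    set D0 : ℝ := ∑ p ∈ Finset.Icc 1 (p0 + p1), Real.log p / p with hD
    have hDn : Tendsto (fun n : ℕ => D0 / Real.log n) atTop (𝓝 0) := logNat.const_div_atTop _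
    have h3 : ∀ᶠ n : ℕ in atTop, D0 / Real.log n < ε / 2 := hDn.eventually (gt_mem_nhds (by positivity))
    filter_upwards [h3, eventually_ge_atTop 3] with n hn hn2
    have hLn : 0 < Real.log (n : ℝ) := Real.log_pos (by exact_mod_cast (by omega : 1 < n))
    have hterm0 : ∀ p : ℕ, 0 ≤ Real.log p / p := fun p => div_nonneg (Real.log_natCast_nonneg p) (Nat.cast_nonneg _)
    have e2 : L E n - L (E ∩ RD z D) n ≤ C * δ * Real.log n + D0 := by
      refine (L_diff_le E (RD z D) n (pbad δ n ∪ Finset.Icc 1 (p0 + p1)) ?_).trans ?_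
      · intro p hpn hpp hpE hpR
        rw [Finset.mem_union]
        by_cases hple : p ≤ p0 + p1
        · right
          rw [Finset.mem_Icc]
          exact ⟨hpp.one_lt.le, hple⟩
        · left
          have hnr : ¬ Rough z (D p) := hpR
          unfold Rough at hnr
          push Not at hnr
          obtain ⟨q, hq1, hq2, hq3⟩ := hnr
          obtain ⟨k, hk1, hk2⟩ := hp1 p (by omega) hpp q hq1 hq3
          unfold pbad
          rw [Finset.mem_filter, Finset.mem_Icc]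
          refine ⟨⟨hpp.one_lt.le, hpn⟩, hpp, k, hk1, ?_, ?_⟩
          · rcases hk2 with hk2 | hk2
            · left; rw [← hk2]; exact hq1
            · right; rw [← hk2]; exact hq1
          · have h5 := hp0 p (by omega)
            have h6 : (q : ℝ) ≤ z (D p) := by exact_mod_cast hq2
            have h7 : 2 * k * p - 1 ≤ q := by omega
            have h8 : (2 * (k : ℝ) * p - 1) ≤ q := by
              have h9 : 2 * k * p ≤ q + 1 := by omega
              have h10 : ((2 * k * p : ℕ) : ℝ) ≤ ((q + 1 : ℕ) : ℝ) := by exact_mod_cast h9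
              push_cast at h10
              linarith
            linarith
      · have g1 : ∑ p ∈ pbad δ n ∪ Finset.Icc 1 (p0 + p1), Real.log p / p ≤
            ∑ p ∈ pbad δ n, Real.log p / p + D0 := by
          rw [← Finset.sum_union_inter]
          have : 0 ≤ ∑ p ∈ pbad δ n ∩ Finset.Icc 1 (p0 + p1), Real.log p / p :=
            Finset.sum_nonneg fun p _ => hterm0 p
          linarith
        have g2 := hbad δ hδ0 n (by omega)
        linarith
    have e3 : 0 ≤ L E n - L (E ∩ RD z D) n := by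
      have := L_le E (RD z D) n
      linarith
    rw [Real.dist_eq, sub_zero, abs_of_nonneg (div_nonneg e3 hLn.le)]
    calc (L E n - L (E ∩ RD z D) n) / Real.log n ≤ (C * δ * Real.log n + D0) / Real.log n := by gcongr
      _ = C * δ + D0 / Real.log n := by field_simp
      _ = ε / 2 + D0 / Real.log n := by rw [hδ]; field_simp
      _ < ε := by linarith
  have h5 := hE.sub hdiff
  rw [sub_zero] at h5
  refine h5.congr fun n => ?_
  ring

/-- below the critical level every large index is rough -/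
lemma gall {D : ℕ → ℕ} {c : ℝ} (h : Expo D c) (z : ℕ → ℕ) (τ : ℝ) (hτ : 0 ≤ τ) (hτc : τ * c < 2)
    (hz : ∀ᶠ m : ℕ in atTop, (z m : ℝ) ≤ τ * Real.log m) :
    ∃ p0 : ℕ, ∀ p, p0 ≤ p → p.Prime → p ∈ RD z D := by
  obtain ⟨p1, hp1⟩ := h.fac
  have h1 : Tendsto (fun p : ℕ => τ * (Real.log (D p) / p) + 1 / p) atTop (𝓝 (τ * c + 0)) :=
    (h.lim.const_mul τ).add tendsto_one_div_atTop_nhds_zero_nat
  rw [add_zero] at h1
  have h2 : ∀ᶠ p : ℕ in atTop, τ * (Real.log (D p) / p) + 1 / p < 2 := h1.eventually (gt_mem_nhds hτc)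
  obtain ⟨p2, hp2⟩ := eventually_atTop.1 (h2.and (h.tendsto.eventually hz))
  refine ⟨p1 + p2 + 1, fun p hp hpp => ?_⟩
  obtain ⟨h3, h4⟩ := hp2 p (by omega)
  intro q hq hqz hqd
  obtain ⟨k, hk1, hk2⟩ := hp1 p (by omega) hpp q hq hqd
  have hp0 : (0 : ℝ) < p := by exact_mod_cast hpp.pos
  have h5 : 2 * p ≤ q + 1 := by
    have : 2 * p ≤ 2 * k * p := Nat.mul_le_mul_right p (by omega)
    omega
  have h6 : (2 : ℝ) * p ≤ q + 1 := by exact_mod_cast h5
  have h7 : (q : ℝ) ≤ z (D p) := by exact_mod_cast hqz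
  have h8 : (τ * (Real.log (D p) / p) + 1 / p) * p < 2 * p := mul_lt_mul_of_pos_right h3 hp0
  have h9 : (τ * (Real.log (D p) / p) + 1 / p) * p = τ * Real.log (D p) + 1 := by field_simp
  linarith

/-- below the critical level the logarithmic sums agree up to a constant -/
lemma gall_L {D : ℕ → ℕ} {c : ℝ} (h : Expo D c) (z : ℕ → ℕ) (τ : ℝ) (hτ : 0 ≤ τ) (hτc : τ * c < 2)
    (hz : ∀ᶠ m : ℕ in atTop, (z m : ℝ) ≤ τ * Real.log m) (E : Set ℕ) :
    ∃ C : ℝ, ∀ n, L E n - C ≤ L (E ∩ RD z D) n := by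
  obtain ⟨p0, hp0⟩ := gall h z τ hτ hτc hz
  refine ⟨∑ p ∈ Finset.Icc 1 p0, Real.log p / p, fun n => ?_⟩
  have := L_diff_le E (RD z D) n (Finset.Icc 1 p0) (by
    intro p _ hpp _ hpR
    rw [Finset.mem_Icc]
    refine ⟨hpp.one_lt.le, ?_⟩
    by_contra hlt
    exact hpR (hp0 p (by omega) hpp))
  linarith

end Pool.Agent.U310.Mers
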