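import Mathlib
import Pool.Agent.U310.Mers.Gen

set_option autoImplicit false
set_option linter.unusedSectionVars false

/-! # Corollaries of the general law (helper310) -/

open MeasureTheory Filter Topology

namespace Pool.Agent.U310.Mers

open Pool.Agent.R528.RM

/-- almost all terms have no small prime factor -/
theorem galmost {D : ℕ → ℕ} {c : ℝ} (h : Expo D c) (g : ℕ → ℝ) (hg : Tendsto g atTop (𝓝 0)) :
    Tendsto (fun n : ℕ => ({p : ℕ | p ≤ n ∧ p.Prime ∧ ∃ q : ℕ, q.Prime ∧ q ∣ D p ∧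
      (q : ℝ) ≤ g p * (p * Real.log p)}.ncard : ℝ) / (n / Real.log n)) atTop (𝓝 0) := by
  classical
  obtain ⟨C, hC, hbad⟩ := pbad_count
  obtain ⟨p1, hp1⟩ := h.fac
  rw [Metric.tendsto_nhds]
  intro ε hε
  set δ : ℝ := ε / (2 * C) with hδ
  have hδ0 : 0 < δ := by positivity
  have h1 : ∀ᶠ p : ℕ in atTop, g p < δ := hg.eventually (gt_mem_nhds hδ0)
  obtain ⟨p0, hp0⟩ := eventually_atTop.1 h1
  have h2 : Tendsto (fun n : ℕ => ((p0 + p1 : ℕ) : ℝ) * (Real.log n / n)) atTop (𝓝 0) := by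
    have h3 : Tendsto (fun x : ℝ => Real.log x / x) atTop (𝓝 0) :=
      Real.isLittleO_log_id_atTop.tendsto_div_nhds_zero
    have h4 := (h3.comp tendsto_natCast_atTop_atTop).const_mul ((p0 + p1 : ℕ) : ℝ)
    rwa [mul_zero] at h4
  have h3 : ∀ᶠ n : ℕ in atTop, ((p0 + p1 : ℕ) : ℝ) * (Real.log n / n) < ε / 2 :=
    h2.eventually (gt_mem_nhds (by positivity))
  filter_upwards [h3, eventually_ge_atTop 3] with n hn hn2
  have hn0 : (0 : ℝ) < n := by exact_mod_cast (by omega : 0 < n)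
  have hLn : 0 < Real.log (n : ℝ) := Real.log_pos (by exact_mod_cast (by omega : 1 < n))
  have hsub : {p : ℕ | p ≤ n ∧ p.Prime ∧ ∃ q : ℕ, q.Prime ∧ q ∣ D p ∧
      (q : ℝ) ≤ g p * (p * Real.log p)} ⊆ ((pbad δ n ∪ Finset.Icc 1 (p0 + p1) : Finset ℕ) : Set ℕ) := by
    rintro p ⟨hpn, hp2, q, hq1, hq2, hq3⟩
    rw [Finset.mem_coe, Finset.mem_union]
    by_cases hple : p ≤ p0 + p1
    · right
      rw [Finset.mem_Icc]
      exact ⟨hp2.one_lt.le, hple⟩
    · left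
      obtain ⟨k, hk1, hk2⟩ := hp1 p (by omega) hp2 q hq1 hq2
      unfold pbad
      rw [Finset.mem_filter, Finset.mem_Icc]
      refine ⟨⟨hp2.one_lt.le, hpn⟩, hp2, k, hk1, ?_, ?_⟩
      · rcases hk2 with hk2 | hk2
        · left; rw [← hk2]; exact hq1
        · right; rw [← hk2]; exact hq1
      · have h8 : (2 * (k : ℝ) * p - 1) ≤ q := by
          have h9 : 2 * k * p ≤ q + 1 := by omega
          have h10 : ((2 * k * p : ℕ) : ℝ) ≤ ((q + 1 : ℕ) : ℝ) := by exact_mod_cast h9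
          push_cast at h10
          linarith
        have := (hp0 p (by omega)).le
        have h5 : 0 ≤ (p : ℝ) * Real.log p := mul_nonneg (Nat.cast_nonneg _) (Real.log_natCast_nonneg p)
        have h6 := mul_le_mul_of_nonneg_right this h5
        linarith
  have hcard : (({p : ℕ | p ≤ n ∧ p.Prime ∧ ∃ q : ℕ, q.Prime ∧ q ∣ D p ∧
      (q : ℝ) ≤ g p * (p * Real.log p)}.ncard : ℕ) : ℝ) ≤ C * δ * n / Real.log n + ((p0 + p1 : ℕ) : ℝ) := by
    have h4 := (Set.ncard_le_ncard hsub (Finset.finite_toSet _))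
    rw [Set.ncard_coe_finset] at h4
    have h5 := h4.trans (Finset.card_union_le _ _)
    rw [Nat.card_Icc] at h5
    have h6 := hbad δ hδ0 n (by omega)
    have h7 : (({p : ℕ | p ≤ n ∧ p.Prime ∧ ∃ q : ℕ, q.Prime ∧ q ∣ D p ∧
      (q : ℝ) ≤ g p * (p * Real.log p)}.ncard : ℕ) : ℝ) ≤ ((pbad δ n).card : ℝ) + ((p0 + p1 : ℕ) : ℝ) := by
      exact_mod_cast (by simpa using h5)
    linarith
  rw [Real.dist_eq, sub_zero, abs_of_nonneg (by positivity)]
  calc (({p : ℕ | p ≤ n ∧ p.Prime ∧ ∃ q : ℕ, q.Prime ∧ q ∣ D p ∧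
      (q : ℝ) ≤ g p * (p * Real.log p)}.ncard : ℕ) : ℝ) / (n / Real.log n)
      ≤ (C * δ * n / Real.log n + ((p0 + p1 : ℕ) : ℝ)) / (n / Real.log n) := by gcongr
    _ = C * δ + ((p0 + p1 : ℕ) : ℝ) * (Real.log n / n) := by field_simp
    _ = ε / 2 + ((p0 + p1 : ℕ) : ℝ) * (Real.log n / n) := by rw [hδ]; field_simp
    _ < ε := by linarith

section
variable {Ω : Type} {m0 : MeasurableSpace Ω} {μ : Measure Ω} [IsProbabilityMeasure μ]
  {ℱ : Filtration ℕ m0} {A : ℕ → Set Ω} {D : ℕ → ℕ} {c : ℝ}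

/-- below the critical level, unbounded case -/
theorem gtau_inf (hA : ∀ n, MeasurableSet[ℱ n] (A n)) (h : Expo D c) (z : ℕ → ℕ) (θ : ℝ) (hθ : 0 < θ)
    (hz : Tendsto (fun m : ℕ => Real.log (z m) / Real.log (Real.log m)) atTop (𝓝 θ))
    (hd : ∀ᵐ ω ∂μ, ∀ ε : ℝ, 0 < ε → ∀ᶠ n : ℕ in atTop,
      |dens μ ℱ A n ω - rho1 z (n + 1)| ≤ ε * rho1 z (n + 1))
    (τ : ℝ) (hτ : 0 ≤ τ) (hτc : τ * c < 2) (hzτ : ∀ᶠ m : ℕ in atTop, (z m : ℝ) ≤ τ * Real.log m) (E : Set ℕ)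
    (hinf : Tendsto (L E) atTop atTop) :
    ∀ᵐ ω ∂μ, Tendsto (fun n => (MD D {k : ℕ | ω ∈ A k} E n : ℝ) /
      (θ * Real.exp Real.eulerMascheroniConstant / c * L E n)) atTop (𝓝 1) := by
  obtain ⟨C, hC⟩ := gall_L h z τ hτ hτc hzτ E
  have hc := h.pos
  set κ : ℝ := θ * Real.exp Real.eulerMascheroniConstant / c with hκ
  have hκ0 : 0 < κ := by positivity
  have hinf2 : Tendsto (L (E ∩ RD z D)) atTop atTop := by
    refine tendsto_atTop_mono hC ?_
    exact tendsto_atTop_add_const_right _ (-C) hinf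
  have h1 := glaw_inf (μ := μ) (ℱ := ℱ) hA h z θ hθ hz hd E hinf2
  have h2 : Tendsto (fun n => L (E ∩ RD z D) n / L E n) atTop (𝓝 1) := by
    have h3 : Tendsto (fun n => 1 - C / L E n) atTop (𝓝 1) := by
      have := (hinf.const_div_atTop C).const_sub 1
      rwa [sub_zero] at this
    refine tendsto_of_tendsto_of_tendsto_of_le_of_le' h3 tendsto_const_nhds ?_ ?_
    · filter_upwards [hinf.eventually_gt_atTop 0] with n hn
      rw [le_div_iff₀ hn, sub_mul, one_mul, div_mul_cancel₀ _ hn.ne']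
      exact hC n
    · filter_upwards [hinf.eventually_gt_atTop 0] with n hn
      rw [div_le_one hn]
      exact L_le E _ n
  filter_upwards [h1] with ω hω
  have h3 := hω.mul h2
  rw [mul_one] at h3
  refine h3.congr' ?_
  filter_upwards [hinf.eventually_gt_atTop 0, hinf2.eventually_gt_atTop 0] with n hn hn2
  rw [hκ]
  field_simp

/-- below the critical level, bounded case -/
theorem gtau_fin (hA : ∀ n, MeasurableSet[ℱ n] (A n)) (h : Expo D c) (z : ℕ → ℕ) (θ : ℝ) (hθ : 0 < θ)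
    (hz : Tendsto (fun m : ℕ => Real.log (z m) / Real.log (Real.log m)) atTop (𝓝 θ))
    (hd : ∀ᵐ ω ∂μ, ∀ ε : ℝ, 0 < ε → ∀ᶠ n : ℕ in atTop,
      |dens μ ℱ A n ω - rho1 z (n + 1)| ≤ ε * rho1 z (n + 1)) (E : Set ℕ)
    (hfin : ∃ C : ℝ, ∀ n, L E n ≤ C) :
    ∀ᵐ ω ∂μ, {p | p.Prime ∧ p ∈ E ∧ ω ∈ A (D p)}.Finite := by
  obtain ⟨C, hC⟩ := hfin
  exact glaw_fin (μ := μ) (ℱ := ℱ) hA h z θ hθ hz hd E C fun x => (L_le E _ x).trans (hC x)

/-- sets with a relative logarithmic density -/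
theorem gdens (hA : ∀ n, MeasurableSet[ℱ n] (A n)) (h : Expo D c) (z : ℕ → ℕ) (θ : ℝ) (hθ : 0 < θ)
    (hz : Tendsto (fun m : ℕ => Real.log (z m) / Real.log (Real.log m)) atTop (𝓝 θ))
    (hd : ∀ᵐ ω ∂μ, ∀ ε : ℝ, 0 < ε → ∀ᶠ n : ℕ in atTop,
      |dens μ ℱ A n ω - rho1 z (n + 1)| ≤ ε * rho1 z (n + 1))
    (hz0 : Tendsto (fun m : ℕ => (z m : ℝ) / (Real.log m * Real.log (Real.log m))) atTop (𝓝 0))
    (E : Set ℕ) (d : ℝ) (hE : Tendsto (fun n => L E n / Real.log n) atTop (𝓝 d)) :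
    ∀ᵐ ω ∂μ, Tendsto (fun n : ℕ => (MD D {k : ℕ | ω ∈ A k} E n : ℝ) / Real.log n) atTop
      (𝓝 (θ * Real.exp Real.eulerMascheroniConstant / c * d)) := by
  have hc := h.pos
  set κ : ℝ := θ * Real.exp Real.eulerMascheroniConstant / c with hκ
  have hκ0 : 0 < κ := by positivity
  have hfull := gfull h z hz0 E d hE
  rcases tendsto_of_monotone (L_mono (E ∩ RD z D)) with hinf | ⟨l, hl⟩
  · have hinf' : Tendsto (L (E ∩ RD z D)) atTop atTop := hinf
    filter_upwards [glaw_inf (μ := μ) (ℱ := ℱ) hA h z θ hθ hz hd E hinf'] with ω hω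
    have h4 := (hω.mul hfull).const_mul κ
    rw [one_mul] at h4
    refine h4.congr' ?_
    filter_upwards [hinf'.eventually_gt_atTop 0, logNat.eventually_gt_atTop 0] with n hn hn2
    rw [hκ]
    field_simp
  · have hb : ∀ n, L (E ∩ RD z D) n ≤ l := fun n => (L_mono (E ∩ RD z D)).ge_of_tendsto hl n
    filter_upwards [glaw_fin (μ := μ) (ℱ := ℱ) hA h z θ hθ hz hd E l hb] with ω hfinite
    have hd0 : d = 0 := tendsto_nhds_unique hfull (hl.div_atTop logNat)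
    rw [hd0, mul_zero]
    have h5 : ∀ n : ℕ, (MD D {k : ℕ | ω ∈ A k} E n : ℝ) ≤ {p | p.Prime ∧ p ∈ E ∧ ω ∈ A (D p)}.ncard := by
      intro n
      have : {p | p ≤ n ∧ p.Prime ∧ p ∈ E ∧ D p ∈ {k : ℕ | ω ∈ A k}}.ncard ≤
          {p | p.Prime ∧ p ∈ E ∧ ω ∈ A (D p)}.ncard :=
        Set.ncard_le_ncard (fun p hp => hp.2) hfinite
      exact_mod_cast this
    have h6 : Tendsto (fun n : ℕ => ({p | p.Prime ∧ p ∈ E ∧ ω ∈ A (D p)}.ncard : ℝ) / Real.log n) atTop (𝓝 0) :=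
      logNat.const_div_atTop _
    refine squeeze_zero (fun n => ?_) (fun n => ?_) h6
    · exact div_nonneg (Nat.cast_nonneg _) (Real.log_natCast_nonneg n)
    · exact div_le_div_of_nonneg_right (h5 n) (Real.log_natCast_nonneg n)

/-- sparse sequences: only finitely many terms are chosen -/
theorem gsparse (hA : ∀ n, MeasurableSet[ℱ n] (A n)) (z : ℕ → ℕ)
    (hd : ∀ᵐ ω ∂μ, ∀ ε : ℝ, 0 < ε → ∀ᶠ n : ℕ in atTop,
      |dens μ ℱ A n ω - rho1 z (n + 1)| ≤ ε * rho1 z (n + 1))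
    (v : ℕ → ℕ) (hv : StrictMono v) (hs : Summable (fun k => rho1 z (v k))) :
    ∀ᵐ ω ∂μ, {k | ω ∈ A (v k)}.Finite := by
  classical
  set T : Set ℕ := Set.range v with hT
  have hsum : ∀ x : ℕ, ∑ n ∈ Finset.range x, T.indicator (rho1 z) (n + 1) ≤ ∑' k, rho1 z (v k) := by
    intro x
    have e1 : ∑ n ∈ Finset.range x, T.indicator (rho1 z) (n + 1) =
        ∑ k ∈ (Finset.Icc 1 x).filter (fun k => k ∈ T), rho1 z k := by
      rw [sum_shift]
      refine Finset.sum_congr rfl fun n _ => ?_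
      by_cases h : n + 1 ∈ T
      · rw [Set.indicator_of_mem h, if_pos h]
      · rw [Set.indicator_of_notMem h, if_neg h]
    rw [e1]
    refine le_trans ?_ (hs.sum_le_tsum (Finset.range (x + 1)) fun k _ => (rho1_bounds z _).1)
    rw [← Finset.sum_image (f := rho1 z) (g := v) (fun p _ q _ h => hv.injective h)]
    refine Finset.sum_le_sum_of_subset_of_nonneg ?_ fun m _ _ => (rho1_bounds z m).1
    intro k hk
    rw [Finset.mem_filter, Finset.mem_Icc] at hk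
    obtain ⟨⟨hk1, hk2⟩, j, hj⟩ := hk
    rw [Finset.mem_image]
    refine ⟨j, ?_, hj⟩
    rw [Finset.mem_range]
    have := hv.le_apply (x := j)
    omega
  have h1 := fin_law (μ := μ) (ℱ := ℱ) hA (rho1 z) (fun n => (rho1_bounds z n).1) hd T _ hsum
  filter_upwards [h1] with ω hω
  obtain ⟨m1, hm1⟩ := eventually_atTop.1 hω
  refine (Set.finite_lt_nat m1).subset ?_
  intro k hk
  by_contra hlt
  simp only [Set.mem_ofPred_eq, not_lt] at hlt
  have h5 := hv.le_apply (x := k)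
  exact hm1 (v k) (by omega) ⟨k, rfl⟩ hk

end

end Pool.Agent.U310.Mers
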