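import Mathlib
import Pool.Agent.U310.Mers.Gen2

set_option autoImplicit false

/-! # Fibonacci and Lucas numbers (helper310) -/

open MeasureTheory Filter Topology

namespace Pool.Agent.U310.Mers

/-- the Lucas numbers -/
def luc : ℕ → ℕ
  | 0 => 2
  | 1 => 1
  | (n + 2) => luc (n + 1) + luc n

lemma luc_rec (n : ℕ) : luc (n + 2) = luc (n + 1) + luc n := rfl

lemma luc_pos (n : ℕ) : 1 ≤ luc n := by
  induction n using Nat.strong_induction_on with
  | _ n ih =>
    match n with
    | 0 => decide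
    | 1 => decide
    | (n + 2) =>
      rw [luc_rec]
      have := ih n (by omega)
      omega

lemma luc_mono : StrictMono (fun n => luc (n + 2)) := by
  refine strictMono_nat_of_lt_succ fun n => ?_
  show luc (n + 2) < luc (n + 1 + 2)
  rw [luc_rec (n + 1)]
  have h1 := luc_pos (n + 1)
  have h2 : luc (n + 1 + 1) = luc (n + 2) := rfl
  omega

/-- the roots of `X ^ 2 - X - 1` in characteristic `q` -/
lemma roots (q : ℕ) [Fact q.Prime] : ∃ (K : Type) (_ : Field K) (_ : CharP K q) (α : K), α ^ 2 = α + 1 ∧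
    α ^ (q ^ 2) = α ∧ (1 - α) ^ (q ^ 2) = 1 - α := by
  refine ⟨AlgebraicClosure (ZMod q), inferInstance, inferInstance, ?_⟩
  have hq : q.Prime := Fact.out
  obtain ⟨α, hα⟩ := IsAlgClosed.exists_root (Polynomial.X ^ 2 - Polynomial.X - 1 : Polynomial (AlgebraicClosure (ZMod q))) (by
    have : (Polynomial.X ^ 2 - Polynomial.X - 1 : Polynomial (AlgebraicClosure (ZMod q))).degree = 2 := by
      compute_degree!
    rw [this]
    norm_num)
  have h1 : α ^ 2 = α + 1 := by
    rw [Polynomial.IsRoot.def] at hα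
    simp only [Polynomial.eval_sub, Polynomial.eval_pow, Polynomial.eval_X, Polynomial.eval_one] at hα
    linear_combination hα
  have h2 : (α ^ q) ^ 2 = α ^ q + 1 := by
    rw [← pow_mul, mul_comm, pow_mul, h1, add_pow_char, one_pow]
  have h3 : (α ^ q - α) * (α ^ q - (1 - α)) = 0 := by
    linear_combination h2 - h1
  have hsub : (1 - α) ^ q = 1 - α ^ q := by rw [sub_pow_char, one_pow]
  have h4 : α ^ (q ^ 2) = α := by
    rw [pow_two, pow_mul]
    rcases mul_eq_zero.1 h3 with h | h
    · rw [sub_eq_zero.1 h, sub_eq_zero.1 h]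
    · rw [sub_eq_zero.1 h, hsub, sub_eq_zero.1 h]
      ring
  refine ⟨α, h1, h4, ?_⟩
  rw [sub_pow_char_pow, one_pow, h4]

/-- Binet in a field -/
lemma binet {K : Type} [Field K] (α : K) (h : α ^ 2 = α + 1) (n : ℕ) :
    (Nat.fib n : K) * (α - (1 - α)) = α ^ n - (1 - α) ^ n ∧ (luc n : K) = α ^ n + (1 - α) ^ n := by
  induction n using Nat.strong_induction_on with
  | _ n ih =>
    match n with
    | 0 =>
      refine ⟨by simp, ?_⟩
      simp only [luc]
      push_cast
      ring
    | 1 =>
      refine ⟨by simp, ?_⟩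
      simp only [luc]
      push_cast
      ring
    | (n + 2) =>
      obtain ⟨a1, a2⟩ := ih n (by omega)
      obtain ⟨b1, b2⟩ := ih (n + 1) (by omega)
      have h2 : (1 - α) ^ 2 = (1 - α) + 1 := by linear_combination h
      refine ⟨?_, ?_⟩
      · rw [Nat.fib_add_two]
        push_cast
        calc ((Nat.fib n : K) + Nat.fib (n + 1)) * (α - (1 - α)) =
            (Nat.fib n : K) * (α - (1 - α)) + (Nat.fib (n + 1) : K) * (α - (1 - α)) := by ring
          _ = (α ^ n - (1 - α) ^ n) + (α ^ (n + 1) - (1 - α) ^ (n + 1)) := by rw [a1, b1]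
          _ = α ^ n * (α + 1) - (1 - α) ^ n * ((1 - α) + 1) := by ring
          _ = α ^ n * α ^ 2 - (1 - α) ^ n * (1 - α) ^ 2 := by rw [h, h2]
          _ = α ^ (n + 2) - (1 - α) ^ (n + 2) := by ring
      · rw [luc_rec]
        push_cast
        rw [a2, b2]
        calc α ^ (n + 1) + (1 - α) ^ (n + 1) + (α ^ n + (1 - α) ^ n) =
            α ^ n * (α + 1) + (1 - α) ^ n * ((1 - α) + 1) := by ring
          _ = α ^ n * α ^ 2 + (1 - α) ^ n * (1 - α) ^ 2 := by rw [h, h2]
          _ = α ^ (n + 2) + (1 - α) ^ (n + 2) := by ring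

/-- from `p ∣ q ^ 2 - 1` -/
lemma pm_form {p q : ℕ} (hp : p.Prime) (hp5 : 5 ≤ p) (hq : q.Prime) (h : p ∣ q ^ 2 - 1) :
    ∃ k : ℕ, 1 ≤ k ∧ (q = 2 * k * p + 1 ∨ q = 2 * k * p - 1) := by
  have h1 : q ^ 2 - 1 = (q + 1) * (q - 1) := by
    have := Nat.sq_sub_sq q 1
    simpa using this
  rw [h1] at h
  have hq2 : q ≠ 2 := by
    rintro rfl
    have h2 : p ∣ 3 := by simpa using h
    have := Nat.le_of_dvd (by norm_num) h2
    omega
  have hqo : Odd q := hq.odd_of_ne_two hq2
  have hpo : Odd p := hp.odd_of_ne_two (by omega)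
  have hcop : Nat.Coprime 2 p := (Nat.coprime_two_left).2 hpo
  have hq3 := hq.two_le
  obtain ⟨t, ht⟩ := hqo
  rcases (Nat.Prime.dvd_mul hp).1 h with h2 | h2
  · have h6 : 2 * p ∣ q + 1 := hcop.mul_dvd_of_dvd_of_dvd ⟨t + 1, by omega⟩ h2
    obtain ⟨k, hk⟩ := h6
    refine ⟨k, ?_, Or.inr ?_⟩
    · rcases Nat.eq_zero_or_pos k with h7 | h7
      · subst h7; omega
      · exact h7
    · have : 2 * k * p = 2 * p * k := by ring
      omega
  · have h6 : 2 * p ∣ q - 1 := hcop.mul_dvd_of_dvd_of_dvd ⟨t, by omega⟩ h2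
    obtain ⟨k, hk⟩ := h6
    refine ⟨k, ?_, Or.inl ?_⟩
    · rcases Nat.eq_zero_or_pos k with h7 | h7
      · subst h7; omega
      · exact h7
    · have : 2 * k * p = 2 * p * k := by ring
      omega

/-- the prime factors of `F_p` and `V_p` -/
lemma fib_luc_fac (p : ℕ) (hp5 : 7 ≤ p) (hp : p.Prime) (q : ℕ) (hq : q.Prime)
    (hqd : q ∣ Nat.fib p ∨ q ∣ luc p) : ∃ k : ℕ, 1 ≤ k ∧ (q = 2 * k * p + 1 ∨ q = 2 * k * p - 1) := by
  have hqF : Fact q.Prime := ⟨hq⟩
  have hpF : Fact p.Prime := ⟨hp⟩
  obtain ⟨K, hK, hchar, α, h1, h2, h3⟩ := roots q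
  obtain ⟨b1, b2⟩ := binet α h1 p
  set β : K := 1 - α with hβ
  have hαβ : α * β = -1 := by
    rw [hβ]
    linear_combination -h1
  have hα0 : α ≠ 0 := by
    intro h
    rw [h, zero_mul] at hαβ
    have : (1 : K) = 0 := by linear_combination hαβ
    exact one_ne_zero this
  have hβ0 : β ≠ 0 := by
    intro h
    rw [h, mul_zero] at hαβ
    have : (1 : K) = 0 := by linear_combination hαβ
    exact one_ne_zero this
  apply pm_form hp (by omega) hq
  set x : K := α / β with hx
  have hx0 : x ≠ 0 := div_ne_zero hα0 hβ0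
  have hxq : x ^ (q ^ 2 - 1) = 1 := by
    have h4 : x ^ (q ^ 2) = x := by rw [hx, div_pow, h2, h3]
    have h5 : q ^ 2 = (q ^ 2 - 1) + 1 := by
      have : 1 ≤ q ^ 2 := Nat.one_le_pow _ _ hq.pos
      omega
    rw [h5, pow_succ] at h4
    exact mul_right_cancel₀ hx0 (by rw [h4, one_mul])
  have hsum : α + β = 1 := by rw [hβ]; ring
  rcases hqd with hqd | hqd
  · -- Fibonacci
    have h4 : (Nat.fib p : K) = 0 := (CharP.cast_eq_zero_iff K q _).2 hqd
    rw [h4, zero_mul] at b1
    have h5 : α ^ p = β ^ p := (sub_eq_zero.1 b1.symm)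
    have hxp : x ^ p = 1 := by rw [hx, div_pow, h5, div_self (pow_ne_zero _ hβ0)]
    have hx1 : x ≠ 1 := by
      intro h6
      have h7 : α = β := by
        rw [hx, div_eq_one_iff_eq hβ0] at h6
        exact h6
      -- characteristic five
      have h7' : 2 * α = 1 := by linear_combination hsum + h7
      have h8 : ((5 : ℕ) : K) = 0 := by
        push_cast
        linear_combination (2 * α - 1) * h7' - 4 * h1
      have h9 : q ∣ 5 := (CharP.cast_eq_zero_iff K q _).1 h8
      have h10 : q = 5 := (Nat.prime_dvd_prime_iff_eq hq (by norm_num)).1 h9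
      -- `5 ∣ F_p` only if `5 ∣ p`
      have h11 : 5 ∣ Nat.fib p := h10 ▸ hqd
      have h12 : 5 ∣ Nat.gcd (Nat.fib p) (Nat.fib 5) := Nat.dvd_gcd h11 (by decide)
      rw [← Nat.fib_gcd] at h12
      have h13 : Nat.gcd p 5 = 1 := by
        rw [Nat.Coprime.gcd_eq_one]
        exact (Nat.coprime_primes hp (by norm_num)).2 (by omega)
      rw [h13] at h12
      norm_num at h12
    have hord : orderOf x = p := orderOf_eq_prime hxp hx1
    rw [← hord]
    exact orderOf_dvd_of_pow_eq_one hxq
  · -- Lucas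
    have h4 : (luc p : K) = 0 := (CharP.cast_eq_zero_iff K q _).2 hqd
    rw [h4] at b2
    have h5 : α ^ p = -β ^ p := by linear_combination -b2
    have hxp : x ^ p = -1 := by
      rw [hx, div_pow, h5, neg_div, div_self (pow_ne_zero _ hβ0)]
    have hx2p : (x ^ 2) ^ p = 1 := by
      rw [← pow_mul, mul_comm, pow_mul, hxp]
      ring
    have hx1 : x ^ 2 ≠ 1 := by
      intro h6
      have h7 : (x - 1) * (x + 1) = 0 := by linear_combination h6
      rcases mul_eq_zero.1 h7 with h8 | h8
      · have h9 : x = 1 := sub_eq_zero.1 h8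
        rw [h9, one_pow] at hxp
        have h10 : α = β := by
          rw [hx, div_eq_one_iff_eq hβ0] at h9
          exact h9
        have h11 : (2 : K) = 0 := by linear_combination hxp
        have h12 : α + β = 0 := by
          rw [← h10]
          linear_combination α * h11
        rw [hsum] at h12
        exact one_ne_zero h12
      · have h9 : α = -β := by
          have h10 : x = -1 := by linear_combination h8
          rw [hx, div_eq_iff hβ0] at h10
          rw [h10]
          ring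
        rw [h9] at hsum
        have : (1 : K) = 0 := by linear_combination -hsum
        exact one_ne_zero this
    have hord : orderOf (x ^ 2) = p := orderOf_eq_prime hx2p hx1
    rw [← hord]
    apply orderOf_dvd_of_pow_eq_one
    rw [← pow_mul, mul_comm, pow_mul, hxq, one_pow]

/-- the growth -/
lemma lim_aux (D : ℕ → ℕ) (C r s : ℝ) (hC : 0 < C) (hr : 1 < r) (hs : |s / r| < 1)
    (hD : ∀ n, (D n : ℝ) = (r ^ n - s ^ n) / C ∨ (D n : ℝ) = (r ^ n + s ^ n) / C) :
    Tendsto (fun p : ℕ => Real.log (D p) / p) atTop (𝓝 (Real.log r)) := by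
  have hr0 : 0 < r := by linarith
  have hr2 : Tendsto (fun p : ℕ => |s / r| ^ p) atTop (𝓝 0) :=
    tendsto_pow_atTop_nhds_zero_of_lt_one (abs_nonneg _) hs
  have h7 : ∀ᶠ p : ℕ in atTop, |s / r| ^ p < 1 / 2 := hr2.eventually (gt_mem_nhds (by norm_num))
  -- bounds
  have hb : ∀ᶠ p : ℕ in atTop, Real.log r + Real.log (1 / (2 * C)) / p ≤ Real.log (D p) / p ∧
      Real.log (D p) / p ≤ Real.log r + Real.log (2 / C) / p := by
    filter_upwards [h7, eventually_ge_atTop 1] with p hp hp1
    have hp0 : (0 : ℝ) < p := by exact_mod_cast hp1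
    have hrp : 0 < r ^ p := by positivity
    have hsp : |s ^ p| ≤ r ^ p / 2 := by
      have e : |s ^ p| = |s / r| ^ p * r ^ p := by
        rw [abs_div, abs_of_pos hr0, div_pow, abs_pow]
        field_simp
      rw [e]
      nlinarith
    have hsp' := abs_le.1 hsp
    have hlow : r ^ p * (1 / (2 * C)) ≤ D p := by
      rcases hD p with h | h <;> rw [h, mul_one_div, div_le_div_iff₀ (by positivity) hC] <;> nlinarith
    have hup : (D p : ℝ) ≤ r ^ p * (2 / C) := by
      rcases hD p with h | h <;> rw [h, mul_div_assoc', div_le_div_iff_of_pos_right hC] <;> linarith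
    have hlow0 : 0 < r ^ p * (1 / (2 * C)) := by positivity
    have l1 := Real.log_le_log hlow0 hlow
    have l2 := Real.log_le_log (lt_of_lt_of_le hlow0 hlow) hup
    rw [Real.log_mul hrp.ne' (by positivity), Real.log_pow] at l1 l2
    constructor
    · rw [le_div_iff₀ hp0, add_mul, div_mul_cancel₀ _ hp0.ne']
      linarith
    · rw [div_le_iff₀ hp0, add_mul, div_mul_cancel₀ _ hp0.ne']
      linarith
  have t1 : Tendsto (fun p : ℕ => Real.log r + Real.log (1 / (2 * C)) / p) atTop (𝓝 (Real.log r)) := by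
    have := (tendsto_const_div_atTop_nhds_zero_nat (Real.log (1 / (2 * C)))).const_add (Real.log r)
    rwa [add_zero] at this
  have t2 : Tendsto (fun p : ℕ => Real.log r + Real.log (2 / C) / p) atTop (𝓝 (Real.log r)) := by
    have := (tendsto_const_div_atTop_nhds_zero_nat (Real.log (2 / C))).const_add (Real.log r)
    rwa [add_zero] at this
  exact tendsto_of_tendsto_of_tendsto_of_le_of_le' t1 t2 (hb.mono fun _ h => h.1) (hb.mono fun _ h => h.2)

lemma psi_phi : |Real.goldenConj / Real.goldenRatio| < 1 := by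
  have h1 := Real.goldenRatio_pos
  have h2 := Real.goldenConj_neg
  have h3 := Real.neg_one_lt_goldenConj
  have h4 := Real.one_lt_goldenRatio
  rw [abs_div, abs_of_pos h1, div_lt_one h1, abs_of_neg h2]
  linarith

lemma luc_real (n : ℕ) : (luc n : ℝ) = Real.goldenRatio ^ n + Real.goldenConj ^ n := by
  have h := (binet (K := ℝ) Real.goldenRatio (by rw [Real.goldenRatio_sq]) n).2
  rw [h]
  congr 2
  have := Real.goldenRatio_add_goldenConj
  linarith

/-- the Fibonacci numbers -/
theorem fib_expo : Expo Nat.fib (Real.log Real.goldenRatio) where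
  pos := Real.log_pos Real.one_lt_goldenRatio
  one := by decide
  mono := Nat.fib_add_two_strictMono
  lim := lim_aux Nat.fib (√5) Real.goldenRatio Real.goldenConj (by positivity) Real.one_lt_goldenRatio psi_phi
    (fun n => Or.inl (Real.coe_fib_eq n))
  fac := ⟨7, fun p hp hpp q hq hqd => fib_luc_fac p hp hpp q hq (Or.inl hqd)⟩

/-- the Lucas numbers -/
theorem luc_expo : Expo luc (Real.log Real.goldenRatio) where
  pos := Real.log_pos Real.one_lt_goldenRatio
  one := by decide
  mono := luc_mono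
  lim := lim_aux luc 1 Real.goldenRatio Real.goldenConj one_pos Real.one_lt_goldenRatio psi_phi
    (fun n => Or.inr (by rw [luc_real, div_one]))
  fac := ⟨7, fun p hp hpp q hq hqd => fib_luc_fac p hp hpp q hq (Or.inr hqd)⟩

end Pool.Agent.U310.Mers
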