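import Mathlib
import Pool.Agent.U310.Mers.Gen2

set_option autoImplicit false

/-! # Doubly exponential sequences (helper310) -/

open MeasureTheory Filter Topology

namespace Pool.Agent.U310.Mers

lemma sparse_summable (z : ℕ → ℕ) (θ : ℝ) (hθ : 0 < θ)
    (hz : Tendsto (fun m : ℕ => Real.log (z m) / Real.log (Real.log m)) atTop (𝓝 θ))
    (v : ℕ → ℕ) (hv : Tendsto v atTop atTop) (c : ℝ) (hc : 0 < c) (h : ∀ᶠ k : ℕ in atTop, c * 2 ^ k ≤ Real.log (v k)) :
    Summable (fun k => rho1 z (v k)) := by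
  have h1 := W_loglog z θ hθ hz
  have h2 : Tendsto (fun m : ℕ => Real.log (Real.log m) / √(Real.log m)) atTop (𝓝 0) := by
    have h3 : Tendsto (fun x : ℝ => Real.log x / √x) atTop (𝓝 0) := by
      have := (isLittleO_log_rpow_atTop (r := 1 / 2) (by norm_num)).tendsto_div_nhds_zero
      refine this.congr fun x => ?_
      rw [Real.sqrt_eq_rpow]
    exact h3.comp logNat
  have h3 := h1.mul h2
  rw [mul_zero] at h3
  have h4 : ∀ᶠ m : ℕ in atTop, W (z m) / Real.log (Real.log m) * (Real.log (Real.log m) / √(Real.log m)) < 1 :=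
    h3.eventually (gt_mem_nhds one_pos)
  have h5 : ∀ᶠ m : ℕ in atTop, rho1 z m ≤ 1 / √(Real.log m) := by
    filter_upwards [h4, loglogNat.eventually_gt_atTop 0, logNat.eventually_gt_atTop 0] with m hm hm2 hm3
    rw [div_mul_div_cancel₀ hm2.ne'] at hm
    have hs : 0 < √(Real.log m) := Real.sqrt_pos.2 hm3
    unfold rho1
    split_ifs
    · refine (min_le_right _ _).trans ?_
      calc W (z m) / Real.log m = (W (z m) / √(Real.log m)) / √(Real.log m) := by
            rw [div_div, Real.mul_self_sqrt hm3.le]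
        _ ≤ 1 / √(Real.log m) := by gcongr
    · positivity
  have hr : (1 / √2 : ℝ) < 1 := by
    rw [div_lt_one (by positivity)]
    exact Real.lt_sqrt_of_sq_lt (by norm_num)
  have hgeo : Summable (fun k : ℕ => (1 / √2 : ℝ) ^ k) := summable_geometric_of_lt_one (by positivity) hr
  refine summable_of_isBigO_nat hgeo ?_
  rw [Asymptotics.isBigO_iff]
  refine ⟨1 / √c, ?_⟩
  filter_upwards [hv.eventually h5, h] with k hk hk2
  have hpos : 0 < c * 2 ^ k := by positivity
  rw [Real.norm_eq_abs, abs_of_nonneg (rho1_bounds z _).1, Real.norm_eq_abs, abs_of_nonneg (by positivity)]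
  calc rho1 z (v k) ≤ 1 / √(Real.log (v k)) := hk
    _ ≤ 1 / √(c * 2 ^ k) := by
      apply one_div_le_one_div_of_le (Real.sqrt_pos.2 hpos)
      exact Real.sqrt_le_sqrt hk2
    _ = 1 / √c * (1 / √2) ^ k := by
      rw [Real.sqrt_mul hc.le, one_div_pow, Real.sqrt_eq_rpow (2 ^ k), ← Real.rpow_natCast 2 k, ← Real.rpow_mul (by norm_num),
        Real.sqrt_eq_rpow 2, ← Real.rpow_natCast, ← Real.rpow_mul (by norm_num)]
      rw [mul_comm (k : ℝ) (1 / 2)]
      field_simp

end Pool.Agent.U310.Mers
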