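import Mathlib
import Pool.Agent.U310.Mers.Gen2

set_option autoImplicit false
set_option linter.unusedSectionVars false

/-! # Two sequences at once (helper310) -/

open MeasureTheory Filter Topology

namespace Pool.Agent.U310.Mers

open Pool.Agent.R528.RM

section
variable {Ω : Type} {m0 : MeasurableSpace Ω} {μ : Measure Ω} [IsProbabilityMeasure μ]
  {ℱ : Filtration ℕ m0} {A : ℕ → Set Ω}

/-- the convergence half of the Borel-Cantelli lemma for two sequences -/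
theorem gpair (hA : ∀ n, MeasurableSet[ℱ n] (A n)) (ρ : ℕ → ℝ) (hρ : ∀ n, 0 ≤ ρ n)
    (hd : ∀ᵐ ω ∂μ, ∀ ε : ℝ, 0 < ε → ∀ᶠ n : ℕ in atTop, |dens μ ℱ A n ω - ρ (n + 1)| ≤ ε * ρ (n + 1))
    (u v : ℕ → ℕ) (hu : Tendsto u atTop atTop) (hv : Tendsto v atTop atTop) (huv : ∀ᶠ k in atTop, u k ≠ v k)
    (hs : Summable (fun k => ρ (u k) * ρ (v k))) :
    ∀ᵐ ω ∂μ, {k | ω ∈ A (u k) ∧ ω ∈ A (v k)}.Finite := by
  classical
  set V := VR μ ℱ A ρ with hV
  have hVm : ∀ n, MeasurableSet[ℱ n] (V n) := fun n => VR_meas ρ n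
  -- eventually no violation
  have h1 : ∀ᵐ ω ∂μ, ∃ N₀ : ℕ, ∀ m, N₀ ≤ m → ω ∉ V m := by
    filter_upwards [hd] with ω hω
    obtain ⟨N₀, hN₀⟩ := eventually_atTop.1 (hω 1 one_pos)
    refine ⟨N₀, fun m hm hmV => ?_⟩
    have h2 := (abs_le.1 (hN₀ m hm)).2
    simp only [hV, VR, Set.mem_ofPred_eq] at hmV
    linarith
  -- Borel-Cantelli on the event of no violation
  have h2 : ∀ N₀ : ℕ, ∀ᵐ ω ∂μ, ∀ᶠ k in atTop,
      ω ∉ NW V N₀ (max (u k) (v k)) ∩ (A (u k) ∩ A (v k)) := by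
    intro N₀
    apply ae_eventually_notMem
    have hev : ∀ᶠ k in atTop, μ (NW V N₀ (max (u k) (v k)) ∩ (A (u k) ∩ A (v k))) ≤
        ENNReal.ofReal (4 * (ρ (u k) * ρ (v k))) := by
      filter_upwards [huv, hu.eventually_ge_atTop (N₀ + 1), hv.eventually_ge_atTop (N₀ + 1)] with k hk1 hk2 hk3
      have h3 := YY_exp' (μ := μ) (ℱ := ℱ) (A := A) hA ρ hρ (fun (b : Bool) n => if b then u n else v n)
        Finset.univ k N₀ (max (u k) (v k))
        (by
          intro i _ j _ hij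
          cases i <;> cases j <;> simp at hij ⊢
          · exact hk1 hij.symm
          · exact hk1 hij)
        (by
          intro i _
          cases i <;> simp <;> omega)
        (by
          intro i _
          cases i <;> simp <;> omega)
      have e1 : {ω | ∀ i ∈ (Finset.univ : Finset Bool), ω ∈ A (if i then u k else v k)} = A (u k) ∩ A (v k) := by
        ext ω
        simp [and_comm]
      have e2 : ∏ i ∈ (Finset.univ : Finset Bool), 2 * ρ (if i then u k else v k) = 4 * (ρ (u k) * ρ (v k)) := by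
        simp
        ring
      rw [e1, e2] at h3
      rw [← ENNReal.ofReal_toReal (measure_ne_top μ (NW V N₀ (max (u k) (v k)) ∩ (A (u k) ∩ A (v k))))]
      exact ENNReal.ofReal_le_ofReal h3
    obtain ⟨k0, hk0⟩ := eventually_atTop.1 hev
    have hle : ∀ k, μ (NW V N₀ (max (u k) (v k)) ∩ (A (u k) ∩ A (v k))) ≤
        (if k < k0 then 1 else 0) + ENNReal.ofReal (4 * (ρ (u k) * ρ (v k))) := by
      intro k
      split_ifs with h
      · exact prob_le_one.trans (le_self_add)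
      · rw [zero_add]
        exact hk0 k (by omega)
    refine ne_top_of_le_ne_top ?_ (ENNReal.tsum_le_tsum hle)
    rw [ENNReal.tsum_add]
    refine ENNReal.add_ne_top.2 ⟨?_, ?_⟩
    · rw [tsum_eq_sum (s := Finset.range k0)]
      · exact ENNReal.sum_ne_top.2 fun k _ => by split_ifs <;> simp
      · intro k hk
        rw [Finset.mem_range] at hk
        rw [if_neg hk]
    · exact (hs.mul_left 4).tsum_ofReal_ne_top
  have h3 : ∀ᵐ ω ∂μ, ∀ N₀ : ℕ, ∀ᶠ k in atTop,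
      ω ∉ NW V N₀ (max (u k) (v k)) ∩ (A (u k) ∩ A (v k)) := ae_all_iff.2 h2
  filter_upwards [h1, h3] with ω hω1 hω3
  obtain ⟨N₀, hN₀⟩ := hω1
  obtain ⟨k1, hk1⟩ := eventually_atTop.1 (hω3 N₀)
  refine (Set.finite_lt_nat k1).subset ?_
  rintro k ⟨ha, hb⟩
  by_contra hlt
  simp only [Set.mem_ofPred_eq, not_lt] at hlt
  exact hk1 k hlt ⟨fun m hm _ => hN₀ m hm, ha, hb⟩

/-- two exponential sequences with different terms: only finitely many indices are good for both -/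
theorem gtwo (hA : ∀ n, MeasurableSet[ℱ n] (A n)) {D D' : ℕ → ℕ} {c c' : ℝ} (h : Expo D c) (h' : Expo D' c')
    (z : ℕ → ℕ) (θ : ℝ) (hθ : 0 < θ)
    (hz : Tendsto (fun m : ℕ => Real.log (z m) / Real.log (Real.log m)) atTop (𝓝 θ))
    (hd : ∀ᵐ ω ∂μ, ∀ ε : ℝ, 0 < ε → ∀ᶠ n : ℕ in atTop,
      |dens μ ℱ A n ω - rho1 z (n + 1)| ≤ ε * rho1 z (n + 1))
    (hne : ∀ᶠ p in atTop, D p ≠ D' p) :
    ∀ᵐ ω ∂μ, {p | ω ∈ A (D p) ∧ ω ∈ A (D' p)}.Finite := by
  refine gpair hA (rho1 z) (fun n => (rho1_bounds z n).1) hd D D' h.tendsto h'.tendsto hne ?_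
  -- `rho1 z (D p) ≤ p ^ (-3/4)`
  have key : ∀ {D : ℕ → ℕ} {c : ℝ}, Expo D c → ∀ᶠ p : ℕ in atTop, rho1 z (D p) ≤ (p : ℝ) ^ (-(3 / 4) : ℝ) := by
    intro D c h
    have h1 := (W_loglog z θ hθ hz).comp h.tendsto
    have h3 := (h1.mul h.loglog).mul (h.lim.inv₀ h.pos.ne')
    have h4 : Tendsto (fun p : ℕ => Real.log p / (p : ℝ) ^ (1 / 4 : ℝ)) atTop (𝓝 0) :=
      ((isLittleO_log_rpow_atTop (r := 1 / 4) (by norm_num)).tendsto_div_nhds_zero).comp tendsto_natCast_atTop_atTop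
    have h5 := h3.mul h4
    rw [mul_zero] at h5
    have h6 := h5.eventually (gt_mem_nhds one_pos)
    filter_upwards [h6, (loglogNat.comp h.tendsto).eventually_gt_atTop 0, h.log_tendsto.eventually_gt_atTop 0,
      eventually_ge_atTop 2] with p hp hp1 hp2 hp3
    simp only [Function.comp] at hp hp1
    have hp0 : (0 : ℝ) < p := by exact_mod_cast (by omega : 0 < p)
    have hL : 0 < Real.log p := Real.log_pos (by exact_mod_cast (by omega : 1 < p))
    have e : W (z (D p)) / Real.log (Real.log (D p)) * (Real.log (Real.log (D p)) / Real.log p) *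
        (Real.log (D p) / p)⁻¹ * (Real.log p / (p : ℝ) ^ (1 / 4 : ℝ)) =
        W (z (D p)) / Real.log (D p) * (p : ℝ) ^ (3 / 4 : ℝ) := by
      have h7 : (p : ℝ) = (p : ℝ) ^ (3 / 4 : ℝ) * (p : ℝ) ^ (1 / 4 : ℝ) := by
        rw [← Real.rpow_add hp0]
        norm_num
      have h8 : (0 : ℝ) < (p : ℝ) ^ (1 / 4 : ℝ) := Real.rpow_pos_of_pos hp0 _
      field_simp
      rw [mul_assoc, mul_comm ((p : ℝ) ^ (1 / 4 : ℝ)), ← h7]
    rw [e] at hp
    have h9 : (0 : ℝ) < (p : ℝ) ^ (3 / 4 : ℝ) := Real.rpow_pos_of_pos hp0 _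
    have h10 : W (z (D p)) / Real.log (D p) ≤ (p : ℝ) ^ (-(3 / 4) : ℝ) := by
      rw [Real.rpow_neg hp0.le, ← one_div, le_div_iff₀ h9]
      exact hp.le
    unfold rho1
    split_ifs
    · exact (min_le_right _ _).trans h10
    · positivity
  have hsum : Summable (fun p : ℕ => (p : ℝ) ^ (-(3 / 2) : ℝ)) := Real.summable_nat_rpow.2 (by norm_num)
  refine summable_of_isBigO_nat hsum ?_
  rw [Asymptotics.isBigO_iff]
  refine ⟨1, ?_⟩
  filter_upwards [key h, key h', eventually_ge_atTop 1] with p h1 h2 h3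
  have hp0 : (0 : ℝ) < p := by exact_mod_cast h3
  have e1 := (rho1_bounds z (D p)).1
  have e2 := (rho1_bounds z (D' p)).1
  rw [Real.norm_eq_abs, abs_of_nonneg (mul_nonneg e1 e2), Real.norm_eq_abs, abs_of_nonneg (by positivity), one_mul]
  calc rho1 z (D p) * rho1 z (D' p) ≤ (p : ℝ) ^ (-(3 / 4) : ℝ) * (p : ℝ) ^ (-(3 / 4) : ℝ) := by gcongr
    _ = (p : ℝ) ^ (-(3 / 2) : ℝ) := by
      rw [← Real.rpow_add hp0]
      norm_num

end

end Pool.Agent.U310.Mers
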