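import Mathlib
import Pool.Agent.U310.Mers.Fib

set_option autoImplicit false

/-! # The numbers `X_n + Y_n √2 = (1 + √2) ^ n` (helper310) -/

open MeasureTheory Filter Topology

namespace Pool.Agent.U310.Mers

/-- `(X_n, Y_n)` with `X_n + Y_n √2 = (1 + √2) ^ n` -/
def pell : ℕ → ℕ × ℕ
  | 0 => (1, 0)
  | (n + 1) => ((pell n).1 + 2 * (pell n).2, (pell n).1 + (pell n).2)

/-- `X_n` -/
def PX (n : ℕ) : ℕ := (pell n).1
/-- `Y_n` -/
def PY (n : ℕ) : ℕ := (pell n).2

lemma PX_succ (n : ℕ) : PX (n + 1) = PX n + 2 * PY n := rfl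
lemma PY_succ (n : ℕ) : PY (n + 1) = PX n + PY n := rfl

lemma PX_pos (n : ℕ) : 1 ≤ PX n := by
  induction n with
  | zero => exact le_refl 1
  | succ n ih => rw [PX_succ]; omega

lemma PY_pos (n : ℕ) : 1 ≤ PY (n + 1) := by
  rw [PY_succ]
  have := PX_pos n
  omega

lemma PX_mono : StrictMono (fun n => PX (n + 2)) := by
  refine strictMono_nat_of_lt_succ fun n => ?_
  show PX (n + 2) < PX (n + 2 + 1)
  rw [PX_succ (n + 2)]
  have := PY_pos (n + 1)
  have h : PY (n + 1 + 1) = PY (n + 2) := rfl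
  omega

lemma PY_mono : StrictMono (fun n => PY (n + 2)) := by
  refine strictMono_nat_of_lt_succ fun n => ?_
  show PY (n + 2) < PY (n + 2 + 1)
  rw [PY_succ (n + 2)]
  have := PX_pos (n + 2)
  omega

lemma PX_odd (n : ℕ) : Odd (PX n) := by
  induction n with
  | zero => exact odd_one
  | succ n ih =>
    rw [PX_succ]
    exact ih.add_even ⟨PY n, by ring⟩

lemma PY_odd (n : ℕ) : Odd (PY (2 * n + 1)) ∧ Even (PY (2 * n)) := by
  induction n with
  | zero => exact ⟨odd_one, Even.zero⟩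
  | succ n ih =>
    have e1 : PY (2 * (n + 1)) = PX (2 * n + 1) + PY (2 * n + 1) := PY_succ (2 * n + 1)
    have h1 : Even (PY (2 * (n + 1))) := by
      rw [e1]
      exact (PX_odd _).add_odd ih.1
    refine ⟨?_, h1⟩
    rw [PY_succ]
    exact (PX_odd _).add_even h1

/-- the roots of `X ^ 2 - 2 X - 1` in characteristic `q` -/
lemma roots2 (q : ℕ) [Fact q.Prime] : ∃ (K : Type) (_ : Field K) (_ : CharP K q) (α : K), α ^ 2 = 2 * α + 1 ∧
    α ^ (q ^ 2) = α ∧ (2 - α) ^ (q ^ 2) = 2 - α := by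
  refine ⟨AlgebraicClosure (ZMod q), inferInstance, inferInstance, ?_⟩
  have hq : q.Prime := Fact.out
  obtain ⟨α, hα⟩ := IsAlgClosed.exists_root (Polynomial.X ^ 2 - 2 * Polynomial.X - 1 : Polynomial (AlgebraicClosure (ZMod q))) (by
    have : (Polynomial.X ^ 2 - 2 * Polynomial.X - 1 : Polynomial (AlgebraicClosure (ZMod q))) =
      Polynomial.X ^ 2 + Polynomial.C (-2) * Polynomial.X + Polynomial.C (-1) := by
        rw [map_neg, map_neg, map_one]
        have : (Polynomial.C 2 : Polynomial (AlgebraicClosure (ZMod q))) = 2 := rfl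
        rw [this]
        ring
    rw [this]
    have h2 : (Polynomial.X ^ 2 + Polynomial.C (-2) * Polynomial.X + Polynomial.C (-1) :
        Polynomial (AlgebraicClosure (ZMod q))).degree = 2 := by
      compute_degree!
    rw [h2]
    norm_num)
  have h1 : α ^ 2 = 2 * α + 1 := by
    rw [Polynomial.IsRoot.def] at hα
    simp only [Polynomial.eval_sub, Polynomial.eval_mul, Polynomial.eval_pow, Polynomial.eval_X,
      Polynomial.eval_one, Polynomial.eval_ofNat] at hα
    linear_combination hα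
  have h20 : ((2 : AlgebraicClosure (ZMod q))) ^ q = 2 := by
    have h := add_pow_char (p := q) (1 : AlgebraicClosure (ZMod q)) 1
    rw [one_pow, one_add_one_eq_two] at h
    exact h
  have h2 : (α ^ q) ^ 2 = 2 * α ^ q + 1 := by
    rw [← pow_mul, mul_comm, pow_mul, h1, add_pow_char, one_pow, mul_pow, h20]
  have h3 : (α ^ q - α) * (α ^ q - (2 - α)) = 0 := by
    linear_combination h2 - h1
  have hsub : (2 - α) ^ q = 2 - α ^ q := by rw [sub_pow_char, h20]
  have h4 : α ^ (q ^ 2) = α := by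
    rw [pow_two, pow_mul]
    rcases mul_eq_zero.1 h3 with h | h
    · rw [sub_eq_zero.1 h, sub_eq_zero.1 h]
    · rw [sub_eq_zero.1 h, hsub, sub_eq_zero.1 h]
      ring
  refine ⟨α, h1, h4, ?_⟩
  have h5 : (2 : AlgebraicClosure (ZMod q)) ^ (q ^ 2) = 2 := by
    rw [pow_two, pow_mul, h20, h20]
  rw [sub_pow_char_pow, h5, h4]

/-- Binet in a field -/
lemma binet2 {K : Type} [Field K] (α : K) (h : α ^ 2 = 2 * α + 1) (n : ℕ) :
    (PY n : K) * (α - (2 - α)) = α ^ n - (2 - α) ^ n ∧ 2 * (PX n : K) = α ^ n + (2 - α) ^ n := by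
  induction n with
  | zero =>
    refine ⟨?_, ?_⟩
    · show (((pell 0).2 : ℕ) : K) * _ = _
      simp [pell]
    · show 2 * (((pell 0).1 : ℕ) : K) = _
      simp only [pell]
      push_cast
      ring
  | succ n ih =>
    obtain ⟨a1, a2⟩ := ih
    have h2 : (2 - α) ^ 2 = 2 * (2 - α) + 1 := by linear_combination h
    refine ⟨?_, ?_⟩
    · rw [PY_succ]
      push_cast
      -- `(X + Y)(α - β) = α^(n+1) - β^(n+1)`
      have e1 : ((PX n : K) + PY n) * (α - (2 - α)) =
          (2 * (PX n : K)) * (α - 1) + (PY n : K) * (α - (2 - α)) := by ring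
      rw [e1, a2, a1]
      ring
    · rw [PX_succ]
      push_cast
      have e2 : (α - (2 - α)) * (α - 1) = 4 := by linear_combination 2 * h
      have e1 : 2 * ((PX n : K) + 2 * PY n) = 2 * (PX n : K) + (PY n : K) * ((α - (2 - α)) * (α - 1)) := by
        rw [e2]
        ring
      rw [e1, a2, ← mul_assoc, a1]
      ring

/-- the prime factors of `X_p` and `Y_p` -/
lemma pell_fac (p : ℕ) (hp5 : 5 ≤ p) (hp : p.Prime) (q : ℕ) (hq : q.Prime)
    (hqd : q ∣ PY p ∨ q ∣ PX p) : ∃ k : ℕ, 1 ≤ k ∧ (q = 2 * k * p + 1 ∨ q = 2 * k * p - 1) := by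
  have hqF : Fact q.Prime := ⟨hq⟩
  have hpF : Fact p.Prime := ⟨hp⟩
  obtain ⟨K, hK, hchar, α, h1, h2, h3⟩ := roots2 q
  obtain ⟨b1, b2⟩ := binet2 α h1 p
  set β : K := 2 - α with hβ
  have hq2 : q ≠ 2 := by
    rintro rfl
    obtain ⟨t, ht⟩ := hp.odd_of_ne_two (by omega)
    rcases hqd with h | h
    · have h4 := (PY_odd t).1
      rw [← ht] at h4
      exact (Nat.not_even_iff_odd.2 h4) (even_iff_two_dvd.2 h)
    · exact (Nat.not_even_iff_odd.2 (PX_odd p)) (even_iff_two_dvd.2 h)
  have h20 : (2 : K) ≠ 0 := by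
    intro h
    have h8 : ((2 : ℕ) : K) = 0 := by
      push_cast
      exact h
    have h9 : q ∣ 2 := (CharP.cast_eq_zero_iff K q _).1 h8
    exact hq2 ((Nat.prime_dvd_prime_iff_eq hq Nat.prime_two).1 h9)
  have hαβ : α * β = -1 := by
    rw [hβ]
    linear_combination -h1
  have hα0 : α ≠ 0 := by
    intro h
    rw [h, zero_mul] at hαβ
    have : (1 : K) = 0 := by linear_combination hαβ
    exact one_ne_zero this
  have hβ0 : β ≠ 0 := by
    intro h
    rw [h, mul_zero] at hαβ
    have : (1 : K) = 0 := by linear_combination hαβ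
    exact one_ne_zero this
  apply pm_form hp (by omega) hq
  set x : K := α / β with hx
  have hx0 : x ≠ 0 := div_ne_zero hα0 hβ0
  have hxq : x ^ (q ^ 2 - 1) = 1 := by
    have h4 : x ^ (q ^ 2) = x := by rw [hx, div_pow, h2, h3]
    have h5 : q ^ 2 = (q ^ 2 - 1) + 1 := by
      have : 1 ≤ q ^ 2 := Nat.one_le_pow _ _ hq.pos
      omega
    rw [h5, pow_succ] at h4
    exact mul_right_cancel₀ hx0 (by rw [h4, one_mul])
  have hsum : α + β = 2 := by rw [hβ]; ring
  rcases hqd with hqd | hqd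
  · have h4 : (PY p : K) = 0 := (CharP.cast_eq_zero_iff K q _).2 hqd
    rw [h4, zero_mul] at b1
    have h5 : α ^ p = β ^ p := (sub_eq_zero.1 b1.symm)
    have hxp : x ^ p = 1 := by rw [hx, div_pow, h5, div_self (pow_ne_zero _ hβ0)]
    have hx1 : x ≠ 1 := by
      intro h6
      have h7 : α = β := by
        rw [hx, div_eq_one_iff_eq hβ0] at h6
        exact h6
      have h7' : 2 * (α - 1) = 0 := by linear_combination hsum + h7
      rcases mul_eq_zero.1 h7' with h8 | h8
      · exact h20 h8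
      · have h9 : (2 : K) = 0 := by linear_combination (α - 1) * h8 - h1
        exact h20 h9
    have hord : orderOf x = p := orderOf_eq_prime hxp hx1
    rw [← hord]
    exact orderOf_dvd_of_pow_eq_one hxq
  · have h4 : (PX p : K) = 0 := (CharP.cast_eq_zero_iff K q _).2 hqd
    rw [h4, mul_zero] at b2
    have h5 : α ^ p = -β ^ p := by linear_combination -b2
    have hxp : x ^ p = -1 := by
      rw [hx, div_pow, h5, neg_div, div_self (pow_ne_zero _ hβ0)]
    have hx2p : (x ^ 2) ^ p = 1 := by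
      rw [← pow_mul, mul_comm, pow_mul, hxp]
      ring
    have hx1 : x ^ 2 ≠ 1 := by
      intro h6
      have h7 : (x - 1) * (x + 1) = 0 := by linear_combination h6
      rcases mul_eq_zero.1 h7 with h8 | h8
      · have h9 : x = 1 := sub_eq_zero.1 h8
        rw [h9, one_pow] at hxp
        exact h20 (by linear_combination hxp)
      · have h9 : α = -β := by
          have h10 : x = -1 := by linear_combination h8
          rw [hx, div_eq_iff hβ0] at h10
          rw [h10]
          ring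
        rw [h9] at hsum
        exact h20 (by linear_combination -hsum)
    have hord : orderOf (x ^ 2) = p := orderOf_eq_prime hx2p hx1
    rw [← hord]
    apply orderOf_dvd_of_pow_eq_one
    rw [← pow_mul, mul_comm, pow_mul, hxq, one_pow]

lemma sq2 : (√2 : ℝ) ^ 2 = 2 := Real.sq_sqrt (by norm_num)

lemma pell_ratio : |(1 - √2) / (1 + √2)| < 1 := by
  have h1 : (1 : ℝ) < √2 := by
    rw [Real.lt_sqrt (by norm_num)]
    norm_num
  have h2 : (0 : ℝ) < 1 + √2 := by linarith
  rw [abs_div, abs_of_pos h2, div_lt_one h2, abs_of_neg (by linarith)]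
  linarith

lemma pell_real (n : ℕ) : (PX n : ℝ) = ((1 + √2) ^ n + (1 - √2) ^ n) / 2 ∧
    (PY n : ℝ) = ((1 + √2) ^ n - (1 - √2) ^ n) / (2 * √2) := by
  have h := binet2 (K := ℝ) (1 + √2) (by linear_combination sq2) n
  have e : (2 : ℝ) - (1 + √2) = 1 - √2 := by ring
  rw [e] at h
  obtain ⟨h1, h2⟩ := h
  have h3 : (0 : ℝ) < √2 := Real.sqrt_pos.2 (by norm_num)
  constructor
  · linarith
  · rw [eq_div_iff (by positivity)]
    linarith

lemma one_lt_r : (1 : ℝ) < 1 + √2 := by
  have h3 : (0 : ℝ) < √2 := Real.sqrt_pos.2 (by norm_num)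
  linarith

/-- the numbers `X_n` -/
theorem PX_expo : Expo PX (Real.log (1 + √2)) where
  pos := Real.log_pos one_lt_r
  one := by decide
  mono := PX_mono
  lim := lim_aux PX 2 (1 + √2) (1 - √2) (by norm_num) one_lt_r pell_ratio
    (fun n => Or.inr (pell_real n).1)
  fac := ⟨5, fun p hp hpp q hq hqd => pell_fac p hp hpp q hq (Or.inr hqd)⟩

/-- the numbers `Y_n` -/
theorem PY_expo : Expo PY (Real.log (1 + √2)) where
  pos := Real.log_pos one_lt_r
  one := by decide
  mono := PY_mono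
  lim := lim_aux PY (2 * √2) (1 + √2) (1 - √2) (by positivity) one_lt_r pell_ratio
    (fun n => Or.inl (pell_real n).2)
  fac := ⟨5, fun p hp hpp q hq hqd => pell_fac p hp hpp q hq (Or.inl hqd)⟩

lemma PX_ne_PY (n : ℕ) (hn : 1 ≤ n) : n ≠ 1 → PX n ≠ PY n := by
  intro h1 h2
  obtain ⟨m, rfl⟩ : ∃ m, n = m + 2 := ⟨n - 2, by omega⟩
  have e1 : PX (m + 2) = PX (m + 1) + 2 * PY (m + 1) := PX_succ (m + 1)
  have e2 : PY (m + 2) = PX (m + 1) + PY (m + 1) := PY_succ (m + 1)
  have := PY_pos m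
  omega

end Pool.Agent.U310.Mers
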