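import Mathlib
import Pool.Agent.U310.Mers.Gen

set_option autoImplicit false

/-! # The numbers `(a ^ p - b ^ p) / (a - b)` (helper310) -/

open MeasureTheory Filter Topology

namespace Pool.Agent.U310.Mers

/-- the numbers `(a ^ p - b ^ p) / (a - b)` -/
def DP (a b : ℤ) (p : ℕ) : ℕ := ((a ^ p - b ^ p) / (a - b)).toNat

section
variable {a b : ℤ}

lemma DP_cast (ha : 1 < a) (h1 : -a < b) (h2 : b < a) (p : ℕ) : ((DP a b p : ℕ) : ℤ) * (a - b) = a ^ p - b ^ p := by
  have hab : |b| ≤ a := abs_le.2 ⟨h1.le, h2.le⟩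
  have h3 : b ^ p ≤ a ^ p := by
    calc b ^ p ≤ |b ^ p| := le_abs_self _
      _ = |b| ^ p := abs_pow _ _
      _ ≤ a ^ p := pow_le_pow_left₀ (abs_nonneg b) hab p
  have h4 : 0 ≤ (a ^ p - b ^ p) / (a - b) := Int.ediv_nonneg (by linarith) (by linarith)
  unfold DP
  rw [Int.toNat_of_nonneg h4]
  exact Int.ediv_mul_cancel (sub_dvd_pow_sub_pow a b p)

lemma DP_two (ha : 1 < a) (h1 : -a < b) (h2 : b < a) : 1 ≤ DP a b 2 := by
  have h := DP_cast ha h1 h2 2
  have h3 : (a - b) ≠ 0 := by intro h; linarith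
  have h4 : ((DP a b 2 : ℕ) : ℤ) = a + b := by
    apply mul_right_cancel₀ h3
    rw [h]
    ring
  have : (1 : ℤ) ≤ ((DP a b 2 : ℕ) : ℤ) := by rw [h4]; linarith
  exact_mod_cast this

lemma DP_mono (ha : 1 < a) (h1 : -a < b) (h2 : b < a) : StrictMono (fun n => DP a b (n + 2)) := by
  refine strictMono_nat_of_lt_succ fun n => ?_
  have hpos : (0 : ℤ) < a - b := by linarith
  have hab : |b| ≤ a - 1 := abs_le.2 ⟨by linarith, by linarith⟩
  have h3 : b ^ (n + 2) * (b - 1) < a ^ (n + 2) * (a - 1) := by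
    have e1 : b ^ (n + 2) * (b - 1) ≤ |b| ^ (n + 2) * (|b| + 1) := by
      calc b ^ (n + 2) * (b - 1) ≤ |b ^ (n + 2) * (b - 1)| := le_abs_self _
        _ = |b| ^ (n + 2) * |b - 1| := by rw [abs_mul, abs_pow]
        _ ≤ |b| ^ (n + 2) * (|b| + 1) := by
          apply mul_le_mul_of_nonneg_left _ (by positivity)
          calc |b - 1| ≤ |b| + |1| := abs_sub _ _
            _ = |b| + 1 := by simp
    have e2 : |b| ^ (n + 2) * (|b| + 1) ≤ (a - 1) ^ (n + 2) * a := by
      have : |b| ^ (n + 2) ≤ (a - 1) ^ (n + 2) := pow_le_pow_left₀ (abs_nonneg b) hab _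
      have h5 : 0 ≤ (a - 1) ^ (n + 2) := by positivity
      apply mul_le_mul this (by linarith) (by positivity) h5
    have e3 : (a - 1) ^ (n + 2) * a < a ^ (n + 2) * (a - 1) := by
      have h6 : (a - 1) ^ (n + 1) < a ^ (n + 1) := pow_lt_pow_left₀ (by linarith) (by linarith) (by omega)
      have h7 : 0 < (a - 1) * a := mul_pos (by linarith) (by linarith)
      calc (a - 1) ^ (n + 2) * a = (a - 1) ^ (n + 1) * ((a - 1) * a) := by ring
        _ < a ^ (n + 1) * ((a - 1) * a) := mul_lt_mul_of_pos_right h6 h7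
        _ = a ^ (n + 2) * (a - 1) := by ring
    linarith
  have h4 := DP_cast ha h1 h2 (n + 2)
  have h5 := DP_cast ha h1 h2 (n + 1 + 2)
  have h6 : ((DP a b (n + 2) : ℕ) : ℤ) * (a - b) < ((DP a b (n + 1 + 2) : ℕ) : ℤ) * (a - b) := by
    rw [h4, h5]
    have e : a ^ (n + 1 + 2) - b ^ (n + 1 + 2) - (a ^ (n + 2) - b ^ (n + 2)) =
        a ^ (n + 2) * (a - 1) - b ^ (n + 2) * (b - 1) := by ring
    linarith
  have h7 := lt_of_mul_lt_mul_right h6 hpos.le
  show DP a b (n + 2) < DP a b (n + 1 + 2)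
  exact_mod_cast h7

lemma DP_lim (ha : 1 < a) (h1 : -a < b) (h2 : b < a) :
    Tendsto (fun p : ℕ => Real.log (DP a b p) / p) atTop (𝓝 (Real.log a)) := by
  have haR : (1 : ℝ) < a := by exact_mod_cast ha
  have ha0 : (0 : ℝ) < a := by linarith
  have hbR1 : -(a : ℝ) < b := by exact_mod_cast h1
  have hbR2 : (b : ℝ) < a := by exact_mod_cast h2
  have hpos : (0 : ℝ) < (a : ℝ) - b := by linarith
  have hr : |(b : ℝ) / a| < 1 := by
    rw [abs_div, abs_of_pos ha0, div_lt_one ha0]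
    exact abs_lt.2 ⟨hbR1, hbR2⟩
  have hr2 : Tendsto (fun p : ℕ => ((b : ℝ) / a) ^ p) atTop (𝓝 0) := tendsto_pow_atTop_nhds_zero_of_abs_lt_one hr
  have h3 : Tendsto (fun p : ℕ => (1 - ((b : ℝ) / a) ^ p) / ((a : ℝ) - b)) atTop (𝓝 ((1 - 0) / ((a : ℝ) - b))) :=
    (hr2.const_sub 1).div_const _
  have h4 : Tendsto (fun p : ℕ => Real.log ((1 - ((b : ℝ) / a) ^ p) / ((a : ℝ) - b))) atTop
      (𝓝 (Real.log ((1 - 0) / ((a : ℝ) - b)))) := by
    refine (Real.continuousAt_log ?_).tendsto.comp h3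
    rw [sub_zero]
    positivity
  have h5 : Tendsto (fun p : ℕ => Real.log ((1 - ((b : ℝ) / a) ^ p) / ((a : ℝ) - b)) / p) atTop (𝓝 0) :=
    h4.div_atTop tendsto_natCast_atTop_atTop
  have h6 := h5.const_add (Real.log a)
  rw [add_zero] at h6
  refine h6.congr' ?_
  have h7 : ∀ᶠ p : ℕ in atTop, ((b : ℝ) / a) ^ p < 1 := hr2.eventually (gt_mem_nhds one_pos)
  filter_upwards [h7, eventually_ge_atTop 1] with p hp hp1
  have hp0 : (0 : ℝ) < p := by exact_mod_cast hp1
  have h8 : (DP a b p : ℝ) * ((a : ℝ) - b) = (a : ℝ) ^ p - (b : ℝ) ^ p := by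
    have := DP_cast ha h1 h2 p
    exact_mod_cast this
  have h9 : (DP a b p : ℝ) = (a : ℝ) ^ p * ((1 - ((b : ℝ) / a) ^ p) / ((a : ℝ) - b)) := by
    rw [eq_comm, mul_div_assoc', div_eq_iff hpos.ne', h8, div_pow]
    field_simp
  rw [h9, Real.log_mul (by positivity) (div_pos (by linarith) hpos).ne', Real.log_pow]
  field_simp

lemma DP_fac (ha : 1 < a) (h1 : -a < b) (h2 : b < a) (hcop : IsCoprime a b) :
    ∃ p0 : ℕ, ∀ p : ℕ, p0 ≤ p → p.Prime → ∀ q : ℕ, q.Prime → q ∣ DP a b p →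
      ∃ k : ℕ, 1 ≤ k ∧ (q = 2 * k * p + 1 ∨ q = 2 * k * p - 1) := by
  refine ⟨(a - b).toNat + 3, fun p hp hpp q hq hqd => ?_⟩
  have : Fact q.Prime := ⟨hq⟩
  have : Fact p.Prime := ⟨hpp⟩
  have hpos : (0 : ℤ) < a - b := by linarith
  have hplt : (a - b) < p := by
    have : ((a - b).toNat : ℤ) = a - b := Int.toNat_of_nonneg hpos.le
    have h3 : (((a - b).toNat + 3 : ℕ) : ℤ) ≤ p := by exact_mod_cast hp
    push_cast at h3
    linarith
  have hcast := DP_cast ha h1 h2 p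
  have hqZ : ((DP a b p : ℕ) : ZMod q) = 0 := (ZMod.natCast_eq_zero_iff _ _).2 hqd
  have hab : (a : ZMod q) ^ p = (b : ZMod q) ^ p := by
    have h3 := congrArg (fun x : ℤ => (x : ZMod q)) hcast
    push_cast at h3
    rw [hqZ, zero_mul] at h3
    exact (sub_eq_zero.1 h3.symm)
  -- `q` does not divide `b`
  have hb : (b : ZMod q) ≠ 0 := by
    intro hb0
    rw [hb0, zero_pow hpp.ne_zero] at hab
    have ha0 : (a : ZMod q) = 0 := pow_eq_zero_iff (hpp.ne_zero) |>.1 hab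
    obtain ⟨u, v, huv⟩ := hcop
    have h3 := congrArg (fun x : ℤ => (x : ZMod q)) huv
    push_cast at h3
    rw [ha0, hb0, mul_zero, mul_zero, add_zero] at h3
    exact zero_ne_one h3
  set x : ZMod q := (a : ZMod q) / b with hx
  have hx1 : x ^ p = 1 := by
    rw [hx, div_pow, hab, div_self (pow_ne_zero _ hb)]
  have hxne : x ≠ 1 := by
    intro hx2
    have hab2 : (a : ZMod q) = b := by
      rw [hx, div_eq_one_iff_eq hb] at hx2
      exact hx2
    -- `q` divides `p`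
    have hgeom : ((DP a b p : ℕ) : ℤ) = ∑ i ∈ Finset.range p, a ^ i * b ^ (p - 1 - i) := by
      have h3 := (Commute.all a b).mul_geom_sum₂ p
      have h4 : (a - b) ≠ 0 := hpos.ne'
      apply mul_right_cancel₀ h4
      rw [hcast, ← h3]
      ring
    have h5 := congrArg (fun x : ℤ => (x : ZMod q)) hgeom
    push_cast at h5
    rw [hqZ, hab2] at h5
    have h6 : ∑ i ∈ Finset.range p, (b : ZMod q) ^ i * (b : ZMod q) ^ (p - 1 - i) = p * (b : ZMod q) ^ (p - 1) := by
      rw [Finset.sum_congr rfl (g := fun _ => (b : ZMod q) ^ (p - 1))]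
      · rw [Finset.sum_const, Finset.card_range, nsmul_eq_mul]
      · intro i hi
        rw [Finset.mem_range] at hi
        rw [← pow_add]
        congr 1
        omega
    rw [h6] at h5
    have h7 : (p : ZMod q) = 0 := by
      rcases mul_eq_zero.1 h5.symm with h8 | h8
      · exact h8
      · exact absurd h8 (pow_ne_zero _ hb)
    have h8 : q ∣ p := (ZMod.natCast_eq_zero_iff _ _).1 h7
    have h9 : q = p := (Nat.prime_dvd_prime_iff_eq hq hpp).1 h8
    have h10 : ((a - b : ℤ) : ZMod q) = 0 := by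
      push_cast
      rw [hab2, sub_self]
    have h11 : (q : ℤ) ∣ a - b := (ZMod.intCast_zmod_eq_zero_iff_dvd _ _).1 h10
    have h12 := Int.le_of_dvd hpos h11
    rw [h9] at h12
    linarith
  have hord : orderOf x = p := orderOf_eq_prime hx1 hxne
  have hx0 : x ≠ 0 := div_ne_zero (by
    intro h
    rw [h, zero_pow hpp.ne_zero] at hab
    exact hb (pow_eq_zero_iff (hpp.ne_zero) |>.1 hab.symm)) hb
  have h4 : p ∣ q - 1 := by
    rw [← hord]
    exact ZMod.orderOf_dvd_card_sub_one hx0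
  have hq2 : q ≠ 2 := by
    rintro rfl
    have := Nat.le_of_dvd (by norm_num) h4
    omega
  have hqo : Odd q := hq.odd_of_ne_two hq2
  have hpo : Odd p := hpp.odd_of_ne_two (by omega)
  have h5 : 2 ∣ q - 1 := by
    obtain ⟨a, ha⟩ := hqo
    exact ⟨a, by omega⟩
  have h6 : 2 * p ∣ q - 1 := by
    apply Nat.Coprime.mul_dvd_of_dvd_of_dvd _ h5 h4
    exact (Nat.coprime_two_left).2 hpo
  obtain ⟨k, hk⟩ := h6
  have hq3 := hq.two_le
  refine ⟨k, ?_, ?_⟩
  · rcases Nat.eq_zero_or_pos k with h7 | h7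
    · subst h7
      omega
    · exact h7
  · left
    have : 2 * k * p = 2 * p * k := by ring
    omega

/-- the pairs give exponential sequences -/
theorem DP_expo (ha : 1 < a) (h1 : -a < b) (h2 : b < a) (hcop : IsCoprime a b) : Expo (DP a b) (Real.log a) where
  pos := Real.log_pos (by exact_mod_cast ha)
  one := DP_two ha h1 h2
  mono := DP_mono ha h1 h2
  lim := DP_lim ha h1 h2
  fac := DP_fac ha h1 h2 hcop

end

end Pool.Agent.U310.Mers
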